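import Pool.Agent.W_7d29a1_SL.Refl
import Pool.Agent.W_7d29a1_SR.Rec

/-!
THEOREM (SL), proofs row 639, Step 3: the bad events of the scale `r` (tilted weights, cheap displacements, vertical paths in a
narrow strip). (helper86)
-/

namespace Pool.Agent.W_7d29a1_SL

open MeasureTheory ProbabilityTheory Filter Topology
open Pool.Agent.W_7d29a1_F Pool.Agent.W_7d29a1_G Pool.Agent.W_7d29a1_L Pool.Agent.W_7d29a1_h95g Pool.Agent.W_7d29a1_SR

variable {μ : Measure ℝ} {c C : ℝ} {n₀ : ℕ}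

theorem W_le_tilt (h : ℝ) (η : Env) (a : Pt) (n : ℕ) (y : ℤ) :
    W μ 0 η a n y ≤ Real.exp (T μ 0 (1 / 2) h η a n - h * ((y : ℝ) - 1 / 2 * n)) := by
  by_cases hy : 0 ≤ y ∧ y ≤ n
  · have h1 := exp_T (μ := μ) (s := 0) (v := 1 / 2) (h := h) η a n
    have h2 : W μ 0 η a n y * Real.exp (h * ((y : ℝ) - 1 / 2 * n)) ≤ Real.exp (T μ 0 (1 / 2) h η a n) := by
      rw [h1]
      exact Finset.single_le_sum (f := fun y : ℤ => W μ 0 η a n y * Real.exp (h * ((y : ℝ) - 1 / 2 * n)))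
        (fun y _ => mul_nonneg (W_nonneg _ _ _ _) (Real.exp_nonneg _)) (Finset.mem_Icc.2 hy)
    rw [Real.exp_sub, le_div_iff₀ (Real.exp_pos _)]
    exact h2
  · rw [W_eq_zero η a hy]
    exact (Real.exp_pos _).le

variable [IsProbabilityMeasure μ]

/-- Far displacements of time at most `4 r` are expensive: tilt `c EE r / wd r`. -/
theorem tilt_bd (h : In μ c C n₀) {ε : ℝ} (hε : 0 < ε) : ∃ b : ℝ, 1 ≤ b ∧ ∃ n₁ : ℕ, ∀ r : ℕ, n₁ ≤ r → ∀ k : ℕ, k ≤ 4 * r →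
    ∀ y : ℤ, (law μ).real {η | Real.exp (b * EE μ r - c * EE μ r / wd μ r * ((y : ℝ) - 1 / 2 * k)) < W μ 0 η 0 k y} ≤ ε := by
  have hc0 := h.c0
  have hC1 := h.C1
  have hC0 : 0 < C := lt_of_lt_of_le one_pos hC1
  obtain ⟨n₂, hw⟩ := (tendsto_atTop.1 (wd_tendsto h) 1).exists_forall_of_atTop
  obtain ⟨b, hb⟩ : ∃ b : ℝ, b = 1 + C * Real.log (C / ε + 1) := ⟨_, rfl⟩
  have hx1 : (1 : ℝ) ≤ C / ε + 1 := by
    have : 0 ≤ C / ε := by positivity
    linarith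
  have hb1 : 1 ≤ b := by
    rw [hb]
    have : 0 ≤ Real.log (C / ε + 1) := Real.log_nonneg hx1
    nlinarith
  refine ⟨b, hb1, max n₀ n₂, fun r hr k hk y => ?_⟩
  have hw1 := hw r ((le_max_right _ _).trans hr)
  have hw0 : 0 < wd μ r := by linarith
  have hE := EE_pos (μ := μ) r
  obtain ⟨th, hth⟩ : ∃ th : ℝ, th = c * EE μ r / wd μ r := ⟨_, rfl⟩
  have hth0 : 0 < th := by rw [hth]; positivity
  have hl := h.luck r ((le_max_left _ _).trans hr) th (-(wd μ r / 2)) (by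
    rw [abs_of_pos hth0, hth, div_mul_cancel₀ _ hw0.ne'])
  obtain ⟨M, hM⟩ : ∃ M : Env → ℝ, M = Mh μ 0 (1 / 2) th (wd μ r) (-(wd μ r / 2)) (4 * r) := ⟨_, rfl⟩
  have hl' : ∫ η, Real.exp (M η / (C * EE μ r)) ∂(law μ) ≤ C := by rw [hM]; exact hl
  have hmem : (((0 : ℕ), (0 : ℤ)), k) ∈ Bx (1 / 2) (wd μ r) (-(wd μ r / 2)) (4 * r) := by
    rw [mem_Bx (by norm_num) (by norm_num)]
    refine ⟨by simpa using hk, ?_, ?_⟩
    · simp only [Int.cast_zero, Nat.cast_zero, mul_zero, sub_zero]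
      linarith
    · simp only [Int.cast_zero, Nat.cast_zero, mul_zero, sub_zero]
      linarith
  have hTM : ∀ η, T μ 0 (1 / 2) th η 0 k ≤ M η := by
    intro η
    rw [hM]
    have h1 := le_Mh (μ := μ) (s := 0) (h := th) η hmem
    have e : ((((0 : ℕ) : ℤ), (0 : ℤ)) : Pt) = 0 := by
      ext <;> simp
    simp only at h1
    rw [e] at h1
    exact h1
  have hsub : {η | Real.exp (b * EE μ r - c * EE μ r / wd μ r * ((y : ℝ) - 1 / 2 * k)) < W μ 0 η 0 k y} ⊆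
      {η | Real.exp (b / C) ≤ Real.exp (M η / (C * EE μ r))} := by
    intro η hη
    rw [Set.mem_ofPred_eq] at hη ⊢
    have h1 := hη.trans_le (W_le_tilt (μ := μ) th η 0 k y)
    rw [Real.exp_lt_exp, ← hth] at h1
    rw [Real.exp_le_exp, div_le_div_iff₀ hC0 (by positivity)]
    have h2 : b * EE μ r ≤ M η := by linarith [hTM η]
    nlinarith
  have hint : Integrable (fun η => Real.exp (M η / (C * EE μ r))) (law μ) := by
    have h1 : Sub M := by rw [hM]; exact Sub_Mh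
    have h2 := (h1.const_mul (1 / (C * EE μ r))).exp_int h.em
    refine h2.congr (Eventually.of_forall fun η => ?_)
    simp only
    congr 1
    ring
  have h3 := mul_meas_ge_le_integral_of_nonneg (μ := law μ) (f := fun η => Real.exp (M η / (C * EE μ r)))
    (ae_of_all _ fun η => (Real.exp_pos _).le) hint (Real.exp (b / C))
  have h4 : Real.exp (b / C) * (law μ).real {η | Real.exp (b / C) ≤ Real.exp (M η / (C * EE μ r))} ≤ C := by
    refine le_trans ?_ hl'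
    simpa [Measure.real] using h3
  have h5 : C / ε + 1 ≤ Real.exp (b / C) := by
    rw [← Real.log_le_iff_le_exp (by linarith), le_div_iff₀ hC0, hb]
    linarith
  have h6 : (law μ).real {η | Real.exp (b / C) ≤ Real.exp (M η / (C * EE μ r))} ≤ ε := by
    have h7 : 0 ≤ (law μ).real {η | Real.exp (b / C) ≤ Real.exp (M η / (C * EE μ r))} := measureReal_nonneg
    have h8 : (C / ε) * (law μ).real {η | Real.exp (b / C) ≤ Real.exp (M η / (C * EE μ r))} ≤ C := by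
      refine le_trans (mul_le_mul_of_nonneg_right ?_ h7) h4
      linarith
    rw [div_mul_eq_mul_div, div_le_iff₀ hε] at h8
    nlinarith
  exact (measureReal_mono hsub (measure_ne_top _ _)).trans h6

/-- Cheap displacements (Markov). -/
theorem inn_bd (h : In μ c C n₀) {r : ℕ} (hr : n₀ ≤ r) {k : ℕ} {y : ℤ} (hk : k ≤ 4 * r) (hy0 : 0 ≤ y) (hy1 : y ≤ k)
    (hy : |(y : ℝ) - k / 2| ≤ c * vA μ 1 r * k + 1) (a : Pt) {b : ℝ} (hb : 0 < b) :
    (law μ).real {η | b * EE μ r ≤ X μ 0 η a k y} ≤ C / b := by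
  have hE := EE_pos (μ := μ) r
  have h1 := h.inn r hr k y hk hy0 hy1 hy
  have hI : Integrable (fun η => max (X μ 0 η a k y) 0) (law μ) :=
    ((Sub_X (μ := μ) (s := 0) a hy0 hy1).max (Sub.const 0)).integrable h.em
  have h2 : ∫ η, max (X μ 0 η a k y) 0 ∂(law μ) = ep μ k y := ep_sh a k y
  have h3 := mul_meas_ge_le_integral_of_nonneg (μ := law μ) (f := fun η => max (X μ 0 η a k y) 0)
    (ae_of_all _ fun η => le_max_right _ _) hI (b * EE μ r)
  have h4 : b * EE μ r * (law μ).real {η | b * EE μ r ≤ max (X μ 0 η a k y) 0} ≤ C * EE μ r := by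
    refine le_trans ?_ (h2.le.trans h1)
    simpa [Measure.real] using h3
  have h5 : (law μ).real {η | b * EE μ r ≤ X μ 0 η a k y} ≤ (law μ).real {η | b * EE μ r ≤ max (X μ 0 η a k y) 0} :=
    measureReal_mono (fun η hη => by
      rw [Set.mem_ofPred_eq] at hη ⊢
      exact le_max_of_le_left hη) (measure_ne_top _ _)
  rw [le_div_iff₀ hb]
  have h6 : (law μ).real {η | b * EE μ r ≤ X μ 0 η a k y} * b * EE μ r ≤ C * EE μ r := by
    have h7 := mul_le_mul_of_nonneg_left h5 (mul_pos hb hE).le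
    calc _ = b * EE μ r * (law μ).real {η | b * EE μ r ≤ X μ 0 η a k y} := by ring
      _ ≤ _ := h7
      _ ≤ _ := h4
  exact le_of_mul_le_mul_right h6 hE

/-- A vertical path in a narrow strip: `q` blocks of duration `τ`. -/
theorem vert_bd (h : In μ c C n₀) : ∃ R C' : ℝ, 0 ≤ R ∧ 0 < C' ∧ ∃ n₁ : ℕ, ∀ τ, n₁ ≤ τ → ∀ (q : ℕ) (a : Pt) (S : Set Pt),
    (∀ p : Pt, a.1 < p.1 → p.1 ≤ a.1 + (q * τ : ℕ) → |2 * ((p.2 : ℝ) - (a.2 : ℝ)) - ((p.1 : ℝ) - (a.1 : ℝ))| ≤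
      2 * (R * wd μ τ + 2) → p ∈ S) → 1 ≤ q →
    (∀ η, 0 < WR μ 0 S η a (q * τ) (((q * τ : ℕ) : ℤ) / 2)) ∧ ∀ b : ℝ, 0 < b →
      (law μ).real {η | WR μ 0 S η a (q * τ) (((q * τ : ℕ) : ℤ) / 2) < Real.exp (-(b * EE μ τ))} ≤ q * C' / b := by
  obtain ⟨R, C', n₁, hR, hT⟩ := tubeIn_of h
  obtain ⟨n₂, hw⟩ := (tendsto_atTop.1 (wd_tendsto h) (1 / c)).exists_forall_of_atTop
  have hc0 := h.c0
  refine ⟨R, max C' 1, hR, by positivity, max (max n₁ n₂) 1, fun τ hτ q a S hS hq => ?_⟩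
  have hτ1 : n₁ ≤ τ := ((le_max_left _ _).trans (le_max_left _ _)).trans hτ
  have hτ2 : n₂ ≤ τ := ((le_max_right _ _).trans (le_max_left _ _)).trans hτ
  have hτ3 : 1 ≤ τ := (le_max_right _ _).trans hτ
  have hw1 := hw τ hτ2
  have hw2 : 1 ≤ c * wd μ τ := by
    rw [div_le_iff₀ hc0] at hw1
    linarith
  have hE := EE_pos (μ := μ) τ
  have hwd : Pool.Agent.W_7d29a1_h10.wd μ τ = wd μ τ := rfl
  have hK := Pool.Agent.W_7d29a1_h10.lane_mean (μ := μ) h.em a (c := 1 / 2) (D := R * wd μ τ) (K := max C' 1 * EE μ τ) hτ3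
    (by norm_num) (by norm_num) (fun z hz0 hz1 hz => by
      have h1 := hT τ hτ1 z hz0 hz1 (by
        rw [hwd]
        have : (1 / 2 : ℝ) * τ = τ / 2 := by ring
        rw [this] at hz
        linarith)
      rw [hwd] at h1
      exact ⟨h1.1, h1.2.trans (mul_le_mul_of_nonneg_right (le_max_left _ _) hE.le)⟩) q
  have hbp : Pool.Agent.W_7d29a1_h10.bp (1 / 2) τ q = ((q * τ : ℕ) : ℤ) / 2 := by
    unfold Pool.Agent.W_7d29a1_h10.bp
    rw [Int.floor_eq_iff]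
    have h1 : ((q * τ : ℕ) : ℤ) - 1 ≤ 2 * (((q * τ : ℕ) : ℤ) / 2) := by omega
    have h2 : 2 * (((q * τ : ℕ) : ℤ) / 2) ≤ ((q * τ : ℕ) : ℤ) := by omega
    have h1' : ((q * τ : ℕ) : ℝ) - 1 ≤ 2 * ((((q * τ : ℕ) : ℤ) / 2 : ℤ) : ℝ) := by exact_mod_cast h1
    have h2' : 2 * ((((q * τ : ℕ) : ℤ) / 2 : ℤ) : ℝ) ≤ ((q * τ : ℕ) : ℝ) := by exact_mod_cast h2
    constructor <;> linarith
  rw [hbp] at hK
  obtain ⟨Tb, hTb⟩ : ∃ Tb : Set Pt, Tb = Pool.Agent.W_7d29a1_g.Tube a (1 / 2) (R * wd μ τ + 2) := ⟨_, rfl⟩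
  rw [← hTb] at hK
  have hle : ∀ η, WR μ 0 Tb η a (q * τ) (((q * τ : ℕ) : ℤ) / 2) ≤ WR μ 0 S η a (q * τ) (((q * τ : ℕ) : ℤ) / 2) := by
    intro η
    refine Pool.Agent.W_7d29a1_h10.WR_mono_on η a _ _ fun p hp hp1 hp2 => hS p hp1 hp2 ?_
    rw [hTb] at hp
    unfold Pool.Agent.W_7d29a1_g.Tube at hp
    rw [Set.mem_ofPred_eq] at hp
    push_cast at hp
    have e : 2 * ((p.2 : ℝ) - (a.2 : ℝ)) - ((p.1 : ℝ) - (a.1 : ℝ)) =
        2 * (((p.2 : ℝ) - (a.2 : ℝ)) - 1 / 2 * ((p.1 : ℝ) - (a.1 : ℝ))) := by ring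
    rw [e, abs_mul, abs_of_pos (by norm_num : (0 : ℝ) < 2)]
    linarith
  refine ⟨fun η => (hK.1 η).trans_le (hle η), fun b hb => ?_⟩
  have hp := hK.2
  unfold Pool.Agent.W_7d29a1_h10.pR at hp
  have hWs : ∀ η, WR μ 0 {p : Pt | p + a ∈ Tb} (sh a η) 0 (q * τ) (((q * τ : ℕ) : ℤ) / 2) =
      WR μ 0 Tb η a (q * τ) (((q * τ : ℕ) : ℤ) / 2) := by
    intro η
    have h1 := WR_sh (μ := μ) (s := 0) Tb η 0 a (q * τ) (((q * τ : ℕ) : ℤ) / 2)
    rw [zero_add] at h1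
    exact h1
  have hzr : 0 < Zr {p : Pt | p + a ∈ Tb} (sh a fun _ => 0) 0 (q * τ) (((q * τ : ℕ) : ℤ) / 2) := by
    have h1 := hK.1 fun _ => 0
    rw [← hWs] at h1
    unfold WR at h1
    exact (mul_pos_iff_of_pos_left (Real.exp_pos _)).1 h1
  have hpath : Pool.Agent.W_7d29a1_g.HasPath {p : Pt | p + a ∈ Tb} 0 (q * τ) (((q * τ : ℕ) : ℤ) / 2) :=
    Pool.Agent.W_7d29a1_h57g.hasPath_of_pos _ _ hzr
  have hI : Integrable (fun η => max (-Real.log (WR μ 0 Tb η a (q * τ) (((q * τ : ℕ) : ℤ) / 2))) 0) (law μ) := by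
    have h1 : Sub fun η => Real.log (WR μ 0 Tb η a (q * τ) (((q * τ : ℕ) : ℤ) / 2)) := by
      have h2 := (hpath.sub (μ := μ) (s := 0)).comp_sh a
      refine (congrArg Pool.Agent.W_7d29a1_F.Sub (funext fun η => ?_)).mp h2
      rw [hWs]
    exact (h1.neg.max (Sub.const 0)).integrable h.em
  have h3 := mul_meas_ge_le_integral_of_nonneg (μ := law μ)
    (f := fun η => max (-Real.log (WR μ 0 Tb η a (q * τ) (((q * τ : ℕ) : ℤ) / 2))) 0)
    (ae_of_all _ fun η => le_max_right _ _) hI (b * EE μ τ)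
  have h4 : b * EE μ τ * (law μ).real {η | b * EE μ τ ≤ max (-Real.log (WR μ 0 Tb η a (q * τ) (((q * τ : ℕ) : ℤ) / 2))) 0} ≤
      q * (max C' 1 * EE μ τ) := by
    refine le_trans ?_ hp
    simpa [Measure.real] using h3
  have h5 : (law μ).real {η | WR μ 0 S η a (q * τ) (((q * τ : ℕ) : ℤ) / 2) < Real.exp (-(b * EE μ τ))} ≤
      (law μ).real {η | b * EE μ τ ≤ max (-Real.log (WR μ 0 Tb η a (q * τ) (((q * τ : ℕ) : ℤ) / 2))) 0} := by
    refine measureReal_mono (fun η hη => ?_) (measure_ne_top _ _)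
    rw [Set.mem_ofPred_eq] at hη ⊢
    refine le_max_of_le_left ?_
    have h6 := (hle η).trans_lt hη
    have h7 := Real.log_lt_log (hK.1 η) h6
    rw [Real.log_exp] at h7
    linarith
  rw [le_div_iff₀ hb]
  have h6 : (law μ).real {η | WR μ 0 S η a (q * τ) (((q * τ : ℕ) : ℤ) / 2) < Real.exp (-(b * EE μ τ))} * b * EE μ τ ≤
      q * max C' 1 * EE μ τ := by
    have h7 := mul_le_mul_of_nonneg_left h5 (mul_pos hb hE).le
    calc _ = b * EE μ τ * (law μ).real {η | WR μ 0 S η a (q * τ) (((q * τ : ℕ) : ℤ) / 2) < Real.exp (-(b * EE μ τ))} := by ring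
      _ ≤ _ := h7
      _ ≤ _ := h4
      _ = _ := by ring
  exact le_of_mul_le_mul_right h6 hE

end Pool.Agent.W_7d29a1_SL
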