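import Pool.Agent.W_7d29a1_SR.Scale

/-!
THEOREM (SL) (superlinearity of the cost at `0`), MP_7d29a1_pr, proofs row 639. The interface of the four steps.
-/

namespace Pool.Agent.W_7d29a1_SL

open MeasureTheory ProbabilityTheory Filter Topology
open Pool.Agent.W_7d29a1_F Pool.Agent.W_7d29a1_G Pool.Agent.W_7d29a1_SR

noncomputable section

/-- The sum over `N < n ≤ 2 N` of the mean oscillation of the profile `x ↦ V_n((0, x))` between `0` and `L`. -/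
def vN (μ : Measure ℝ) (N : ℕ) (L : ℤ) : ℝ :=
  ∑ n ∈ Finset.Ioc N (2 * N), ∫ η, |V μ 0 η ((0 : ℤ), (0 : ℤ)) n - V μ 0 η ((0 : ℤ), L) n| ∂(law μ)

/-- STEP 1 (Osc.lean). -/
def Osc (μ : Measure ℝ) (c C₂ : ℝ) (n₁ : ℕ) : Prop :=
  ∀ m, n₁ ≤ m → ∀ N, m ≤ N → ∀ x : ℤ, |(x : ℝ)| ≤ c * wd μ m →
    ∑ n ∈ Finset.Ioc N (2 * N), ∫ η, |V μ 0 η ((0 : ℤ), x) n - V μ 0 η ((m : ℤ), ((m / 2 : ℕ) : ℤ)) (n - m)| ∂(law μ) ≤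
      C₂ * EE μ m * N

/-- STEP 2 (Strip.lean): lucky strips of fixed width. -/
def Strip (μ : Measure ℝ) (R₁ : ℝ) : Prop :=
  ∀ K : ℝ, ∃ p : ℝ, 0 < p ∧ ∃ n₁ : ℕ, ∀ n, n₁ ≤ n →
    p ≤ (law μ).real {η | K * EE μ n ≤ Real.log (cf μ (R₁ * wd μ n) η 0 n)}

/-- STEP 3 (Sep.lean). -/
def Sep (μ : Measure ℝ) (c κ p : ℝ) (n₁ : ℕ) : Prop :=
  ∀ m, n₁ ≤ m → ∀ N, m ≤ N → ∀ L : ℤ, c * wd μ m / 32 ≤ L → (L : ℝ) ≤ c * wd μ m / 8 →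
    p * N ≤ ∑ n ∈ Finset.Ioc N (2 * N), (law μ).real {η |
      V μ 0 η ((0 : ℤ), (0 : ℤ)) n + κ * EE μ m ≤ V μ 0 η ((0 : ℤ), L) n ∧
      V μ 0 η ((0 : ℤ), 2 * L) n + κ * EE μ m ≤ V μ 0 η ((0 : ℤ), L) n}

/-- THEOREM (SL). -/
def SL (μ : Measure ℝ) (C₁ c₁ : ℝ) (n₁ : ℕ) : Prop :=
  ∀ m m', n₁ ≤ m → m ≤ m' → EE μ m' ≤ C₁ * (wd μ m' / wd μ m) ^ (1 - c₁) * EE μ m

end

end Pool.Agent.W_7d29a1_SL
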