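import Pool.Agent.W_7d29a1_F.CoreD
import Pool.Agent.W_7d29a1_F.CoreB2
import Pool.Agent.W_7d29a1_F.LuckA

/-!
MP_7d29a1_pr, scaling law, part (e): the polymer is not confined to a region which is small compared with the unit (for numbers;
quantile form of helper51). Two disjoint tubes at the starts `(0, 0)` and `(0, x1)`; both partition functions are almost those of the
tubes, hence almost independent; but they differ at most by the costs of the short time `m`.
-/

namespace Pool.Agent.W_7d29a1_SL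

open MeasureTheory ProbabilityTheory Filter Topology Pool.Agent.W_7d29a1_F

noncomputable section

variable {μ : Measure ℝ} {s : ℝ}

/-- The weight of the paths with `n` steps from `a` which stay in `R`. -/
def ZR (μ : Measure ℝ) (s : ℝ) (R : Set Pt) (η : Env) (a : Pt) (n : ℕ) : ℝ :=
  ∑ y ∈ Finset.Icc (0 : ℤ) n, WR μ s R η a n y

theorem ZR_nonneg (R : Set Pt) (η : Env) (a : Pt) (n : ℕ) : 0 ≤ ZR μ s R η a n :=
  Finset.sum_nonneg fun _ _ => WR_nonneg _ _ _ _ _

theorem ZR_le (R : Set Pt) (η : Env) (a : Pt) (n : ℕ) : ZR μ s R η a n ≤ Real.exp (V μ s η a n) := by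
  rw [exp_V]
  exact Finset.sum_le_sum fun y _ => WR_le_W R η a n y

theorem measurable_ZR (R : Set Pt) (a : Pt) (n : ℕ) : Measurable fun η : Env => ZR μ s R η a n :=
  Finset.measurable_sum _ fun y _ => measurable_WR R a n y

theorem WR_eq_zero17 (R : Set Pt) (η : Env) (a : Pt) {n : ℕ} {y : ℤ} (h : ¬ (0 ≤ y ∧ y ≤ n)) :
    WR μ s R η a n y = 0 := by
  unfold WR
  rw [Zr_eq_zero R η a h, mul_zero]

/-- Cutting at a time. -/
theorem ZR_add (R : Set Pt) (η : Env) (a : Pt) (m n : ℕ) :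
    ZR μ s R η a (m + n) = ∑ k ∈ Finset.Icc (0 : ℤ) m, WR μ s R η a m k * ZR μ s R η (a.1 + m, a.2 + k) n := by
  have h1 : ZR μ s R η a (m + n) = ∑ y ∈ Finset.Icc (0 : ℤ) ((m + n : ℕ) : ℤ), ∑ k ∈ Finset.Icc (0 : ℤ) m,
      WR μ s R η a m k * WR μ s R η (a.1 + m, a.2 + k) n (y - k) :=
    Finset.sum_congr rfl fun y _ => WR_add R η a m n y
  rw [h1, Finset.sum_comm]
  refine Finset.sum_congr rfl fun k hk => ?_
  rw [Finset.mem_Icc] at hk
  rw [← Finset.mul_sum]
  congr 1
  unfold ZR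
  have h2 : ∑ y ∈ Finset.Icc (0 : ℤ) n, WR μ s R η (a.1 + m, a.2 + k) n y =
      ∑ Y ∈ (Finset.Icc (0 : ℤ) n).image (fun y => y + k), WR μ s R η (a.1 + m, a.2 + k) n (Y - k) := by
    rw [Finset.sum_image (fun x _ y _ h => by simpa using h)]
    refine Finset.sum_congr rfl fun y _ => ?_
    rw [add_sub_cancel_right]
  rw [h2]
  symm
  refine Finset.sum_subset ?_ ?_
  · intro Y hY
    obtain ⟨y, hy, rfl⟩ := Finset.mem_image.1 hY
    rw [Finset.mem_Icc] at hy ⊢
    push_cast
    omega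
  · intro Y _ hY
    refine WR_eq_zero17 R η _ ?_
    rintro ⟨h3, h4⟩
    apply hY
    refine Finset.mem_image.2 ⟨Y - k, Finset.mem_Icc.2 ⟨h3, h4⟩, by ring⟩

/-- A path in `R` ends in `R`. -/
theorem WR_end (R : Set Pt) (η : Env) (a : Pt) {m : ℕ} (hm : 1 ≤ m) {k : ℤ} (h : ((a.1 + m, a.2 + k) : Pt) ∉ R) :
    WR μ s R η a m k = 0 := by
  obtain ⟨n, rfl⟩ : ∃ n, m = n + 1 := ⟨m - 1, by omega⟩
  unfold WR
  have h1 : Zr R η a (n + 1) k = R.indicator (fun p => Real.exp (η p)) (a.1 + (n + 1), a.2 + k) *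
      (Zr R η a n k + Zr R η a n (k - 1)) := rfl
  have h2 : ((a.1 + ((n : ℤ) + 1), a.2 + k) : Pt) ∉ R := by
    intro h3
    apply h
    push_cast
    exact h3
  rw [h1, Set.indicator_of_notMem h2, zero_mul, mul_zero]

/-- One point, then a line, in terms of weights. -/
theorem W_mul_exp_V_le (η : Env) (a : Pt) (m n : ℕ) (k : ℤ) :
    W μ s η a m k * Real.exp (V μ s η (a.1 + m, a.2 + k) n) ≤ Real.exp (V μ s η a (m + n)) := by
  by_cases hk : 0 ≤ k ∧ k ≤ m
  · rw [exp_V_add]
    exact Finset.single_le_sum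
      (f := fun k => W μ s η a m k * Real.exp (V μ s η (a.1 + m, a.2 + k) n))
      (fun j _ => mul_nonneg (W_nonneg η a m j) (Real.exp_nonneg _)) (Finset.mem_Icc.2 hk)
  · rw [W_eq_zero η a hk, zero_mul]
    exact (Real.exp_pos _).le

theorem ZR_dep (R : Set Pt) (a : Pt) (n : ℕ) : DependsOn (fun η : Env => ZR μ s R η a n) (R ∩ rows a.1 (a.1 + n)) := by
  intro η η' h
  show ZR μ s R η a n = ZR μ s R η' a n
  unfold ZR
  refine Finset.sum_congr rfl fun y _ => ?_
  refine WR_dep (μ := μ) (s := s) R a n y fun p hp => h p ⟨hp.2, ?_⟩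
  obtain ⟨h1, h2, -, -, -, -⟩ := hp.1
  exact ⟨h1, h2⟩

/-- The translate of the region. -/
def Rx (R : Set Pt) (x : ℤ) : Set Pt := {p | ((p.1, p.2 - x) : Pt) ∈ R}

theorem ZR_sh (R : Set Pt) (η : Env) (x : ℤ) (n : ℕ) :
    ZR μ s R (sh (0, x) η) 0 n = ZR μ s (Rx R x) η (0, x) n := by
  unfold ZR
  refine Finset.sum_congr rfl fun y _ => ?_
  have h := WR_sh (μ := μ) (s := s) (Rx R x) η 0 ((0, x) : Pt) n y
  rw [zero_add] at h
  rw [← h]
  congr 1
  ext p
  show p ∈ R ↔ ((p.1 + 0, p.2 + x - x) : Pt) ∈ R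
  rw [add_zero, add_sub_cancel_right]

theorem real_eq_int [IsProbabilityMeasure μ] {p : Env → Prop} (h : MeasurableSet {η | p η}) :
    (law μ).real {η | p η} = ∫ η, io (p η) ∂(law μ) := by
  classical
  have h1 : (fun η => io (p η)) = {η | p η}.indicator fun _ => (1 : ℝ) := by
    funext η
    by_cases hp : p η
    · rw [io_of hp, Set.indicator_of_mem (show η ∈ {η | p η} from hp)]
    · rw [io_not hp, Set.indicator_of_notMem (show η ∉ {η | p η} from hp)]
  rw [h1, integral_indicator_const _ h]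
  simp

theorem int_io [IsProbabilityMeasure μ] {p : Env → Prop} (h : MeasurableSet {η | p η}) :
    Integrable (fun η => io (p η)) (law μ) := by
  refine Integrable.mono' (integrable_const (1 : ℝ)) (measurable_io h).aestronglyMeasurable
    (Eventually.of_forall fun η => ?_)
  rw [Real.norm_eq_abs, abs_of_nonneg (io_nonneg _)]
  exact io_le_one _

/-- A choice which is independent of the events has at most the largest probability. -/
theorem choice_le [IsProbabilityMeasure μ] {ι : Type*} (K : Finset ι) (r : ι → ℤ) (hr : Function.Injective r)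
    {P Q : ι → Env → Prop} {A B : Set Pt} (hAB : Disjoint A B) (hPm : ∀ i ∈ K, MeasurableSet {η | P i η})
    (hQm : ∀ i ∈ K, MeasurableSet {η | Q i η})
    (hPd : ∀ i ∈ K, ∀ η η' : Env, (∀ x ∈ A, η x = η' x) → (P i η ↔ P i η'))
    (hQd : ∀ i ∈ K, ∀ η η' : Env, (∀ x ∈ B, η x = η' x) → (Q i η ↔ Q i η')) {ε : ℝ}
    (hε : ∀ i ∈ K, (law μ).real {η | Q i η} ≤ ε) (hε0 : 0 ≤ ε) :
    (law μ).real {η | ∃ i ∈ K, Fi K r (fun j => P j η) i ∧ Q i η} ≤ ε := by
  classical
  have hF : ∀ i ∈ K, MeasurableSet {η | Fi K r (fun j => P j η) i} := fun i hi => meas_Fi K r hPm hi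
  have hFQ : ∀ i ∈ K, (law μ).real {η | Fi K r (fun j => P j η) i ∧ Q i η} ≤
      ε * ∫ η, io (Fi K r (fun j => P j η) i) ∂(law μ) := by
    intro i hi
    have hm : MeasurableSet {η | Fi K r (fun j => P j η) i ∧ Q i η} := (hF i hi).inter (hQm i hi)
    rw [real_eq_int hm]
    have e : ∀ η : Env, io (Fi K r (fun j => P j η) i ∧ Q i η) = io (Fi K r (fun j => P j η) i) * io (Q i η) := by
      intro η
      by_cases h1 : Fi K r (fun j => P j η) i
      · by_cases h2 : Q i η
        · rw [io_of h1, io_of h2, io_of ⟨h1, h2⟩, one_mul]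
        · rw [io_not h2, io_not fun h => h2 h.2, mul_zero]
      · rw [io_not h1, io_not fun h => h1 h.1, zero_mul]
    simp only [e]
    rw [integral_indep (measurable_io (hF i hi)) (measurable_io (hQm i hi))
      (dep_Fi K r hi fun j hj _ => hPd j hj) (B := B) ?_ hAB, mul_comm, ← real_eq_int (hQm i hi)]
    · exact mul_le_mul_of_nonneg_right (hε i hi) (integral_nonneg fun _ => io_nonneg _)
    · intro η η' h
      show io (Q i η) = io (Q i η')
      rw [propext (hQd i hi η η' h)]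
  have hU : {η | ∃ i ∈ K, Fi K r (fun j => P j η) i ∧ Q i η} ⊆
      ⋃ i ∈ K, {η | Fi K r (fun j => P j η) i ∧ Q i η} := by
    rintro η ⟨i, hi, h⟩
    simp only [Set.mem_iUnion]
    exact ⟨i, hi, h⟩
  refine (measureReal_mono hU (measure_ne_top _ _)).trans ((measureReal_biUnion_finset_le _ _).trans ?_)
  refine (Finset.sum_le_sum hFQ).trans ?_
  rw [← Finset.mul_sum, ← integral_finsetSum _ fun i hi => int_io (hF i hi)]
  have h1 : ∫ η, ∑ i ∈ K, io (Fi K r (fun j => P j η) i) ∂(law μ) ≤ ∫ _η, (1 : ℝ) ∂(law μ) := by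
    refine integral_mono_of_nonneg (Eventually.of_forall fun η => Finset.sum_nonneg fun i _ => io_nonneg _)
      (integrable_const _) (Eventually.of_forall fun η => ?_)
    show ∑ i ∈ K, io (Fi K r (fun j => P j η) i) ≤ 1
    rw [sum_Fi K hr]
    exact io_le_one _
  rw [integral_const, probReal_univ, one_smul] at h1
  nlinarith

/-- NOT CONFINED. -/
theorem not_conf [IsProbabilityMeasure μ] {R : Set Pt} {x1 : ℤ} (hR : Disjoint R (Rx R x1)) {m n : ℕ} (hm : 1 ≤ m)
    {E c d ε p1 : ℝ} (hE : c + Real.log 2 < E) (hd : 0 ≤ d)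
    (ha : p1 ≤ (law μ).real {η | 4 * E ≤ V μ s η 0 (m + n)})
    (hb : 1 / 2 ≤ (law μ).real {η | V μ s η 0 (m + n) ≤ 2 * E})
    (hc : ∀ k : ℤ, 0 ≤ k → k ≤ m → (((m : ℤ), k) : Pt) ∈ R →
      (law μ).real {η | W μ s η 0 m (x1 + k) < Real.exp (-c)} ≤ ε)
    (hV : (law μ).real {η | c < V μ s η 0 m} ≤ ε) (hp : 6 * d + 3 * ε < p1) :
    ∫ η, ZR μ s R η 0 (m + n) / Real.exp (V μ s η 0 (m + n)) ∂(law μ) ≤ 1 - d := by
  classical
  by_contra hcon
  push Not at hcon
  have hε0 : 0 ≤ ε := measureReal_nonneg.trans hV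
  obtain ⟨N, hN⟩ : ∃ N, N = m + n := ⟨_, rfl⟩
  -- the confined weight is at least half of the weight
  have hq0 : ∀ η : Env, 0 ≤ ZR μ s R η 0 N / Real.exp (V μ s η 0 N) := fun η =>
    div_nonneg (ZR_nonneg _ _ _ _) (Real.exp_pos _).le
  have hq1 : ∀ η : Env, ZR μ s R η 0 N / Real.exp (V μ s η 0 N) ≤ 1 := fun η => by
    rw [div_le_one (Real.exp_pos _)]
    exact ZR_le _ _ _ _
  have hqm : Measurable fun η : Env => ZR μ s R η 0 N / Real.exp (V μ s η 0 N) :=
    (measurable_ZR R 0 N).div (measurable_V 0 N).exp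
  have hqi : Integrable (fun η : Env => ZR μ s R η 0 N / Real.exp (V μ s η 0 N)) (law μ) :=
    Integrable.mono' (integrable_const (1 : ℝ)) hqm.aestronglyMeasurable (Eventually.of_forall fun η => by
      rw [Real.norm_eq_abs, abs_of_nonneg (hq0 η)]
      exact hq1 η)
  have hA0 : (law μ).real {η | ZR μ s R η 0 N < Real.exp (V μ s η 0 N) / 2} ≤ 2 * d := by
    have h1 := mul_meas_ge_le_integral_of_nonneg (μ := law μ)
      (f := fun η => 1 - ZR μ s R η 0 N / Real.exp (V μ s η 0 N))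
      (Eventually.of_forall fun η => sub_nonneg.2 (hq1 η)) ((integrable_const _).sub hqi) (1 / 2)
    rw [integral_sub (integrable_const _) hqi, integral_const, probReal_univ, one_smul] at h1
    have h2 : (law μ).real {η | ZR μ s R η 0 N < Real.exp (V μ s η 0 N) / 2} ≤
        (law μ).real {η | 1 / 2 ≤ 1 - ZR μ s R η 0 N / Real.exp (V μ s η 0 N)} := by
      refine measureReal_mono (fun η hη => ?_) (measure_ne_top _ _)
      have h3 : ZR μ s R η 0 N < Real.exp (V μ s η 0 N) / 2 := hη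
      have h4 : ZR μ s R η 0 N / Real.exp (V μ s η 0 N) < 1 / 2 := by
        rw [div_lt_iff₀ (Real.exp_pos _)]
        linarith
      show 1 / 2 ≤ 1 - ZR μ s R η 0 N / Real.exp (V μ s η 0 N)
      linarith
    rw [← hN] at hcon
    linarith
  -- the same for the second tube
  have hA1 : (law μ).real {η | ZR μ s (Rx R x1) η (0, x1) N < Real.exp (V μ s η (0, x1) N) / 2} ≤ 2 * d := by
    have hms : MeasurableSet {η : Env | ZR μ s R η 0 N < Real.exp (V μ s η 0 N) / 2} :=
      measurableSet_lt (measurable_ZR R 0 N) ((measurable_V 0 N).exp.div_const 2)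
    rw [← real_sh (μ := μ) ((0, x1) : Pt) hms] at hA0
    refine le_trans (le_of_eq ?_) hA0
    congr 1
    ext η
    show ZR μ s (Rx R x1) η (0, x1) N < Real.exp (V μ s η (0, x1) N) / 2 ↔
      ZR μ s R (sh (0, x1) η) 0 N < Real.exp (V μ s (sh (0, x1) η) 0 N) / 2
    rw [ZR_sh, V_sh, zero_add]
  have hVx : (law μ).real {η | c < V μ s η (0, x1) m} ≤ ε := by
    have hms : MeasurableSet {η : Env | c < V μ s η 0 m} := measurableSet_lt measurable_const (measurable_V 0 m)
    rw [← real_sh (μ := μ) ((0, x1) : Pt) hms] at hV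
    refine le_trans (le_of_eq ?_) hV
    congr 1
    ext η
    show c < V μ s η (0, x1) m ↔ c < V μ s (sh (0, x1) η) 0 m
    rw [V_sh, zero_add]
  have hax : p1 ≤ (law μ).real {η | 4 * E ≤ V μ s η (0, x1) N} := by
    have hms : MeasurableSet {η : Env | 4 * E ≤ V μ s η 0 N} := measurableSet_le measurable_const (measurable_V 0 N)
    rw [← hN] at ha
    rw [← real_sh (μ := μ) ((0, x1) : Pt) hms] at ha
    refine ha.trans (le_of_eq ?_)
    congr 1
    ext η
    show 4 * E ≤ V μ s (sh (0, x1) η) 0 N ↔ 4 * E ≤ V μ s η (0, x1) N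
    rw [V_sh, zero_add]
  -- the continuations in the second tube
  set K : Finset ℤ := (Finset.Icc (0 : ℤ) m).filter fun k => (((m : ℤ), k) : Pt) ∈ R with hK
  obtain ⟨Y, hY⟩ : ∃ Y : ℤ → Env → ℝ, Y = fun k η => ZR μ s (Rx R x1) η ((m : ℤ), x1 + k) n := ⟨_, rfl⟩
  have hY0 : ∀ k η, 0 ≤ Y k η := fun k η => by
    rw [hY]
    exact ZR_nonneg _ _ _ _
  have hYm : ∀ k, Measurable (Y k) := fun k => by
    rw [hY]
    exact measurable_ZR _ _ _
  have hYd : ∀ k, DependsOn (Y k) (Rx R x1 ∩ rows m (m + n)) := fun k => by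
    rw [hY]
    exact ZR_dep (μ := μ) (s := s) (Rx R x1) ((m : ℤ), x1 + k) n
  -- the cut
  have hcut : ∀ η : Env, ZR μ s (Rx R x1) η (0, x1) N ≤
      ∑ k ∈ K, W μ s η (0, x1) m k * Y k η := by
    intro η
    rw [hN, ZR_add, hK, Finset.sum_filter]
    refine Finset.sum_le_sum fun k _ => ?_
    have e1 : ((((0 : ℤ), x1) : Pt).1 + (m : ℤ), (((0 : ℤ), x1) : Pt).2 + k) = (((m : ℤ), x1 + k) : Pt) := by
      simp
    rw [e1]
    by_cases hk : (((m : ℤ), k) : Pt) ∈ R
    · rw [if_pos hk, hY]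
      exact mul_le_mul_of_nonneg_right (WR_le_W _ _ _ _ _) (ZR_nonneg _ _ _ _)
    · rw [if_neg hk, WR_end (Rx R x1) η ((0 : ℤ), x1) hm, zero_mul]
      rw [e1]
      intro h
      apply hk
      have h2 : (((m : ℤ), x1 + k - x1) : Pt) ∈ R := h
      rwa [add_sub_cancel_left] at h2
  -- `P k`: the continuation of `k` is the largest and larger than `exp (3 E)`
  obtain ⟨P, hP⟩ : ∃ P : ℤ → Env → Prop, P = fun k η => Real.exp (3 * E) ≤ Y k η ∧ ∀ j ∈ K, Y j η ≤ Y k η := ⟨_, rfl⟩
  have hPm : ∀ k ∈ K, MeasurableSet {η | P k η} := by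
    intro k _
    have e : {η | P k η} = {η | Real.exp (3 * E) ≤ Y k η} ∩ ⋂ j ∈ K, {η | Y j η ≤ Y k η} := by
      ext η
      rw [hP]
      simp only [Set.mem_ofPred_eq, Set.mem_inter_iff, Set.mem_iInter]
    rw [e]
    exact (measurableSet_le measurable_const (hYm k)).inter
      (Finset.measurableSet_biInter K fun j _ => measurableSet_le (hYm j) (hYm k))
  have hPd : ∀ k ∈ K, ∀ η η' : Env, (∀ x ∈ Rx R x1 ∩ rows m (m + n), η x = η' x) → (P k η ↔ P k η') := by
    intro k _ η η' h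
    have h1 : ∀ j, Y j η = Y j η' := fun j => hYd j h
    rw [hP]
    simp only [h1]
  -- the event `M ≥ exp (3 E)`
  have hbig : {η | 4 * E ≤ V μ s η (0, x1) N} ⊆ {η | ∃ k ∈ K, P k η} ∪
      ({η | ZR μ s (Rx R x1) η (0, x1) N < Real.exp (V μ s η (0, x1) N) / 2} ∪ {η | c < V μ s η (0, x1) m}) := by
    intro η hη
    by_contra hc'
    simp only [Set.mem_union, Set.mem_ofPred_eq, not_or, not_lt] at hc'
    obtain ⟨h1, h2, h3⟩ := hc'
    have hη' : 4 * E ≤ V μ s η (0, x1) N := hη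
    -- all continuations are small
    have h4 : ∀ k ∈ K, Y k η ≤ Real.exp (3 * E) := by
      by_contra h5
      push Not at h5
      obtain ⟨k, hk, h6⟩ := h5
      obtain ⟨j, hj, hjm⟩ := Finset.exists_max_image K (fun k => Y k η) ⟨k, hk⟩
      exact h1 ⟨j, hj, by rw [hP]; exact ⟨h6.le.trans (hjm k hk), hjm⟩⟩
    have h5 : ZR μ s (Rx R x1) η (0, x1) N ≤ Real.exp (V μ s η (0, x1) m) * Real.exp (3 * E) := by
      refine (hcut η).trans ?_
      have h6 : ∑ k ∈ K, W μ s η (0, x1) m k * Y k η ≤ ∑ k ∈ K, W μ s η (0, x1) m k * Real.exp (3 * E) :=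
        Finset.sum_le_sum fun k hk => mul_le_mul_of_nonneg_left (h4 k hk) (W_nonneg _ _ _ _)
      refine h6.trans ?_
      rw [← Finset.sum_mul]
      exact mul_le_mul_of_nonneg_right (WS_le_exp_V _ _ _ _) (Real.exp_pos _).le
    have h6 : Real.exp (V μ s η (0, x1) N) ≤ 2 * (Real.exp (V μ s η (0, x1) m) * Real.exp (3 * E)) := by linarith
    have h7 : Real.exp (4 * E) ≤ Real.exp (Real.log 2 + (c + 3 * E)) := by
      rw [Real.exp_add, Real.exp_log two_pos, Real.exp_add]
      refine (Real.exp_le_exp.2 hη').trans (h6.trans ?_)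
      refine mul_le_mul_of_nonneg_left ?_ (by norm_num)
      exact mul_le_mul_of_nonneg_right (Real.exp_le_exp.2 h3) (Real.exp_pos _).le
    have h8 := Real.exp_le_exp.1 h7
    linarith
  have hPbig : p1 - (2 * d + ε) ≤ (law μ).real {η | ∃ k ∈ K, P k η} := by
    have h1 := (measureReal_mono hbig (measure_ne_top (law μ) _)).trans
      ((measureReal_union_le _ _).trans (add_le_add le_rfl (measureReal_union_le _ _)))
    linarith
  -- independence
  have hUm : MeasurableSet {η | ∃ k ∈ K, P k η} := by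
    have e : {η | ∃ k ∈ K, P k η} = ⋃ k ∈ K, {η | P k η} := by
      ext η
      simp only [Set.mem_ofPred_eq, Set.mem_iUnion, exists_prop]
    rw [e]
    exact Finset.measurableSet_biUnion K hPm
  have hFm : MeasurableSet {η : Env | ZR μ s R η 0 N ≤ Real.exp (2 * E)} :=
    measurableSet_le (measurable_ZR R 0 N) measurable_const
  have hind : (law μ).real {η | ZR μ s R η 0 N ≤ Real.exp (2 * E) ∧ ∃ k ∈ K, P k η} =
      (law μ).real {η | ZR μ s R η 0 N ≤ Real.exp (2 * E)} * (law μ).real {η | ∃ k ∈ K, P k η} := by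
    have hFU : MeasurableSet {η | ZR μ s R η 0 N ≤ Real.exp (2 * E) ∧ ∃ k ∈ K, P k η} := hFm.inter hUm
    rw [real_eq_int (p := fun η => ZR μ s R η 0 N ≤ Real.exp (2 * E) ∧ ∃ k ∈ K, P k η) hFU,
      real_eq_int hFm, real_eq_int hUm]
    have e : ∀ η : Env, io (ZR μ s R η 0 N ≤ Real.exp (2 * E) ∧ ∃ k ∈ K, P k η) =
        io (ZR μ s R η 0 N ≤ Real.exp (2 * E)) * io (∃ k ∈ K, P k η) := by
      intro η
      by_cases h1 : ZR μ s R η 0 N ≤ Real.exp (2 * E)
      · by_cases h2 : ∃ k ∈ K, P k η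
        · rw [io_of h1, io_of h2, io_of ⟨h1, h2⟩, one_mul]
        · rw [io_not h2, io_not fun h => h2 h.2, mul_zero]
      · rw [io_not h1, io_not fun h => h1 h.1, zero_mul]
    simp only [e]
    refine integral_indep (A := R) (B := Rx R x1) (measurable_io hFm) (measurable_io hUm) ?_ ?_ hR
    · intro η η' h
      show io _ = io _
      have h1 : ZR μ s R η 0 N = ZR μ s R η' 0 N :=
        ZR_dep (μ := μ) (s := s) R 0 N fun p hp => h p hp.1
      rw [h1]
    · intro η η' h
      show io _ = io _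
      congr 1
      refine propext (exists_congr fun k => and_congr_right fun hk => ?_)
      exact hPd k hk η η' fun p hp => h p hp.1
  have hF2 : 1 / 2 ≤ (law μ).real {η | ZR μ s R η 0 N ≤ Real.exp (2 * E)} := by
    rw [← hN] at hb
    refine hb.trans (measureReal_mono (fun η hη => ?_) (measure_ne_top _ _))
    have h1 : V μ s η 0 N ≤ 2 * E := hη
    exact (ZR_le R η 0 N).trans (Real.exp_le_exp.2 h1)
  -- the bad events
  have hbad : {η | ZR μ s R η 0 N ≤ Real.exp (2 * E) ∧ ∃ k ∈ K, P k η} ⊆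
      {η | ZR μ s R η 0 N < Real.exp (V μ s η 0 N) / 2} ∪
      {η | ∃ k ∈ K, Fi K (fun k => k) (fun j => P j η) k ∧ W μ s η 0 m (x1 + k) < Real.exp (-c)} := by
    rintro η ⟨h1, h2⟩
    by_contra hc'
    simp only [Set.mem_union, Set.mem_ofPred_eq, not_or, not_lt, not_exists, not_and] at hc'
    obtain ⟨h3, h4⟩ := hc'
    -- the first index
    obtain ⟨k, hk, hFi⟩ : ∃ k ∈ K, Fi K (fun k => k) (fun j => P j η) k := by
      by_contra h5
      push Not at h5
      have h6 := sum_Fi K (r := fun k : ℤ => k) (fun _ _ h => h) (fun j => P j η)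
      rw [io_of h2, Finset.sum_eq_zero fun i hi => io_not (h5 i hi)] at h6
      exact zero_ne_one h6
    have h5 := h4 k hk hFi
    have h6 : P k η := hFi.1
    rw [hP] at h6
    have h7 := W_mul_exp_V_le (μ := μ) (s := s) η 0 m n (x1 + k)
    have e1 : (((0 : Pt).1 + (m : ℤ), (0 : Pt).2 + (x1 + k)) : Pt) = (((m : ℤ), x1 + k) : Pt) := by simp
    rw [e1, ← hN] at h7
    have h8 : Real.exp (3 * E) ≤ Real.exp (V μ s η ((m : ℤ), x1 + k) n) := by
      refine h6.1.trans ?_
      rw [hY]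
      exact ZR_le _ _ _ _
    have h9 : Real.exp (-c) * Real.exp (3 * E) ≤ 2 * Real.exp (2 * E) := by
      calc Real.exp (-c) * Real.exp (3 * E) ≤ W μ s η 0 m (x1 + k) * Real.exp (V μ s η ((m : ℤ), x1 + k) n) :=
            mul_le_mul h5 h8 (Real.exp_pos _).le (W_nonneg _ _ _ _)
        _ ≤ Real.exp (V μ s η 0 N) := h7
        _ ≤ 2 * ZR μ s R η 0 N := by linarith
        _ ≤ 2 * Real.exp (2 * E) := by linarith
    have h10 : Real.exp (-c + 3 * E) ≤ Real.exp (Real.log 2 + 2 * E) := by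
      rw [Real.exp_add, Real.exp_add, Real.exp_log two_pos]
      exact h9
    have h11 := Real.exp_le_exp.1 h10
    linarith
  have hB := choice_le (μ := μ) K (fun k => k) (fun _ _ h => h) (P := P)
    (Q := fun k η => W μ s η 0 m (x1 + k) < Real.exp (-c))
    (A := Rx R x1 ∩ rows m (m + n)) (B := rows 0 m)
    (by
      rw [Set.disjoint_left]
      intro p hp hp'
      have h1 := hp.2.1
      have h2 := hp'.2
      omega)
    hPm (fun k _ => measurableSet_lt (measurable_W _ _ _) measurable_const) hPd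
    (fun k _ η η' h => by
      have h2 : W μ s η 0 m (x1 + k) = W μ s η' 0 m (x1 + k) := by
        refine W_dep_rows (μ := μ) (s := s) 0 m (x1 + k) fun p hp => h p ?_
        simpa using hp
      rw [h2])
    (ε := ε) (fun k hk => by
      rw [hK, Finset.mem_filter, Finset.mem_Icc] at hk
      exact hc k hk.1.1 hk.1.2 hk.2) hε0
  have hfin := (measureReal_mono hbad (measure_ne_top (law μ) _)).trans (measureReal_union_le _ _)
  rw [hind] at hfin
  have hp0 : 0 ≤ p1 - (2 * d + ε) := by linarith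
  have h1 : 1 / 2 * (p1 - (2 * d + ε)) ≤
      (law μ).real {η | ZR μ s R η 0 N ≤ Real.exp (2 * E)} * (law μ).real {η | ∃ k ∈ K, P k η} :=
    mul_le_mul hF2 hPbig hp0 measureReal_nonneg
  linarith

end

end Pool.Agent.W_7d29a1_SL
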