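import Pool.Agent.W_7d29a1_SL.Defs

/-!
THEOREM (SL), MP_7d29a1_pr, proofs row 639: the corollaries. The unit grows at most like `(n / m) ^ (1 - c₁)` (SUB), the rate
function is superlinear at every scale (N2), crossing a width in a short time is expensive.
-/

namespace Pool.Agent.W_7d29a1_SL

open MeasureTheory ProbabilityTheory Filter Topology
open Pool.Agent.W_7d29a1_F Pool.Agent.W_7d29a1_G Pool.Agent.W_7d29a1_SR
open Pool.Agent.W_7d29a1_h4g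

variable {μ : Measure ℝ} [IsProbabilityMeasure μ] {c C : ℝ} {n₀ : ℕ}

private lemma EEp (n : ℕ) : 0 < EE μ n := lt_of_lt_of_le one_pos (one_le_EE n)

/-- The unit grows at least like a power. -/
theorem EE_pow (h : In μ c C n₀) : ∃ (a : ℝ) (n₁ : ℕ), 0 < a ∧ a ≤ 1 ∧ 1 ≤ n₁ ∧ ∀ m n : ℕ, n₁ ≤ m → m ≤ n →
    ((n : ℝ) / m) ^ a * EE μ m ≤ 2 * EE μ n := by
  obtain ⟨J, n₁, hJ⟩ := scale_a h 2
  obtain ⟨b, hb⟩ : ∃ b : ℕ, b = 2 ^ (J + 1) := ⟨_, rfl⟩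
  have hb1 : 1 < b := by
    rw [hb]
    exact Nat.one_lt_two_pow (by omega)
  have hbJ : 2 ^ J ≤ b := by
    rw [hb]
    exact Nat.pow_le_pow_right (by norm_num) (by omega)
  refine ⟨1 / ((J : ℝ) + 1), max n₁ 1, by positivity, ?_, le_max_right _ _, fun m n hm hmn => ?_⟩
  · rw [div_le_one (by positivity)]
    have : (0 : ℝ) ≤ J := Nat.cast_nonneg J
    linarith
  have hm1 : 1 ≤ m := (le_max_right _ _).trans hm
  have hmn1 : n₁ ≤ m := (le_max_left _ _).trans hm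
  have hm0 : (0 : ℝ) < m := by exact_mod_cast hm1
  have key : ∀ k n : ℕ, b ^ k * m ≤ n → (2 : ℝ) ^ k * EE μ m ≤ EE μ n := by
    intro k
    induction k with
    | zero =>
      intro n hn
      rw [pow_zero, one_mul] at hn
      rw [pow_zero, one_mul]
      exact EU_mono hn
    | succ k ih =>
      intro n hn
      have h1 := ih (b ^ k * m) le_rfl
      have h2 : 2 ^ J * (b ^ k * m) ≤ n := by
        calc 2 ^ J * (b ^ k * m) ≤ b * (b ^ k * m) := Nat.mul_le_mul_right _ hbJ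
          _ = b ^ (k + 1) * m := by ring
          _ ≤ n := hn
      have h3 : n₁ ≤ n := by
        have : b ^ (k + 1) * m ≥ 1 * m := Nat.mul_le_mul_right _ (Nat.one_le_pow _ _ (by omega))
        omega
      have h4 := hJ (b ^ k * m) n h3 h2
      rw [pow_succ]
      linarith
  obtain ⟨k, hk⟩ : ∃ k : ℕ, k = Nat.log b (n / m) := ⟨_, rfl⟩
  have hnm : n / m ≠ 0 := by
    have := Nat.div_pos hmn (by omega)
    omega
  have h1 : b ^ k ≤ n / m := by rw [hk]; exact Nat.pow_log_le_self b hnm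
  have h2 : n / m < b ^ (k + 1) := by rw [hk]; exact Nat.lt_pow_succ_log_self hb1 _
  have h3 : b ^ k * m ≤ n := by
    calc b ^ k * m ≤ n / m * m := Nat.mul_le_mul_right _ h1
      _ ≤ n := Nat.div_mul_le_self n m
  have h4 : n < b ^ (k + 1) * m := (Nat.div_lt_iff_lt_mul (by omega)).1 h2
  have h5 := key k n h3
  have h6 : (n : ℝ) / m ≤ (2 : ℝ) ^ (((J : ℝ) + 1) * ((k : ℝ) + 1)) := by
    rw [div_le_iff₀ hm0]
    have e1 : (2 : ℝ) ^ (((J : ℝ) + 1) * ((k : ℝ) + 1)) = ((b ^ (k + 1) : ℕ) : ℝ) := by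
      rw [hb]
      push_cast
      rw [← pow_mul, ← Real.rpow_natCast]
      push_cast
      rfl
    rw [e1]
    exact_mod_cast h4.le
  have h7 : ((n : ℝ) / m) ^ (1 / ((J : ℝ) + 1)) ≤ (2 : ℝ) ^ (k + 1) := by
    have h8 := Real.rpow_le_rpow (by positivity) h6 (show (0 : ℝ) ≤ 1 / ((J : ℝ) + 1) by positivity)
    rw [← Real.rpow_mul (by norm_num)] at h8
    have e2 : ((J : ℝ) + 1) * ((k : ℝ) + 1) * (1 / ((J : ℝ) + 1)) = ((k + 1 : ℕ) : ℝ) := by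
      have : (J : ℝ) + 1 ≠ 0 := by positivity
      push_cast
      field_simp
    rw [e2, Real.rpow_natCast] at h8
    exact h8
  have h9 := mul_le_mul_of_nonneg_right h7 (EEp (μ := μ) m).le
  rw [pow_succ] at h9
  linarith

/-- **(SUB)**: the unit grows at most like the power `1 - c₁`. -/
theorem EE_sub (h : In μ c C n₀) {C₁ c₁ : ℝ} {n₁ : ℕ} (hC₁ : 0 < C₁) (h0 : 0 < c₁) (h1 : c₁ < 1) (hS : SL μ C₁ c₁ n₁) :
    ∃ n₂ : ℕ, 1 ≤ n₂ ∧ ∀ m n : ℕ, n₂ ≤ m → m ≤ n → EE μ n ≤ 2 * C₁ * ((n : ℝ) / m) ^ (1 - c₁) * EE μ m := by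
  obtain ⟨n₃, hn₃⟩ := wd_lower h
  refine ⟨max (max n₁ n₃) 1, le_max_right _ _, fun m n hm hmn => ?_⟩
  have hm1 : 1 ≤ m := (le_max_right _ _).trans hm
  have hm0 : (0 : ℝ) < m := by exact_mod_cast hm1
  have hmS : n₁ ≤ m := (le_trans (le_max_left _ _) (le_max_left _ _)).trans hm
  have hm3 : n₃ ≤ m := (le_trans (le_max_right _ _) (le_max_left _ _)).trans hm
  have hwm : 0 < wd μ m := mul_pos (vA_pos h.em one_pos _) hm0
  have hwn : 0 < wd μ n := mul_pos (vA_pos h.em one_pos _) (by have : 1 ≤ n := hm1.trans hmn; exact_mod_cast this)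
  have h2 := hS m n hmS hmn
  have h3 := hn₃ m n hm3 hmn
  have h4 : wd μ n / wd μ m ≤ 2 * ((n : ℝ) / m) := by
    rw [div_le_iff₀ hwm, mul_div_assoc', div_mul_eq_mul_div, le_div_iff₀ hm0]
    linarith
  have hnm : 0 ≤ (n : ℝ) / m := by positivity
  have h5 := Real.rpow_le_rpow (div_pos hwn hwm).le h4 (show 0 ≤ 1 - c₁ by linarith)
  rw [Real.mul_rpow (by norm_num) hnm] at h5
  have h6 : (2 : ℝ) ^ (1 - c₁) ≤ 2 := by
    have := Real.rpow_le_rpow_of_exponent_le (x := 2) (by norm_num) (show 1 - c₁ ≤ 1 by linarith)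
    rwa [Real.rpow_one] at this
  have h7 : 0 ≤ ((n : ℝ) / m) ^ (1 - c₁) := Real.rpow_nonneg hnm _
  calc EE μ n ≤ C₁ * (wd μ n / wd μ m) ^ (1 - c₁) * EE μ m := h2
    _ ≤ C₁ * (2 * ((n : ℝ) / m) ^ (1 - c₁)) * EE μ m := by
        refine mul_le_mul_of_nonneg_right (mul_le_mul_of_nonneg_left ?_ hC₁.le) (EEp m).le
        exact h5.trans (mul_le_mul_of_nonneg_right h6 h7)
    _ = 2 * C₁ * ((n : ℝ) / m) ^ (1 - c₁) * EE μ m := by ring

/-- **(SUB)** in octaves. -/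
theorem gg_sub (h : In μ c C n₀) {C₁ c₁ : ℝ} {n₁ : ℕ} (hC₁ : 0 < C₁) (h0 : 0 < c₁) (h1 : c₁ < 1) (hS : SL μ C₁ c₁ n₁) :
    ∃ (B : ℝ) (x₀ : ℕ), ∀ x, x₀ ≤ x → ∀ j : ℕ, gg μ (x + j) ≤ gg μ x + (1 - c₁) * j + B := by
  obtain ⟨n₂, -, hn₂⟩ := EE_sub h hC₁ h0 h1 hS
  refine ⟨Real.logb 2 (2 * C₁), n₂, fun x hx j => ?_⟩
  have h2 : n₂ ≤ 2 ^ x := hx.trans Nat.lt_two_pow_self.le
  have h3 := hn₂ (2 ^ x) (2 ^ (x + j)) h2 (Nat.pow_le_pow_right (by norm_num) (by omega))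
  have e1 : ((2 ^ (x + j) : ℕ) : ℝ) / ((2 ^ x : ℕ) : ℝ) = 2 ^ j := by
    push_cast
    rw [pow_add]
    field_simp
  rw [e1] at h3
  have e2 : ((2 : ℝ) ^ j) ^ (1 - c₁) = (2 : ℝ) ^ ((1 - c₁) * j) := by
    rw [← Real.rpow_natCast, ← Real.rpow_mul (by norm_num), mul_comm]
  rw [e2] at h3
  unfold gg
  have hE1 := EEp (μ := μ) (2 ^ x)
  have hE2 := EEp (μ := μ) (2 ^ (x + j))
  have h4 := Real.logb_le_logb_of_le (b := 2) (by norm_num) hE2 h3
  rw [Real.logb_mul (by positivity) hE1.ne', Real.logb_mul (by positivity) (by positivity), Real.logb_rpow (by norm_num)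
    (by norm_num)] at h4
  linarith

/-- The unit is at most a power of the width. -/
theorem EE_le_wd (h : In μ c C n₀) {C₁ c₁ : ℝ} {n₁ : ℕ} (hC₁ : 0 < C₁) (hS : SL μ C₁ c₁ n₁) :
    ∃ (B : ℝ) (n₂ : ℕ), 0 < B ∧ ∀ n, n₂ ≤ n → EE μ n ≤ B * wd μ n ^ (1 - c₁) := by
  obtain ⟨m, hm⟩ : ∃ m : ℕ, m = max n₁ 1 := ⟨_, rfl⟩
  have hm1 : 1 ≤ m := by omega
  have hm0 : (0 : ℝ) < m := by exact_mod_cast hm1
  have hwm : 0 < wd μ m := mul_pos (vA_pos h.em one_pos _) hm0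
  have hp : 0 < wd μ m ^ (1 - c₁) := Real.rpow_pos_of_pos hwm _
  refine ⟨C₁ * EE μ m / wd μ m ^ (1 - c₁), m, by have := EEp (μ := μ) m; positivity, fun n hn => ?_⟩
  have h1 := hS m n (by omega) hn
  have hwn : 0 ≤ wd μ n := mul_nonneg (vA_nonneg h.em zero_le_one _) (Nat.cast_nonneg _)
  rw [Real.div_rpow hwn hwm.le] at h1
  refine h1.trans (le_of_eq ?_)
  field_simp

/-- The index of a slope: the largest scale whose cone contains `v`. -/
theorem idx (h : In μ c C n₀) (n₁ : ℕ) {v : ℝ} (h0 : 0 < v) (hv : v ≤ vA μ 1 n₁) :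
    ∃ m : ℕ, n₁ ≤ m ∧ v ≤ vA μ 1 m ∧ ∀ n, m < n → vA μ 1 n < v := by
  classical
  obtain ⟨N, hN⟩ := eventually_atTop.1 ((vA_tendsto h.em h.nd (A := 1) zero_le_one).eventually_lt_const h0)
  have hex : ∃ k : ℕ, ∀ n, k ≤ n → vA μ 1 n < v := ⟨N, hN⟩
  obtain ⟨k, hk, hmin⟩ : ∃ k : ℕ, (∀ n, k ≤ n → vA μ 1 n < v) ∧ ∀ j < k, ¬ ∀ n, j ≤ n → vA μ 1 n < v :=
    ⟨Nat.find hex, Nat.find_spec hex, fun j hj => Nat.find_min hex hj⟩
  have hkn : n₁ < k := by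
    by_contra hcon
    exact absurd (hk n₁ (by omega)) (not_lt.2 hv)
  obtain ⟨m, hm⟩ : ∃ m : ℕ, k = m + 1 := ⟨k - 1, by omega⟩
  subst hm
  refine ⟨m, by omega, ?_, fun n hn => hk n hn⟩
  have h1 := hmin m (Nat.lt_succ_self m)
  push Not at h1
  obtain ⟨n, hn1, hn2⟩ := h1
  rcases Nat.eq_or_lt_of_le hn1 with h2 | h2
  · rwa [h2]
  · exact absurd (hk n h2) (not_lt.2 hn2)

/-- `J v / v` is nondecreasing. -/
theorem J_slope (hμ : Pool.Agent.W_7d29a1_h47.EM μ) {u v : ℝ} (hu : 0 < u) (huv : u ≤ v) (hv : v ≤ 1 / 2) :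
    J μ u * v ≤ J μ v * u := by
  have h1 := J_mul hμ (v := u) (t := v / u) hu.le ((one_le_div hu).2 huv) (by rw [div_mul_cancel₀ _ hu.ne']; exact hv)
  rw [div_mul_cancel₀ _ hu.ne', div_mul_eq_mul_div, div_le_iff₀ hu] at h1
  linarith

/-- **(N2)**: the rate function is superlinear, uniformly in the scale. -/
theorem superJ (h : In μ c C n₀) {C₁ c₁ : ℝ} {n₁ : ℕ} (hC₁ : 0 < C₁) (h0 : 0 < c₁) (h1 : c₁ < 1) (hS : SL μ C₁ c₁ n₁) :
    ∃ K a v₀ : ℝ, 0 < K ∧ 0 < a ∧ a ≤ 1 ∧ 0 < v₀ ∧ v₀ < 1 / 2 ∧ ∀ v R : ℝ, 0 < v → 1 ≤ R → R * v ≤ v₀ →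
      R ^ (1 + a) * J μ v ≤ K * J μ (R * v) := by
  obtain ⟨b, n₂, hb0, hb1, hn₂1, hpow⟩ := EE_pow h
  obtain ⟨n₃, hgr⟩ := wd_growth h
  obtain ⟨n₄, hlo⟩ := wd_lower h
  obtain ⟨n₅, hhalf⟩ := eventually_atTop.1 (vA_lt_half h.em h.nd (A := 1) zero_le_one)
  obtain ⟨ns, hns⟩ : ∃ ns : ℕ, ns = max (max n₁ n₂) (max (max n₃ n₄) (max n₅ 2)) := ⟨_, rfl⟩
  refine ⟨64 * max C₁ 1, b * c₁, vA μ 1 ns, by positivity, by positivity, by nlinarith, vA_pos h.em one_pos _,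
    hhalf ns (by omega), fun v R hv hR hRv => ?_⟩
  have hR0 : 0 < R := by linarith
  have hu : 0 < R * v := mul_pos hR0 hv
  have hvu : v ≤ R * v := by nlinarith
  obtain ⟨m, hm1, hm2, hm3⟩ := idx h ns hu hRv
  obtain ⟨m', hm'1, hm'2, hm'3⟩ := idx h ns hv (hvu.trans hRv)
  have hmm : m ≤ m' := by
    by_contra hcon
    exact absurd (hm'3 m (by omega)) (not_lt.2 (hvu.trans hm2))
  have hm0 : (0 : ℝ) < m := by
    have : 0 < m := by omega
    exact_mod_cast this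
  have hm'0 : (0 : ℝ) < m' := by
    have : 0 < m' := by omega
    exact_mod_cast this
  have hE := EEp (μ := μ) m
  have hE' := EEp (μ := μ) m'
  have hva := vA_pos (μ := μ) h.em one_pos m
  have hva' := vA_pos (μ := μ) h.em one_pos m'
  have hw : 0 < wd μ m := mul_pos hva hm0
  have hw' : 0 < wd μ m' := mul_pos hva' hm'0
  have eq1 := vA_eq' h.em zero_le_one (hhalf m (by omega))
  have eq2 := vA_eq' h.em zero_le_one (hhalf m' (by omega))
  have eq3 := vA_eq' h.em zero_le_one (hhalf (m + 1) (by omega))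
  rw [one_mul] at eq1 eq2 eq3
  have hva1 := vA_pos (μ := μ) h.em one_pos (m + 1)
  have hva'1 := vA_pos (μ := μ) h.em one_pos (m' + 1)
  -- (a) `J v / v ≤ E_m' / w_m'`
  have A1 : J μ v * wd μ m' ≤ EE μ m' * v := by
    have := J_slope h.em hv hm'2 (hhalf m' (by omega)).le
    unfold wd
    rw [← eq2]
    nlinarith
  -- (b) `E_m / w_m ≤ 4 J u / u`
  have A2 : EE μ m * (R * v) ≤ 4 * (J μ (R * v) * wd μ m) := by
    have h2 := J_slope h.em hva1 (hm3 (m + 1) (by omega)).le (hRv.trans (hhalf ns (by omega)).le)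
    have h3 : EE μ m ≤ EE μ (m + 1) := EU_mono (by omega)
    have h4 := hlo m (m + 1) (by omega) (by omega)
    have hw1 : 0 < wd μ (m + 1) := mul_pos hva1 (by positivity)
    -- `w_(m+1) ≤ 4 w_m`
    have h5 : wd μ (m + 1) ≤ 4 * wd μ m := by
      push_cast at h4
      have hm2' : (1 : ℝ) ≤ m := by
        have : 1 ≤ m := by omega
        exact_mod_cast this
      have : (m : ℝ) * wd μ (m + 1) ≤ m * (4 * wd μ m) := by nlinarith
      exact le_of_mul_le_mul_left this hm0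
    -- `E_(m+1) u ≤ J u w_(m+1)`
    have h6 : EE μ (m + 1) * (R * v) ≤ J μ (R * v) * wd μ (m + 1) := by
      unfold wd
      rw [← eq3]
      have := mul_le_mul_of_nonneg_left h2 (show (0 : ℝ) ≤ ((m + 1 : ℕ) : ℝ) by positivity)
      calc ((m + 1 : ℕ) : ℝ) * J μ (vA μ 1 (m + 1)) * (R * v) = ((m + 1 : ℕ) : ℝ) * (J μ (vA μ 1 (m + 1)) * (R * v)) := by ring
        _ ≤ ((m + 1 : ℕ) : ℝ) * (J μ (R * v) * vA μ 1 (m + 1)) := this
        _ = J μ (R * v) * (vA μ 1 (m + 1) * ((m + 1 : ℕ) : ℝ)) := by ring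
    have hJ : 0 ≤ J μ (R * v) := J_nonneg h.em (by rw [abs_of_pos hu]; exact hRv.trans (hhalf ns (by omega)).le)
    calc EE μ m * (R * v) ≤ EE μ (m + 1) * (R * v) := mul_le_mul_of_nonneg_right h3 hu.le
      _ ≤ J μ (R * v) * wd μ (m + 1) := h6
      _ ≤ J μ (R * v) * (4 * wd μ m) := mul_le_mul_of_nonneg_left h5 hJ
      _ = 4 * (J μ (R * v) * wd μ m) := by ring
  -- (c) `w_m' / w_m ≥ R ^ b / 16`
  obtain ⟨q, hq⟩ : ∃ q : ℝ, q = wd μ m' / wd μ m := ⟨_, rfl⟩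
  have hq0 : 0 < q := by rw [hq]; exact div_pos hw' hw
  have A3 : R ≤ 4 * ((m' : ℝ) / m) := by
    -- `w_m E_(m'+1) ≤ 2 E_m w_(m'+1)`, so `w_m ≤ 2 w_(m'+1)`
    have h2 := hgr m (m' + 1) (by omega) (by omega)
    have h3 : EE μ m ≤ EE μ (m' + 1) := EU_mono (by omega)
    have h4 : wd μ m * EE μ m ≤ 2 * EE μ m * wd μ (m' + 1) := (mul_le_mul_of_nonneg_left h3 hw.le).trans h2
    have h5 : wd μ m ≤ 2 * wd μ (m' + 1) := by
      have : EE μ m * wd μ m ≤ EE μ m * (2 * wd μ (m' + 1)) := by linarith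
      exact le_of_mul_le_mul_left this hE
    have h6 := hm'3 (m' + 1) (by omega)
    unfold wd at h5
    push_cast at h5
    have hm'1' : (1 : ℝ) ≤ m' := by
      have : 1 ≤ m' := by omega
      exact_mod_cast this
    -- `R v m ≤ 2 v (m' + 1)`
    have h7 : R * v * m ≤ 4 * m' * v := by
      calc R * v * m ≤ vA μ 1 m * m := mul_le_mul_of_nonneg_right hm2 hm0.le
        _ ≤ 2 * (vA μ 1 (m' + 1) * ((m' : ℝ) + 1)) := h5
        _ ≤ 2 * (v * ((m' : ℝ) + 1)) := by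
            have : vA μ 1 (m' + 1) * ((m' : ℝ) + 1) ≤ v * ((m' : ℝ) + 1) := mul_le_mul_of_nonneg_right h6.le (by positivity)
            linarith
        _ ≤ 4 * m' * v := by nlinarith
    rw [mul_div_assoc', le_div_iff₀ hm0]
    have h8 : v * (R * m) ≤ v * (4 * m') := by linarith
    exact le_of_mul_le_mul_left h8 hv
  have A4 : R ^ b ≤ 16 * q := by
    have h2 := hpow m m' (by omega) hmm
    have h3 := hgr m m' (by omega) hmm
    have h4 := Real.rpow_le_rpow hR0.le A3 hb0.le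
    rw [Real.mul_rpow (by norm_num) (by positivity)] at h4
    have h5 : (4 : ℝ) ^ b ≤ 4 := by
      have := Real.rpow_le_rpow_of_exponent_le (x := 4) (by norm_num) hb1
      rwa [Real.rpow_one] at this
    have h6 : 0 ≤ ((m' : ℝ) / m) ^ b := Real.rpow_nonneg (by positivity) _
    -- `E_m' ≤ 2 q E_m`
    have h7 : EE μ m' ≤ 2 * q * EE μ m := by
      rw [hq, mul_div_assoc', div_mul_eq_mul_div, le_div_iff₀ hw]
      linarith
    have h8 : ((m' : ℝ) / m) ^ b * EE μ m ≤ (4 * q) * EE μ m := by linarith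
    have h9 : ((m' : ℝ) / m) ^ b ≤ 4 * q := le_of_mul_le_mul_right h8 hE
    calc R ^ b ≤ (4 : ℝ) ^ b * ((m' : ℝ) / m) ^ b := h4
      _ ≤ 4 * ((m' : ℝ) / m) ^ b := mul_le_mul_of_nonneg_right h5 h6
      _ ≤ 16 * q := by linarith
  -- (d) the superlinearity
  have A5 : EE μ m' ≤ max C₁ 1 * q ^ (1 - c₁) * EE μ m := by
    have h2 := hS m m' (by omega) hmm
    rw [← hq] at h2
    refine h2.trans (mul_le_mul_of_nonneg_right (mul_le_mul_of_nonneg_right (le_max_left _ _) ?_) hE.le)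
    exact Real.rpow_nonneg hq0.le _
  have hC1 : 0 < max C₁ 1 := lt_of_lt_of_le one_pos (le_max_right _ _)
  have A6 : q ^ (1 - c₁) * q ^ c₁ = q := by
    rw [← Real.rpow_add hq0, sub_add_cancel, Real.rpow_one]
  have A7 : R ^ (b * c₁) ≤ 16 * q ^ c₁ := by
    rw [Real.rpow_mul hR0.le]
    have h2 := Real.rpow_le_rpow (Real.rpow_nonneg hR0.le _) A4 h0.le
    rw [Real.mul_rpow (by norm_num) hq0.le] at h2
    have h3 : (16 : ℝ) ^ c₁ ≤ 16 := by
      have := Real.rpow_le_rpow_of_exponent_le (x := 16) (by norm_num) h1.le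
      rwa [Real.rpow_one] at this
    exact h2.trans (mul_le_mul_of_nonneg_right h3 (Real.rpow_nonneg hq0.le _))
  -- the end: multiply everything with `w_m'`
  have hJv : 0 ≤ J μ v := J_nonneg h.em (by rw [abs_of_pos hv]; exact (hvu.trans hRv).trans (hhalf ns (by omega)).le)
  have hJu : 0 ≤ J μ (R * v) := J_nonneg h.em (by rw [abs_of_pos hu]; exact hRv.trans (hhalf ns (by omega)).le)
  have hqc : 0 ≤ q ^ (1 - c₁) := Real.rpow_nonneg hq0.le _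
  have e1 : R ^ (1 + b * c₁) = R * R ^ (b * c₁) := by rw [Real.rpow_add hR0, Real.rpow_one]
  have hwq : wd μ m' = q * wd μ m := by rw [hq, div_mul_cancel₀ _ hw.ne']
  have B1 : R ^ (1 + b * c₁) * J μ v * wd μ m' ≤ 64 * max C₁ 1 * J μ (R * v) * wd μ m' := by
    calc R ^ (1 + b * c₁) * J μ v * wd μ m' = R ^ (1 + b * c₁) * (J μ v * wd μ m') := by ring
      _ ≤ R ^ (1 + b * c₁) * (EE μ m' * v) := mul_le_mul_of_nonneg_left A1 (Real.rpow_nonneg hR0.le _)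
      _ ≤ R ^ (1 + b * c₁) * (max C₁ 1 * q ^ (1 - c₁) * EE μ m * v) :=
          mul_le_mul_of_nonneg_left (mul_le_mul_of_nonneg_right A5 hv.le) (Real.rpow_nonneg hR0.le _)
      _ = R ^ (b * c₁) * (max C₁ 1 * q ^ (1 - c₁) * (EE μ m * (R * v))) := by rw [e1]; ring
      _ ≤ R ^ (b * c₁) * (max C₁ 1 * q ^ (1 - c₁) * (4 * (J μ (R * v) * wd μ m))) := by
          refine mul_le_mul_of_nonneg_left (mul_le_mul_of_nonneg_left A2 (by positivity)) (Real.rpow_nonneg hR0.le _)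
      _ ≤ 16 * q ^ c₁ * (max C₁ 1 * q ^ (1 - c₁) * (4 * (J μ (R * v) * wd μ m))) :=
          mul_le_mul_of_nonneg_right A7 (by positivity)
      _ = 64 * max C₁ 1 * J μ (R * v) * ((q ^ (1 - c₁) * q ^ c₁) * wd μ m) := by ring
      _ = 64 * max C₁ 1 * J μ (R * v) * wd μ m' := by rw [A6, ← hwq]
  exact le_of_mul_le_mul_right B1 hw'

omit [IsProbabilityMeasure μ] in
/-- The rate function is at most `B v ^ (1 + a)` near `0`. -/
theorem J_le_pow {K a v₀ : ℝ} (ha : 0 < a) (hv₀ : 0 < v₀)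
    (hJ : ∀ v R : ℝ, 0 < v → 1 ≤ R → R * v ≤ v₀ → R ^ (1 + a) * J μ v ≤ K * J μ (R * v)) (h00 : J μ 0 = 0) :
    ∀ v, 0 ≤ v → v ≤ v₀ → J μ v ≤ K * J μ v₀ / v₀ ^ (1 + a) * v ^ (1 + a) := by
  intro v h0 h1
  rcases h0.eq_or_lt with h2 | h2
  · rw [← h2, h00, Real.zero_rpow (by linarith), mul_zero]
  have h3 := hJ v (v₀ / v) h2 ((one_le_div h2).2 h1) (by rw [div_mul_cancel₀ _ h2.ne'])
  rw [div_mul_cancel₀ _ h2.ne', Real.div_rpow hv₀.le h0, div_mul_eq_mul_div, div_le_iff₀ (Real.rpow_pos_of_pos h2 _)] at h3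
  have hp : 0 < v₀ ^ (1 + a) := Real.rpow_pos_of_pos hv₀ _
  rw [div_mul_eq_mul_div, le_div_iff₀ hp]
  linarith

/-- **CROSSING**: steep displacements are expensive compared with the slope of the cone. -/
theorem crossJ (h : In μ c C n₀) {K a v₀ : ℝ} (hK : 0 < K) (ha : 0 < a) (hv₀ : 0 < v₀) (hv₀1 : v₀ < 1 / 2)
    (hJ : ∀ v R : ℝ, 0 < v → 1 ≤ R → R * v ≤ v₀ → R ^ (1 + a) * J μ v ≤ K * J μ (R * v)) (Q : ℝ) :
    ∃ A v₁ : ℝ, 1 ≤ A ∧ 0 < v₁ ∧ ∀ v u : ℝ, 0 < v → v ≤ v₁ → A * v ≤ u → u ≤ 1 / 2 → Q * (J μ v * u) ≤ J μ u * v := by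
  obtain ⟨Q', hQ'⟩ : ∃ Q' : ℝ, Q' = max Q 1 := ⟨_, rfl⟩
  have hQ0 : 0 < Q' := by rw [hQ']; exact lt_of_lt_of_le one_pos (le_max_right _ _)
  obtain ⟨A, hA⟩ : ∃ A : ℝ, A = max 1 ((K * Q') ^ (1 / a)) := ⟨_, rfl⟩
  have hA1 : 1 ≤ A := by rw [hA]; exact le_max_left _ _
  have hA0 : 0 < A := by linarith
  have hAQ : K * Q' ≤ A ^ a := by
    have h1 : (K * Q') ^ (1 / a) ≤ A := by rw [hA]; exact le_max_right _ _
    have h2 := Real.rpow_le_rpow (Real.rpow_nonneg (by positivity) _) h1 ha.le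
    rwa [← Real.rpow_mul (by positivity), one_div_mul_cancel ha.ne', Real.rpow_one] at h2
  refine ⟨A, v₀ / A, hA1, by positivity, fun v u hv hv1 hu hu1 => ?_⟩
  rw [le_div_iff₀ hA0] at hv1
  -- the claim at `u' = min u v₀`
  have hmain : ∀ u', A * v ≤ u' → u' ≤ v₀ → Q' * (J μ v * u') ≤ J μ u' * v := by
    intro u' h1 h2
    obtain ⟨R, hR⟩ : ∃ R : ℝ, R = u' / v := ⟨_, rfl⟩
    have hRA : A ≤ R := by rw [hR, le_div_iff₀ hv]; exact h1
    have hRv : R * v = u' := by rw [hR, div_mul_cancel₀ _ hv.ne']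
    have hR1 : 1 ≤ R := hA1.trans hRA
    have hR0 : 0 < R := by linarith
    have h3 := hJ v R hv hR1 (by rw [hRv]; exact h2)
    rw [hRv, Real.rpow_add hR0, Real.rpow_one] at h3
    have h4 : K * Q' ≤ R ^ a := hAQ.trans (Real.rpow_le_rpow hA0.le hRA ha.le)
    have hJv : 0 ≤ J μ v := J_nonneg h.em (by rw [abs_of_pos hv]; nlinarith)
    have h5 : R * (K * Q') * J μ v ≤ K * J μ u' := (mul_le_mul_of_nonneg_right (mul_le_mul_of_nonneg_left h4 hR0.le) hJv).trans h3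
    have h6 : K * (R * Q' * J μ v) ≤ K * J μ u' := by linarith
    have h7 := le_of_mul_le_mul_left h6 hK
    calc Q' * (J μ v * u') = R * Q' * J μ v * v := by rw [← hRv]; ring
      _ ≤ J μ u' * v := mul_le_mul_of_nonneg_right h7 hv.le
  have hu0 : 0 < u := lt_of_lt_of_le (by positivity) hu
  have hJv : 0 ≤ J μ v := J_nonneg h.em (by rw [abs_of_pos hv]; nlinarith)
  have hQQ : Q * (J μ v * u) ≤ Q' * (J μ v * u) := by
    refine mul_le_mul_of_nonneg_right ?_ (mul_nonneg hJv hu0.le)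
    rw [hQ']
    exact le_max_left _ _
  refine hQQ.trans ?_
  rcases le_total u v₀ with h1 | h1
  · exact hmain u hu h1
  · have h2 := hmain v₀ (by linarith) le_rfl
    have h3 := J_slope h.em hv₀ h1 hu1
    -- `Q' J v v₀ ≤ J v₀ v` and `J v₀ u ≤ J u v₀`
    have h4 : v₀ * (Q' * (J μ v * u)) ≤ v₀ * (J μ u * v) := by
      calc v₀ * (Q' * (J μ v * u)) = (Q' * (J μ v * v₀)) * u := by ring
        _ ≤ (J μ v₀ * v) * u := mul_le_mul_of_nonneg_right h2 hu0.le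
        _ = (J μ v₀ * u) * v := by ring
        _ ≤ (J μ u * v₀) * v := mul_le_mul_of_nonneg_right h3 hv.le
        _ = v₀ * (J μ u * v) := by ring
    exact le_of_mul_le_mul_left h4 hv₀

/-- **CROSSING** in sites: to cross a width `z ≥ w_n` in the time `m ≤ δ n` costs at least `Q E_n z / w_n`. -/
theorem crossing (h : In μ c C n₀) {K a v₀ : ℝ} (hK : 0 < K) (ha : 0 < a) (hv₀ : 0 < v₀) (hv₀1 : v₀ < 1 / 2)
    (hJ : ∀ v R : ℝ, 0 < v → 1 ≤ R → R * v ≤ v₀ → R ^ (1 + a) * J μ v ≤ K * J μ (R * v)) (Q : ℝ) :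
    ∃ δ : ℝ, 0 < δ ∧ ∃ n₁ : ℕ, ∀ n, n₁ ≤ n → ∀ m : ℕ, 1 ≤ m → (m : ℝ) ≤ δ * n → ∀ z : ℝ, wd μ n ≤ z → z ≤ m / 2 →
      Q * (EE μ n * z) ≤ m * J μ (z / m) * wd μ n := by
  obtain ⟨A, v₁, hA, hv₁, hcr⟩ := crossJ h hK ha hv₀ hv₀1 hJ Q
  have hA0 : 0 < A := by linarith
  obtain ⟨n₂, hn₂⟩ := eventually_atTop.1 ((vA_tendsto h.em h.nd (A := 1) zero_le_one).eventually_lt_const hv₁)
  obtain ⟨n₃, hn₃⟩ := eventually_atTop.1 (vA_lt_half h.em h.nd (A := 1) zero_le_one)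
  refine ⟨1 / A, by positivity, max (max n₂ n₃) 1, fun n hn m hm hmn z hz hz2 => ?_⟩
  have hn1 : 1 ≤ n := (le_max_right _ _).trans hn
  have hn2 : n₂ ≤ n := (le_trans (le_max_left _ _) (le_max_left _ _)).trans hn
  have hn3 : n₃ ≤ n := (le_trans (le_max_right _ _) (le_max_left _ _)).trans hn
  have hn0 : (0 : ℝ) < n := by exact_mod_cast hn1
  have hm0 : (0 : ℝ) < m := by exact_mod_cast hm
  have hv := vA_pos (μ := μ) h.em one_pos n
  have eq1 := vA_eq' h.em zero_le_one (hn₃ n hn3)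
  rw [one_mul] at eq1
  have h1 : A * vA μ 1 n ≤ z / m := by
    rw [le_div_iff₀ hm0]
    have h2 : A * m ≤ n := by
      rw [one_div, inv_mul_eq_div, le_div_iff₀ hA0] at hmn
      linarith
    calc A * vA μ 1 n * m = vA μ 1 n * (A * m) := by ring
      _ ≤ vA μ 1 n * n := mul_le_mul_of_nonneg_left h2 hv.le
      _ ≤ z := hz
  have h2 : z / m ≤ 1 / 2 := by rw [div_le_iff₀ hm0]; linarith
  have h3 := hcr (vA μ 1 n) (z / m) hv (hn₂ n hn2).le h1 h2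
  have h4 := mul_le_mul_of_nonneg_left h3 (show (0 : ℝ) ≤ n * m by positivity)
  unfold wd
  calc Q * (EE μ n * z) = (n * m) * (Q * (J μ (vA μ 1 n) * (z / m))) := by
        rw [← eq1]
        field_simp
    _ ≤ (n * m) * (J μ (z / m) * vA μ 1 n) := h4
    _ = m * J μ (z / m) * (vA μ 1 n * n) := by ring

/-- The natural slope of the units is much larger at small scales. -/
theorem sl_ratio (h : In μ c C n₀) {C₁ c₁ : ℝ} {n₁ : ℕ} (hC₁ : 0 < C₁) (h0 : 0 < c₁) (_h1 : c₁ < 1) (hS : SL μ C₁ c₁ n₁)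
    (B : ℝ) : ∃ J₀ n₂ : ℕ, ∀ d m : ℕ, n₂ ≤ d → 2 ^ J₀ * d ≤ m → B * (EE μ m / wd μ m) ≤ EE μ d / wd μ d := by
  obtain ⟨a, n₂, ha, -, -, hpow⟩ := EE_pow h
  obtain ⟨n₃, hgr⟩ := wd_growth h
  obtain ⟨M, hM⟩ : ∃ M : ℝ, M = (max B 1 * C₁) ^ (1 / c₁) := ⟨_, rfl⟩
  have hB1 : 0 < max B 1 := lt_of_lt_of_le one_pos (le_max_right _ _)
  have hM0 : 0 < M := by rw [hM]; exact Real.rpow_pos_of_pos (by positivity) _
  have hMc : M ^ c₁ = max B 1 * C₁ := by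
    rw [hM, ← Real.rpow_mul (by positivity), one_div_mul_cancel h0.ne', Real.rpow_one]
  obtain ⟨J₀, hJ₀⟩ := pow_unbounded_of_one_lt (4 * M) (Real.one_lt_rpow (by norm_num : (1 : ℝ) < 2) ha)
  refine ⟨J₀, max (max n₁ n₂) (max n₃ 1), fun d m hd hm => ?_⟩
  have hd1 : 1 ≤ d := (le_trans (le_max_right _ _) (le_max_right _ _)).trans hd
  have hdn1 : n₁ ≤ d := (le_trans (le_max_left _ _) (le_max_left _ _)).trans hd
  have hdn2 : n₂ ≤ d := (le_trans (le_max_right _ _) (le_max_left _ _)).trans hd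
  have hdn3 : n₃ ≤ d := (le_trans (le_max_left _ _) (le_max_right _ _)).trans hd
  have h2J : 1 ≤ 2 ^ J₀ := Nat.one_le_two_pow
  have hdm : d ≤ m := by nlinarith
  have hd0 : (0 : ℝ) < d := by exact_mod_cast hd1
  have hm0 : (0 : ℝ) < m := by exact_mod_cast (show 0 < m by omega)
  have hwd : 0 < wd μ d := mul_pos (vA_pos h.em one_pos _) hd0
  have hwm : 0 < wd μ m := mul_pos (vA_pos h.em one_pos _) hm0
  have hEd : 0 < EE μ d := EEp d
  have hEm : 0 < EE μ m := EEp m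
  obtain ⟨q, hq⟩ : ∃ q : ℝ, q = wd μ m / wd μ d := ⟨_, rfl⟩
  have hq0 : 0 < q := by rw [hq]; positivity
  have hwq : wd μ m = q * wd μ d := by rw [hq, div_mul_cancel₀ _ hwd.ne']
  have h3 := hpow d m hdn2 hdm
  have h4 := hgr d m hdn3 hdm
  have h5 : ((m : ℝ) / d) ^ a ≤ 4 * q := by
    have h6 : (wd μ d * EE μ d) * ((m : ℝ) / d) ^ a ≤ (wd μ d * EE μ d) * (4 * q) := by
      calc (wd μ d * EE μ d) * ((m : ℝ) / d) ^ a = wd μ d * (((m : ℝ) / d) ^ a * EE μ d) := by ring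
        _ ≤ wd μ d * (2 * EE μ m) := mul_le_mul_of_nonneg_left h3 hwd.le
        _ = 2 * (wd μ d * EE μ m) := by ring
        _ ≤ 2 * (2 * EE μ d * wd μ m) := by linarith
        _ = (wd μ d * EE μ d) * (4 * q) := by rw [hwq]; ring
    exact le_of_mul_le_mul_left h6 (by positivity)
  have h7 : ((2 : ℝ) ^ a) ^ J₀ ≤ ((m : ℝ) / d) ^ a := by
    rw [← Real.rpow_natCast, ← Real.rpow_mul (by norm_num), mul_comm, Real.rpow_mul (by norm_num), Real.rpow_natCast]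
    refine Real.rpow_le_rpow (by positivity) ?_ ha.le
    rw [le_div_iff₀ hd0]
    exact_mod_cast hm
  have hMq : M ≤ q := by linarith
  have h8 : max B 1 * C₁ ≤ q ^ c₁ := by
    rw [← hMc]
    exact Real.rpow_le_rpow hM0.le hMq h0.le
  have h9 : q ^ (1 - c₁) * q ^ c₁ = q := by
    rw [← Real.rpow_add hq0, sub_add_cancel, Real.rpow_one]
  have h10 := hS d m hdn1 hdm
  rw [← hq] at h10
  have h11 : C₁ * (max B 1 * EE μ m) ≤ C₁ * (q * EE μ d) := by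
    calc C₁ * (max B 1 * EE μ m) = max B 1 * C₁ * EE μ m := by ring
      _ ≤ q ^ c₁ * EE μ m := mul_le_mul_of_nonneg_right h8 hEm.le
      _ ≤ q ^ c₁ * (C₁ * q ^ (1 - c₁) * EE μ d) := mul_le_mul_of_nonneg_left h10 (Real.rpow_nonneg hq0.le _)
      _ = C₁ * ((q ^ (1 - c₁) * q ^ c₁) * EE μ d) := by ring
      _ = C₁ * (q * EE μ d) := by rw [h9]
  have h12 : max B 1 * EE μ m ≤ q * EE μ d := le_of_mul_le_mul_left h11 hC₁
  have h13 : B * EE μ m ≤ q * EE μ d := (mul_le_mul_of_nonneg_right (le_max_left _ _) hEm.le).trans h12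
  rw [mul_div_assoc', div_le_div_iff₀ hwm hwd, hwq]
  calc B * EE μ m * wd μ d ≤ q * EE μ d * wd μ d := mul_le_mul_of_nonneg_right h13 hwd.le
    _ = EE μ d * (q * wd μ d) := by ring

end Pool.Agent.W_7d29a1_SL
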