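import Pool.Agent.W_7d29a1_SL.Main
import Pool.Agent.W_7d29a1_SL.Cor

/-!
THEOREM (SL), MP_7d29a1_pr: the corollaries of row 639 with no hypothesis but the frame `In`.
-/

namespace Pool.Agent.W_7d29a1_SL

open MeasureTheory ProbabilityTheory Filter Topology
open Pool.Agent.W_7d29a1_F Pool.Agent.W_7d29a1_G Pool.Agent.W_7d29a1_SR

variable {μ : Measure ℝ} [IsProbabilityMeasure μ] {c C : ℝ} {n₀ : ℕ}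

/-- **(N2)**: `J` is superlinear, uniformly in the scale. -/
theorem n2 (h : In μ c C n₀) : ∃ K a v₀ : ℝ, 0 < K ∧ 0 < a ∧ a ≤ 1 ∧ 0 < v₀ ∧ v₀ < 1 / 2 ∧
    ∀ v R : ℝ, 0 < v → 1 ≤ R → R * v ≤ v₀ → R ^ (1 + a) * J μ v ≤ K * J μ (R * v) := by
  obtain ⟨C₁, c₁, n₃, hC₁, h0, h1, hS⟩ := sl h
  exact superJ h hC₁ h0 h1 hS

/-- **(N2)** in the form of `W_7d29a1_X40.n2_all`. -/
theorem n2_uv (h : In μ c C n₀) : ∃ K a v₀ : ℝ, 0 ≤ K ∧ 0 < a ∧ a ≤ 1 ∧ 0 < v₀ ∧ v₀ ≤ 1 / 2 ∧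
    ∀ u v : ℝ, 0 < u → u ≤ v → v ≤ v₀ → J μ u ≤ K * (u / v) ^ (1 + a) * J μ v := by
  obtain ⟨K, a, v₀, hK, ha, ha1, hv₀, hv₀1, hJ⟩ := n2 h
  refine ⟨K, a, v₀, hK.le, ha, ha1, hv₀, hv₀1.le, fun u v hu huv hv => ?_⟩
  have hv0 : 0 < v := hu.trans_le huv
  have h1 := hJ u (v / u) hu ((one_le_div hu).2 huv) (by rw [div_mul_cancel₀ _ hu.ne']; exact hv)
  rw [div_mul_cancel₀ _ hu.ne'] at h1
  have h2 : (u / v) ^ (1 + a) * (v / u) ^ (1 + a) = 1 := by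
    rw [← Real.mul_rpow (by positivity) (by positivity), div_mul_div_cancel₀ hv0.ne', div_self hu.ne', Real.one_rpow]
  calc J μ u = (u / v) ^ (1 + a) * ((v / u) ^ (1 + a) * J μ u) := by rw [← mul_assoc, h2, one_mul]
    _ ≤ (u / v) ^ (1 + a) * (K * J μ v) := mul_le_mul_of_nonneg_left h1 (by positivity)
    _ = K * (u / v) ^ (1 + a) * J μ v := by ring

/-- `J v ≤ B v ^ (1 + a)` near `0`. -/
theorem n2_pow (h : In μ c C n₀) : ∃ B a v₀ : ℝ, 0 < a ∧ 0 < v₀ ∧ ∀ v, 0 ≤ v → v ≤ v₀ → J μ v ≤ B * v ^ (1 + a) := by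
  obtain ⟨K, a, v₀, -, ha, -, hv₀, -, hJ⟩ := n2 h
  exact ⟨_, a, v₀, ha, hv₀, J_le_pow ha hv₀ hJ (J_zero h.em)⟩

/-- Steep displacements are expensive. -/
theorem crossJ' (h : In μ c C n₀) (Q : ℝ) :
    ∃ A v₁ : ℝ, 1 ≤ A ∧ 0 < v₁ ∧ ∀ v u : ℝ, 0 < v → v ≤ v₁ → A * v ≤ u → u ≤ 1 / 2 → Q * (J μ v * u) ≤ J μ u * v := by
  obtain ⟨K, a, v₀, hK, ha, -, hv₀, hv₀1, hJ⟩ := n2 h
  exact crossJ h hK ha hv₀ hv₀1 hJ Q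

/-- Crossing a width in a short time is expensive. -/
theorem crossing' (h : In μ c C n₀) (Q : ℝ) :
    ∃ δ : ℝ, 0 < δ ∧ ∃ n₁ : ℕ, ∀ n, n₁ ≤ n → ∀ m : ℕ, 1 ≤ m → (m : ℝ) ≤ δ * n → ∀ z : ℝ, wd μ n ≤ z → z ≤ m / 2 →
      Q * (EE μ n * z) ≤ m * J μ (z / m) * wd μ n := by
  obtain ⟨K, a, v₀, hK, ha, -, hv₀, hv₀1, hJ⟩ := n2 h
  exact crossing h hK ha hv₀ hv₀1 hJ Q

/-- The unit is at most a power `< 1` of the width. -/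
theorem EE_le_wd' (h : In μ c C n₀) : ∃ (B c₁ : ℝ) (n₂ : ℕ), 0 < B ∧ 0 < c₁ ∧ c₁ < 1 ∧ ∀ n, n₂ ≤ n → EE μ n ≤ B * wd μ n ^ (1 - c₁) := by
  obtain ⟨C₁, c₁, n₃, hC₁, h0, h1, hS⟩ := sl h
  obtain ⟨B, n₂, hB, hn⟩ := EE_le_wd h hC₁ hS
  exact ⟨B, c₁, n₂, hB, h0, h1, hn⟩

end Pool.Agent.W_7d29a1_SL
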