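import Pool.Agent.W_7d29a1_SL.T1a

/-!
Luck from variance (MP_7d29a1_pr, scaling law), second part: the variance, partition functions, the polymer. (helper62)
-/

namespace Pool.Agent.W_7d29a1_SL

open MeasureTheory Set Filter Pool.Agent.W_7d29a1_F Pool.Agent.W_7d29a1_h42 Pool.Agent.W_7d29a1_h18

noncomputable section

section abs

variable {ν : Measure ℝ} [IsProbabilityMeasure ν] {M : ℝ}

lemma IT_zero {xm c2 : ℝ} (N : ℕ) : ∀ (g : Fin N → (Fin N → ℝ) → ℝ) (A : ℝ), GD ν xm 1 c2 N g → A + N ≤ M →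
    IT ν M N g A = 0 := by
  induction N with
  | zero => intro g A _ _; simp [IT]
  | succ N ih =>
    intro g A hg hA
    push_cast at hA
    have ha0 := am_nonneg hg
    have ha1 := am_le hg
    have ha2 : am ν g ^ 2 ≤ 1 := by nlinarith
    have hc : A + am ν g ^ 2 ≤ M := by
      have : (0 : ℝ) ≤ N := Nat.cast_nonneg N
      linarith
    simp only [IT]
    rw [if_pos hc]
    have h : ∀ x, IT ν M N (sg g x) (A + am ν g ^ 2) = 0 := fun x => ih _ _ (hg.sec x) (by linarith)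
    simp [h]

lemma sq_le_exp (x : ℝ) : x ^ 2 ≤ 2 * (Real.exp (1 * x) + Real.exp (-1 * x)) := by
  have h1 := Real.pow_div_factorial_le_exp |x| (abs_nonneg x) 2
  rw [sq_abs] at h1
  have h2 : ((2 : ℕ).factorial : ℝ) = 2 := by norm_num [Nat.factorial]
  rw [h2] at h1
  have h3 : Real.exp |x| ≤ Real.exp (1 * x) + Real.exp (-1 * x) := by
    rcases abs_cases x with ⟨h, _⟩ | ⟨h, _⟩ <;> rw [h]
    · rw [one_mul]
      linarith [Real.exp_pos (-1 * x)]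
    · rw [neg_one_mul]
      linarith [Real.exp_pos (1 * x)]
  linarith

lemma LG_sq_int (hEM : Pool.Agent.W_7d29a1_h47.EM ν) {N : ℕ} {h : (Fin N → ℝ) → ℝ} (hh : LG N h) :
    Integrable (fun x => h x ^ 2) (PN ν N) := by
  refine (((LG_exp_int hEM hh 1).add (LG_exp_int hEM hh (-1))).const_mul 2).mono'
    (hh.1.pow_const 2).aestronglyMeasurable (Eventually.of_forall fun x => ?_)
  rw [Real.norm_eq_abs, abs_of_nonneg (sq_nonneg _)]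
  exact sq_le_exp (h x)

/-- The variance is bounded by the energy. -/
theorem var_le_IS (hEM : Pool.Agent.W_7d29a1_h47.EM ν) {φ : ℝ → ℝ} (hφ0 : ∀ t, 0 ≤ φ t) (hφ1 : Integrable φ ν)
    (hφ2 : Integrable (fun t => φ t ^ 2) ν) {xm c2 : ℝ} {N : ℕ} {F : (Fin N → ℝ) → ℝ}
    {g : Fin N → (Fin N → ℝ) → ℝ} (hF : LG N F) (hg : GD ν xm 1 c2 N g) (hO : Osc ν φ N g F) :
    ∫ x, (F x - ∫ y, F y ∂(PN ν N)) ^ 2 ∂(PN ν N) ≤
      ((∫ t, φ t ∂ν) ^ 2 * ∫ t, φ t ^ 2 ∂ν) * IS ν (N : ℝ) N g 0 := by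
  have hν : FM ν := EM_FM hEM
  obtain ⟨b, hb⟩ : ∃ b, b = ∫ y, F y ∂(PN ν N) := ⟨_, rfl⟩
  rw [← hb]
  have hFb : LG N fun x => F x - b := by
    have := hF.add (LG.const N (-b))
    simpa [sub_eq_add_neg] using this
  have hsq : Integrable (fun x => (F x - b) ^ 2) (PN ν N) := LG_sq_int hEM hFb
  have h1 : ∀ n : ℕ, ∫ x, min ((F x - b) ^ 2) (n : ℝ) ∂(PN ν N) ≤
      ((∫ t, φ t ∂ν) ^ 2 * ∫ t, φ t ^ 2 ∂ν) * IS ν (N : ℝ) N g 0 := by
    intro n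
    have h2 := fluct (M := (N : ℝ)) hν hφ0 hφ1 hφ2 N F g 0 b n hF hg (Nat.cast_nonneg n) (Nat.cast_nonneg N) hO
    rw [IT_zero N g 0 hg (by simp), ← hb] at h2
    simpa using h2
  have h3 : Tendsto (fun n : ℕ => ∫ x, min ((F x - b) ^ 2) (n : ℝ) ∂(PN ν N)) atTop
      (nhds (∫ x, (F x - b) ^ 2 ∂(PN ν N))) := by
    refine tendsto_integral_of_dominated_convergence (fun x => (F x - b) ^ 2) (fun n => ?_) hsq (fun n => ?_)
      (Eventually.of_forall fun x => ?_)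
    · exact ((hFb.1.pow_const 2).min measurable_const).aestronglyMeasurable
    · refine Eventually.of_forall fun x => ?_
      rw [Real.norm_eq_abs, abs_of_nonneg (le_min (sq_nonneg _) (Nat.cast_nonneg n))]
      exact min_le_left _ _
    · obtain ⟨n0, hn0⟩ := exists_nat_ge ((F x - b) ^ 2)
      refine tendsto_atTop_of_eventually_const (i₀ := n0) fun n hn => ?_
      exact min_eq_left (hn0.trans (by exact_mod_cast hn))
  exact le_of_tendsto' h3 h1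

/-- **Luck from variance**, abstract form. -/
theorem t1_abs (hEM : Pool.Agent.W_7d29a1_h47.EM ν) {φ : ℝ → ℝ} (hφ0 : ∀ t, 0 ≤ φ t) (hφ1 : Integrable φ ν)
    (hφ2 : Integrable (fun t => φ t ^ 2) ν) {xm xp c2 : ℝ} (hx : xm < xp) (hq0 : 0 < ν.real (Ici xp))
    (hc2 : 0 < c2) :
    ∃ c : ℝ, 0 < c ∧ ∀ (N : ℕ) (F : (Fin N → ℝ) → ℝ) (g : Fin N → (Fin N → ℝ) → ℝ), LG N F → GD ν xm 1 c2 N g →
      Osc ν φ N g F → (∀ x y, F x + ∑ i, g i x * (y i - x i) ≤ F y) → ∀ θ : ℝ, 0 ≤ θ → θ ≤ 1 →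
      θ * ∫ x, F x ∂(PN ν N) + c * θ ^ 2 * ∫ x, (F x - ∫ y, F y ∂(PN ν N)) ^ 2 ∂(PN ν N) ≤
        Real.log (∫ x, Real.exp (θ * F x) ∂(PN ν N)) := by
  obtain ⟨m, hm⟩ : ∃ m, m = ν.real (Iic xm) := ⟨_, rfl⟩
  obtain ⟨q, hq⟩ : ∃ q, q = ν.real (Ici xp) := ⟨_, rfl⟩
  obtain ⟨ρ, hρ⟩ : ∃ ρ, ρ = m / q := ⟨_, rfl⟩
  have hq0' : 0 < q := by rw [hq]; exact hq0
  have hm0 : 0 ≤ m := by rw [hm]; exact measureReal_nonneg
  have hρ0 : 0 ≤ ρ := by rw [hρ]; positivity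
  obtain ⟨cp, hcp⟩ : ∃ cp, cp = (xp - xm) * c2 := ⟨_, rfl⟩
  have hcp0 : 0 < cp := by rw [hcp]; exact mul_pos (by linarith) hc2
  obtain ⟨Cq, hCq⟩ : ∃ Cq, Cq = m * (1 + ρ) := ⟨_, rfl⟩
  have hCq0 : 0 ≤ Cq := by rw [hCq]; positivity
  obtain ⟨κ, hκ⟩ : ∃ κ, κ = min (1 / 2) (cp / (2 * (Cq + 1))) := ⟨_, rfl⟩
  have hκ0 : 0 < κ := by rw [hκ]; exact lt_min (by norm_num) (by positivity)
  have hκ1 : κ ≤ 1 / 2 := by rw [hκ]; exact min_le_left _ _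
  have hκ2 : κ * Cq ≤ cp / 2 := by
    have h1 : κ ≤ cp / (2 * (Cq + 1)) := by rw [hκ]; exact min_le_right _ _
    rw [le_div_iff₀ (by positivity)] at h1
    nlinarith
  obtain ⟨Cv, hCv⟩ : ∃ Cv, Cv = (∫ t, φ t ∂ν) ^ 2 * ∫ t, φ t ^ 2 ∂ν := ⟨_, rfl⟩
  have hCv0 : 0 ≤ Cv := by
    rw [hCv]
    exact mul_nonneg (sq_nonneg _) (integral_nonneg fun t => sq_nonneg _)
  refine ⟨κ * cp / 2 / (Cv + 1), by positivity, fun N F g hF hg hO hconv θ hθ0 hθ1 => ?_⟩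
  have h1 := t1_key (M := (N : ℝ)) hEM hx hm hq hq0' hρ hc2.le hκ0.le hκ1 (by rw [← hCq, ← hcp]; exact hκ2)
    hθ0 hθ1 N F F g 0 hF hF hg (Nat.cast_nonneg N) hconv
  have h2 := var_le_IS hEM hφ0 hφ1 hφ2 hF hg hO
  rw [← hCv] at h2
  rw [← hcp] at h1
  obtain ⟨I, hI⟩ : ∃ I, I = IS ν (N : ℝ) N g 0 := ⟨_, rfl⟩
  obtain ⟨Vr, hVr⟩ : ∃ Vr, Vr = ∫ x, (F x - ∫ y, F y ∂(PN ν N)) ^ 2 ∂(PN ν N) := ⟨_, rfl⟩
  have hI0 : 0 ≤ I := by rw [hI]; exact IS_nonneg N _ _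
  rw [← hI, ← hVr] at h2
  rw [← hI] at h1
  rw [← hVr]
  refine le_trans ?_ h1
  have h3 : κ * cp / 2 / (Cv + 1) * θ ^ 2 * Vr ≤ κ * cp / 2 * θ ^ 2 * I := by
    have h4 : 0 ≤ κ * cp / 2 / (Cv + 1) * θ ^ 2 := by positivity
    have h5 : Vr ≤ (Cv + 1) * I := by nlinarith
    calc κ * cp / 2 / (Cv + 1) * θ ^ 2 * Vr ≤ κ * cp / 2 / (Cv + 1) * θ ^ 2 * ((Cv + 1) * I) :=
          mul_le_mul_of_nonneg_left h5 h4
      _ = κ * cp / 2 * θ ^ 2 * I := by field_simp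
  linarith

/-- Luck from variance for partition functions. -/
theorem t1_Zf (hEM : Pool.Agent.W_7d29a1_h47.EM ν) (hnd : Pool.Agent.W_7d29a1_h47.Nondeg ν) :
    ∃ c : ℝ, 0 < c ∧ ∀ (N : ℕ) (ι : Type) [Fintype ι] [Nonempty ι] (w : ι → ℝ)
      (T : ι → Finset (Fin N)) (c0 : ℝ), (∀ k, 0 < w k) → ∀ F : (Fin N → ℝ) → ℝ,
      (∀ x, F x = c0 + Real.log (Zf w T x)) → ∀ θ : ℝ, 0 ≤ θ → θ ≤ 1 →
      θ * ∫ x, F x ∂(PN ν N) + c * θ ^ 2 * ∫ x, (F x - ∫ y, F y ∂(PN ν N)) ^ 2 ∂(PN ν N) ≤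
        Real.log (∫ x, Real.exp (θ * F x) ∂(PN ν N)) := by
  obtain ⟨xm, xp, hx, h1, h2⟩ := Pool.Agent.W_7d29a1_h47.exists_gap hnd
  obtain ⟨c, hc, h⟩ := t1_abs (ν := ν) hEM (ph_nonneg (ν := ν)) (ph_int hEM) (ph_int2 hEM) hx h2 (ch_pos h1)
  refine ⟨c, hc, ?_⟩
  intro N ι _ _ w T c0 hw F hF θ hθ0 hθ1
  have hFe : F = fun x => c0 + Real.log (Zf w T x) := funext hF
  refine h N F (gf w T) ?_ (gf_GD hEM hw xm) ?_ ?_ θ hθ0 hθ1
  · rw [hFe]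
    exact (LG.const N c0).add (logZf_LG hw)
  · intro i x s s'
    rw [hF, hF, add_sub_add_left_eq_sub]
    exact logZf_Osc hw i x s s'
  · intro x y
    rw [hF, hF]
    have := logZf_conv (T := T) hw x y
    linarith

end abs

section env

variable {μ : Measure ℝ} [IsProbabilityMeasure μ]

/-- **Luck from variance** for partition functions of the environment. -/
theorem t1_env (hEM : Pool.Agent.W_7d29a1_h47.EM μ) (hnd : Pool.Agent.W_7d29a1_h47.Nondeg μ) :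
    ∃ c : ℝ, 0 < c ∧ ∀ (A : Set Pt) (Z : Env → ℝ) (c0 : ℝ), PFs A Z → (∃ η, Z η ≠ 0) →
      ∀ F : Env → ℝ, (∀ η, F η = c0 + Real.log (Z η)) → ∀ θ : ℝ, 0 ≤ θ → θ ≤ 1 →
      θ * ∫ η, F η ∂(law μ) + c * θ ^ 2 * ∫ η, (F η - ∫ ξ, F ξ ∂(law μ)) ^ 2 ∂(law μ) ≤
        Real.log (∫ η, Real.exp (θ * F η) ∂(law μ)) := by
  classical
  obtain ⟨c, hc, h⟩ := t1_Zf (ν := μ) hEM hnd
  refine ⟨c, hc, ?_⟩
  rintro A Z c0 ⟨ι, hι, w, T, hw, -, hZ⟩ ⟨η0, hη0⟩ F hF θ hθ0 hθ1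
  have hne : Nonempty ι := by
    by_contra hcon
    rw [not_nonempty_iff] at hcon
    exact hη0 (by rw [hZ]; simp)
  obtain ⟨S, hS⟩ : ∃ S : Finset Pt, S = Finset.univ.biUnion T := ⟨_, rfl⟩
  have hTS : ∀ k, T k ⊆ S := fun k => by
    rw [hS]
    exact Finset.subset_biUnion_of_mem T (Finset.mem_univ k)
  obtain ⟨T', hT'⟩ : ∃ T' : ι → Finset (Fin S.card), T' = fun k =>
      Finset.univ.filter fun i => ((S.equivFin.symm i : S) : Pt) ∈ T k := ⟨_, rfl⟩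
  have hsum : ∀ (η : Env) (k : ι), ∑ i ∈ T' k, prj S η i = ∑ p ∈ T k, η p := by
    intro η k
    rw [hT', Finset.sum_filter]
    have e1 : ∑ i : Fin S.card, (if ((S.equivFin.symm i : S) : Pt) ∈ T k then prj S η i else 0) =
        ∑ q : S, (if (q : Pt) ∈ T k then η q else 0) :=
      Equiv.sum_comp S.equivFin.symm fun q : S => if (q : Pt) ∈ T k then η q else 0
    rw [e1, Finset.sum_coe_sort S fun p => if p ∈ T k then η p else 0, ← Finset.sum_filter]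
    congr 1
    ext p
    rw [Finset.mem_filter]
    exact ⟨fun hp => hp.2, fun hp => ⟨hTS k hp, hp⟩⟩
  obtain ⟨F', hF'⟩ : ∃ F' : (Fin S.card → ℝ) → ℝ, F' = fun x => c0 + Real.log (Zf w T' x) := ⟨_, rfl⟩
  have hFF : ∀ η, F η = F' (prj S η) := by
    intro η
    rw [hF, hF', hZ]
    unfold Zf
    congr 2
    exact Finset.sum_congr rfl fun k _ => by rw [hsum]
  have hmp := prj_mp (μ := μ) S
  have hF'm : Measurable F' := by
    rw [hF']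
    exact (Real.measurable_log.comp Zf_meas).const_add c0
  have tr : ∀ G : (Fin S.card → ℝ) → ℝ, Measurable G →
      ∫ η, G (prj S η) ∂(law μ) = ∫ x, G x ∂(PN μ S.card) := by
    intro G hG
    rw [← hmp.map_eq]
    exact (integral_map hmp.measurable.aemeasurable hG.aestronglyMeasurable).symm
  have e1 : ∫ ξ, F ξ ∂(law μ) = ∫ x, F' x ∂(PN μ S.card) := by
    simp_rw [hFF]
    exact tr F' hF'm
  have e2 : ∫ η, (F η - ∫ ξ, F ξ ∂(law μ)) ^ 2 ∂(law μ) =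
      ∫ x, (F' x - ∫ y, F' y ∂(PN μ S.card)) ^ 2 ∂(PN μ S.card) := by
    rw [e1]
    simp_rw [hFF]
    exact tr (fun x => (F' x - ∫ y, F' y ∂(PN μ S.card)) ^ 2) ((hF'm.sub_const _).pow_const 2)
  have e3 : ∫ η, Real.exp (θ * F η) ∂(law μ) = ∫ x, Real.exp (θ * F' x) ∂(PN μ S.card) := by
    simp_rw [hFF]
    exact tr (fun x => Real.exp (θ * F' x)) (Real.measurable_exp.comp (hF'm.const_mul θ))
  rw [e2, e1, e3]
  exact h S.card ι w T' c0 hw F' (fun x => by rw [hF']) θ hθ0 hθ1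

/-- Luck from variance for the polymer: the free energy `V` and all point to point costs `X`. -/
theorem t1_XV (hEM : Pool.Agent.W_7d29a1_h47.EM μ) (hnd : Pool.Agent.W_7d29a1_h47.Nondeg μ) :
    ∃ c : ℝ, 0 < c ∧ ∀ (s : ℝ) (l : ℕ) (θ : ℝ), 0 ≤ θ → θ ≤ 1 →
      (θ * ∫ η, V μ s η 0 l ∂(law μ) +
          c * θ ^ 2 * ∫ η, (V μ s η 0 l - ∫ ξ, V μ s ξ 0 l ∂(law μ)) ^ 2 ∂(law μ) ≤
        Real.log (∫ η, Real.exp (θ * V μ s η 0 l) ∂(law μ))) ∧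
      ∀ y : ℤ, 0 ≤ y → y ≤ l → -θ * e μ s l y +
          c * θ ^ 2 * ∫ η, (X μ s η 0 l y - e μ s l y) ^ 2 ∂(law μ) ≤
        Real.log (∫ η, Real.exp (-θ * X μ s η 0 l y) ∂(law μ)) := by
  obtain ⟨c, hc, h⟩ := t1_env (μ := μ) hEM hnd
  refine ⟨c, hc, fun s l θ hθ0 hθ1 => ⟨?_, fun y hy0 hy1 => ?_⟩⟩
  · refine h (rows 0 l) (fun η => WS μ s η 0 l (Finset.Icc (0 : ℤ) l)) 0 ?_ ?_ (fun η => V μ s η 0 l) ?_ θ hθ0 hθ1
    · have := WS_PFs μ s (0 : Pt) l (Finset.Icc (0 : ℤ) l)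
      simpa using this
    · refine ⟨0, ne_of_gt ?_⟩
      unfold WS
      refine Finset.sum_pos (fun y hy => ?_) ⟨0, by simp⟩
      rw [Finset.mem_Icc] at hy
      exact W_pos _ _ hy.1 hy.2
    · intro η
      rw [zero_add]
      rfl
  · have hXe : ∀ η : Env, -X μ s η 0 l y = Real.log (W μ s η 0 l y) := fun η => by
      unfold X
      rw [neg_neg]
    have hint : ∫ ξ, -X μ s ξ 0 l y ∂(law μ) = -e μ s l y := by
      rw [integral_neg]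
      rfl
    have h1 := h (rows 0 l) (fun η => W μ s η 0 l y) 0 (by simpa using W_PFs μ s (0 : Pt) l y)
      ⟨0, (W_pos _ _ hy0 hy1).ne'⟩ (fun η => -X μ s η 0 l y) (fun η => by rw [zero_add, hXe]) θ hθ0 hθ1
    rw [hint] at h1
    have e1 : ∀ η : Env, (-X μ s η 0 l y - -e μ s l y) ^ 2 = (X μ s η 0 l y - e μ s l y) ^ 2 := fun η => by ring
    have e2 : ∀ η : Env, Real.exp (θ * -X μ s η 0 l y) = Real.exp (-θ * X μ s η 0 l y) := fun η => by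
      congr 1
      ring
    simp_rw [e1, e2] at h1
    have e3 : -θ * e μ s l y = θ * -e μ s l y := by ring
    rw [e3]
    exact h1

end env

end

end Pool.Agent.W_7d29a1_SL
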