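import Pool.Agent.W_7d29a1_SL.SepDet

/-!
THEOREM (SL), proofs row 639, Step 3: the reflection `(t, x) ↦ (t, t - x + c)`. (helper86)
-/

namespace Pool.Agent.W_7d29a1_SL

open MeasureTheory ProbabilityTheory Filter Topology
open Pool.Agent.W_7d29a1_F Pool.Agent.W_7d29a1_h95g Pool.Agent.W_7d29a1_SR

variable {μ : Measure ℝ} [IsProbabilityMeasure μ]

/-- The reflected environment. -/
def rho (c : ℤ) (η : Env) : Env := fun p => η (p.1, p.1 - p.2 + c)

theorem rho_rho (c : ℤ) (η : Env) : rho c (rho c η) = η := by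
  funext p
  unfold rho
  congr 1
  ext
  · rfl
  · show p.1 - (p.1 - p.2 + c) + c = p.2
    ring

theorem mp_rho (c : ℤ) : MeasurePreserving (rho c) (law μ) (law μ) := by
  refine mp_reindex (fun p : Pt => ((p.1, p.1 - p.2 + c) : Pt)) ?_
  intro p q h
  simp only [Prod.mk.injEq] at h
  ext
  · exact h.1
  · omega

theorem Zr_rho (R : Set Pt) (η : Env) (c t x : ℤ) (n : ℕ) (y : ℤ) :
    Zr {p | ((p.1, p.1 - p.2 + c) : Pt) ∈ R} (rho c η) (t, x) n y = Zr R η (t, t - x + c) n (n - y) := by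
  induction n generalizing y with
  | zero =>
    rw [Zr_zero, Zr_zero]
    by_cases h : y = 0
    · rw [if_pos h, if_pos (by rw [h]; simp)]
    · rw [if_neg h, if_neg (by push_cast; omega)]
  | succ n ih =>
    rw [Zr_succ, Zr_succ, ih y, ih (y - 1)]
    have e1 : (((n + 1 : ℕ) : ℤ) - y - 1) = (n : ℤ) - y := by push_cast; ring
    have e2 : ((n : ℤ) - (y - 1)) = ((n + 1 : ℕ) : ℤ) - y := by push_cast; ring
    have e3 : ((((t, x) : Pt).1 + ((n : ℤ) + 1)), (((t, x) : Pt).1 + ((n : ℤ) + 1)) - (((t, x) : Pt).2 + y) + c) =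
        ((((t, t - x + c) : Pt).1 + ((n : ℤ) + 1), ((t, t - x + c) : Pt).2 + (((n + 1 : ℕ) : ℤ) - y)) : Pt) := by
      ext
      · rfl
      · push_cast
        ring
    rw [e1, e2, add_comm (Zr R η (t, t - x + c) n (n - y))]
    congr 1
    by_cases hp : ((((t, t - x + c) : Pt).1 + ((n : ℤ) + 1), ((t, t - x + c) : Pt).2 + (((n + 1 : ℕ) : ℤ) - y)) : Pt) ∈ R
    · rw [Set.indicator_of_mem hp, Set.indicator_of_mem]
      · unfold rho
        rw [e3]
      · show _ ∈ R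
        rw [e3]
        exact hp
    · rw [Set.indicator_of_notMem hp, Set.indicator_of_notMem]
      intro h
      apply hp
      rw [← e3]
      exact h

theorem WR_rho (R : Set Pt) (η : Env) (c t x : ℤ) (n : ℕ) (y : ℤ) :
    WR μ 0 {p | ((p.1, p.1 - p.2 + c) : Pt) ∈ R} (rho c η) (t, x) n y = WR μ 0 R η (t, t - x + c) n (n - y) := by
  have e : ∀ z : ℤ, (0 : ℝ) * (z : ℝ) - n * lam μ 0 = -(n * lam μ 0) := fun z => by ring
  rw [WR_def', WR_def', Zr_rho, e, e]

theorem V_rho (η : Env) (c t x : ℤ) (n : ℕ) : V μ 0 (rho c η) (t, x) n = V μ 0 η (t, t - x + c) n := by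
  unfold V WS
  congr 1
  have h1 : Finset.Icc (0 : ℤ) n = (Finset.Icc (0 : ℤ) n).image fun y => (n : ℤ) - y := by
    ext y
    rw [Finset.mem_image]
    constructor
    · intro hy
      rw [Finset.mem_Icc] at hy
      exact ⟨(n : ℤ) - y, Finset.mem_Icc.2 (by omega), by ring⟩
    · rintro ⟨z, hz, rfl⟩
      rw [Finset.mem_Icc] at hz ⊢
      omega
  conv_rhs => rw [h1]
  rw [Finset.sum_image fun a _ b _ h => by simpa using h]
  refine Finset.sum_congr rfl fun y _ => ?_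
  have h2 := WR_rho (μ := μ) Set.univ η c t x n y
  exact h2

/-- The strip of a fixed site. -/
theorem cf_rho (r : ℝ) (η : Env) (c t x : ℤ) (n : ℕ) (hx : t - x + c = x) :
    cf μ r (rho c η) (t, x) n = cf μ r η (t, x) n := by
  unfold cf
  have h1 : Finset.Icc (0 : ℤ) n = (Finset.Icc (0 : ℤ) n).image fun y => (n : ℤ) - y := by
    ext y
    rw [Finset.mem_image]
    constructor
    · intro hy
      rw [Finset.mem_Icc] at hy
      exact ⟨(n : ℤ) - y, Finset.mem_Icc.2 (by omega), by ring⟩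
    · rintro ⟨z, hz, rfl⟩
      rw [Finset.mem_Icc] at hz ⊢
      omega
  conv_rhs => rw [h1]
  rw [Finset.sum_image fun a _ b _ h => by simpa using h]
  refine Finset.sum_congr rfl fun y _ => ?_
  have h2 := WR_rho (μ := μ) (St r ((t, x) : Pt)) η c t x n y
  rw [hx] at h2
  rw [← h2]
  congr 1
  ext p
  show |2 * ((p.2 : ℝ) - (x : ℝ)) - ((p.1 : ℝ) - (t : ℝ))| ≤ 2 * r ↔
    |2 * (((p.1 - p.2 + c : ℤ) : ℝ) - (x : ℝ)) - ((p.1 : ℝ) - (t : ℝ))| ≤ 2 * r
  have h3 : (c : ℝ) = 2 * x - t := by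
    have : c = 2 * x - t := by omega
    rw [this]
    push_cast
    ring
  have h4 : 2 * (((p.1 - p.2 + c : ℤ) : ℝ) - (x : ℝ)) - ((p.1 : ℝ) - (t : ℝ)) =
      -(2 * ((p.2 : ℝ) - (x : ℝ)) - ((p.1 : ℝ) - (t : ℝ))) := by
    push_cast
    rw [h3]
    ring
  rw [h4, abs_neg]

end Pool.Agent.W_7d29a1_SL
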