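import Pool.Agent.W_7d29a1_SL.SepPt
import Pool.Agent.W_7d29a1_SL.LuckSide

/-!
THEOREM (SL), proofs row 639, Step 3: given a lucky strip, the start `(0, 0)` is not better than `(0, L)`, with the exceptional
events listed. (helper86)
-/

namespace Pool.Agent.W_7d29a1_SL

open MeasureTheory ProbabilityTheory Filter Topology
open Pool.Agent.W_7d29a1_F Pool.Agent.W_7d29a1_G Pool.Agent.W_7d29a1_h95g Pool.Agent.W_7d29a1_SR

variable {μ : Measure ℝ} [IsProbabilityMeasure μ]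

/-- The sites of the strip. -/
def Tu (R : ℝ) (r τ : ℕ) (L : ℤ) : Set Pt :=
  {p | 2 * (r : ℤ) < p.1 ∧ p.1 ≤ 2 * (r : ℤ) + τ ∧ |2 * ((p.2 : ℝ) - ((r : ℝ) + L)) - ((p.1 : ℝ) - 2 * r)| ≤ 2 * R}

/-- The line `u = L - D`. -/
def ln (L D : ℤ) : ℤ → ℤ := fun t => t / 2 + (L - D)

theorem ln_mono (L D t : ℤ) : ln L D t ≤ ln L D (t + 1) := by
  unfold ln
  omega

theorem cf_eq_Tu (R : ℝ) (r τ : ℕ) (L : ℤ) (η : Env) :
    cf μ R η (2 * (r : ℤ), (r : ℤ) + L) τ = ∑ y ∈ Finset.Icc (0 : ℤ) τ, WR μ 0 (Tu R r τ L) η (2 * (r : ℤ), (r : ℤ) + L) τ y := by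
  unfold cf
  refine Finset.sum_congr rfl fun y _ => WR_congr' η _ τ y fun p hp1 hp2 => ?_
  simp only at hp1 hp2
  show |2 * ((p.2 : ℝ) - (((r : ℤ) + L : ℤ) : ℝ)) - ((p.1 : ℝ) - ((2 * (r : ℤ) : ℤ) : ℝ))| ≤ 2 * R ↔
    2 * (r : ℤ) < p.1 ∧ p.1 ≤ 2 * (r : ℤ) + τ ∧ |2 * ((p.2 : ℝ) - ((r : ℝ) + L)) - ((p.1 : ℝ) - 2 * r)| ≤ 2 * R
  push_cast
  exact ⟨fun h => ⟨hp1, hp2, h⟩, fun h => h.2.2⟩

theorem Tu_right {R : ℝ} {r τ : ℕ} {L D : ℤ} (hD : R < D) : ∀ p ∈ Tu R r τ L, ln L D p.1 < p.2 := by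
  intro p hp
  obtain ⟨_, _, h3⟩ := hp
  rw [abs_le] at h3
  unfold ln
  have h4 : (2 : ℝ) * ((p.1 / 2 : ℤ) : ℝ) ≤ p.1 := by
    have : 2 * (p.1 / 2) ≤ p.1 := by omega
    exact_mod_cast this
  have h5 : (((p.1 / 2 + (L - D) : ℤ)) : ℝ) < ((p.2 : ℤ) : ℝ) := by
    push_cast
    linarith [h3.1]
  exact_mod_cast h5

/-- An event of a function which does not depend on `T`. -/
theorem dep_lt {f g : Env → ℝ} {A : Set Pt} (hf : DependsOn f A) (hg : DependsOn g A) :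
    ∀ η η' : Env, (∀ p ∈ A, η p = η' p) → (η ∈ {η | f η < g η} ↔ η' ∈ {η | f η < g η}) := by
  intro η η' h
  rw [Set.mem_ofPred_eq, Set.mem_ofPred_eq, hf h, hg h]

theorem left_n {R b b1 b2 b3 C3 C4 c5 th E Er Et K : ℝ} {m n r τ ρ : ℕ} {L D : ℤ}
    (hρ : r = 2 * ρ) (hτr : τ ≤ r) (hrm : 8 * r ≤ m) (hmn : m ≤ n) (hD0 : 0 ≤ D) (hDL : 4 * D ≤ L) (hDρ : 2 * D ≤ ρ)
    (hT1 : R < D)
    (hpos : ∀ η, 0 < WR μ 0 (Lw (ln L D)) η ((r : ℤ), (ρ : ℤ) + L - 2 * D) (2 * r) r)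
    (hk : ((r + τ : ℕ) : ℝ) ≤ Real.exp ((1 + C4) * Er)) (hC : 0 ≤ C4) (hb3 : 0 ≤ b3) (hEt : Et ≤ Er) (hEr : 0 ≤ Er)
    (hth : 3 * c5 * E ≤ th * ((L : ℝ) - 2 * D)) (hB : (1 + C4 + b1 + b2 + b3) * Er ≤ c5 * E) (hc5 : 0 < c5)
    (hc5' : c5 ≤ 1 / 2) (hE : Real.log 3 ≤ c5 * E) (hE0 : 0 ≤ E) (hK : (b + C3 + 1) * E ≤ K)
    {G : Set Env} (hG : G = {η | K ≤ Real.log (cf μ R η (2 * (r : ℤ), (r : ℤ) + L) τ)}) :
    (law μ).real (G ∩ {η | ¬ (V μ 0 η ((0 : ℤ), (0 : ℤ)) n + c5 * E ≤ V μ 0 η ((0 : ℤ), L) n)}) ≤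
      (law μ).real (G ∩ {η | V μ 0 η ((0 : ℤ), L) n <
        Real.log (∑ y ∈ Finset.Icc (0 : ℤ) τ, WR μ 0 (Tu R r τ L) η (2 * (r : ℤ), (r : ℤ) + L) τ y) +
          V μ 0 η ((m : ℤ), ((m / 2 : ℕ) : ℤ)) (n - m) - b * E}) +
      (law μ).real G * ((law μ).real {η | Real.exp (V μ 0 η ((m : ℤ), ((m / 2 : ℕ) : ℤ)) (n - m) + C3 * E) <
          Real.exp (V μ 0 η ((0 : ℤ), (0 : ℤ)) n)} +
        (law μ).real {η | Real.exp (b1 * Er - th * ((((ρ : ℤ) + L - 2 * D : ℤ) : ℝ) - 1 / 2 * r)) <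
          W μ 0 η 0 r ((ρ : ℤ) + L - 2 * D)} +
        (law μ).real {η | Real.exp (b1 * Er - th * (((3 * (ρ : ℤ) + L - 2 * D : ℤ) : ℝ) - 1 / 2 * (3 * r : ℕ))) <
          W μ 0 η 0 (3 * r) (3 * (ρ : ℤ) + L - 2 * D)} +
        (law μ).real {η | WR μ 0 (Lw (ln L D)) η ((r : ℤ), (ρ : ℤ) + L - 2 * D) (2 * r) r < Real.exp (-(b3 * Et))} +
        (law μ).real {η | W μ 0 η ((0 : ℤ), L) r ((ρ : ℤ) - 2 * D) < Real.exp (-(b2 * Er))}) := by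
  classical
  obtain ⟨S, hS⟩ : ∃ S : Set Pt, S = Tu R r τ L := ⟨_, rfl⟩
  obtain ⟨x, hx⟩ : ∃ x : ℝ, x = (L : ℝ) - 2 * D := ⟨_, rfl⟩
  obtain ⟨AV, hAV⟩ : ∃ AV : Env → ℝ, AV = fun η => ∑ y ∈ Finset.Icc (0 : ℤ) n, WR μ 0 Sᶜ η ((0 : ℤ), (0 : ℤ)) n y := ⟨_, rfl⟩
  obtain ⟨lG, hlG⟩ : ∃ lG : Env → ℝ, lG = fun η => Real.log (∑ y ∈ Finset.Icc (0 : ℤ) τ, WR μ 0 S η (2 * (r : ℤ), (r : ℤ) + L) τ y) :=
    ⟨_, rfl⟩
  obtain ⟨Vb, hVb⟩ : ∃ Vb : Env → ℝ, Vb = fun η => V μ 0 η ((m : ℤ), ((m / 2 : ℕ) : ℤ)) (n - m) := ⟨_, rfl⟩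
  obtain ⟨V0, hV0⟩ : ∃ V0 : Env → ℝ, V0 = fun η => V μ 0 η ((0 : ℤ), (0 : ℤ)) n := ⟨_, rfl⟩
  obtain ⟨VL, hVL⟩ : ∃ VL : Env → ℝ, VL = fun η => V μ 0 η ((0 : ℤ), L) n := ⟨_, rfl⟩
  obtain ⟨W0, hW0⟩ : ∃ W0 : Env → ℝ, W0 = fun η => W μ 0 η ((0 : ℤ), (0 : ℤ)) r ((ρ : ℤ) + L - 2 * D) := ⟨_, rfl⟩
  obtain ⟨W3, hW3⟩ : ∃ W3 : Env → ℝ, W3 = fun η => W μ 0 η ((0 : ℤ), (0 : ℤ)) (3 * r) (3 * (ρ : ℤ) + L - 2 * D) := ⟨_, rfl⟩
  obtain ⟨RG, hRG⟩ : ∃ RG : Env → ℝ, RG = fun η => WR μ 0 (Rg (ln L D) r) η ((0 : ℤ), (0 : ℤ)) (3 * r) (3 * (ρ : ℤ) + L - 2 * D) :=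
    ⟨_, rfl⟩
  obtain ⟨P, hP⟩ : ∃ P : Env → ℝ, P = fun η => WR μ 0 (Lw (ln L D)) η ((r : ℤ), (ρ : ℤ) + L - 2 * D) (2 * r) r := ⟨_, rfl⟩
  obtain ⟨w, hw⟩ : ∃ w : Env → ℝ, w = fun η => W μ 0 η ((0 : ℤ), L) r ((ρ : ℤ) - 2 * D) := ⟨_, rfl⟩
  -- measurability
  have mAV : Measurable AV := by
    rw [hAV]; exact Finset.measurable_sum _ fun y _ => measurable_WR _ _ _ _
  have mVb : Measurable Vb := by rw [hVb]; exact measurable_V _ _
  have mV0 : Measurable V0 := by rw [hV0]; exact measurable_V _ _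
  have mVL : Measurable VL := by rw [hVL]; exact measurable_V _ _
  have mW0 : Measurable W0 := by rw [hW0]; exact measurable_W _ _ _
  have mRG : Measurable RG := by rw [hRG]; exact measurable_WR _ _ _ _
  have mP : Measurable P := by rw [hP]; exact measurable_WR _ _ _ _
  have mw : Measurable w := by rw [hw]; exact measurable_W _ _ _
  have mlG : Measurable lG := by
    rw [hlG]; exact Real.measurable_log.comp (Finset.measurable_sum _ fun y _ => measurable_WR _ _ _ _)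
  have hGl : G = {η | K ≤ lG η} := by
    rw [hG, hlG]
    ext η
    rw [Set.mem_ofPred_eq, Set.mem_ofPred_eq, cf_eq_Tu, hS]
  have mG : MeasurableSet G := by rw [hGl]; exact measurableSet_le measurable_const mlG
  -- the strip and the line
  have hTr := Tu_right (r := r) (τ := τ) (L := L) hT1
  have hline : ∀ t, ln L D t ≤ ln L D (t + 1) := ln_mono L D
  -- dependence
  have dG : ∀ η η' : Env, (∀ p ∈ S, η p = η' p) → (η ∈ G ↔ η' ∈ G) := by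
    intro η η' hh
    rw [hGl, Set.mem_ofPred_eq, Set.mem_ofPred_eq, hlG]
    have h1 : ∀ y : ℤ, WR μ 0 S η (2 * (r : ℤ), (r : ℤ) + L) τ y = WR μ 0 S η' (2 * (r : ℤ), (r : ℤ) + L) τ y := fun y =>
      WR_dep (μ := μ) (s := 0) S _ τ y fun p hp => hh p hp.2
    simp only [h1]
  have dAV : DependsOn AV Sᶜ := by
    intro η η' hh
    rw [hAV]
    exact Finset.sum_congr rfl fun y _ => WR_dep (μ := μ) (s := 0) Sᶜ _ n y fun p hp => hh p hp.2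
  have hSrow : ∀ p ∈ S, 2 * (r : ℤ) < p.1 ∧ p.1 ≤ 2 * (r : ℤ) + τ := fun p hp => by
    rw [hS] at hp
    exact ⟨hp.1, hp.2.1⟩
  have dVb : DependsOn Vb Sᶜ := by
    intro η η' hh
    rw [hVb]
    refine V_dep (μ := μ) (s := 0) _ _ fun p hp => hh p fun hpS => ?_
    have := hSrow p hpS
    have h2 := hp.1
    simp only at h2
    omega
  have dW0 : DependsOn W0 Sᶜ := by
    intro η η' hh
    rw [hW0]
    refine W_dep (μ := μ) (s := 0) _ _ _ fun p hp => hh p fun hpS => ?_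
    have := hSrow p hpS
    have h2 := hp.2.1
    simp only [zero_add] at h2
    omega
  have dRG : DependsOn RG Sᶜ := by
    intro η η' hh
    rw [hRG]
    refine WR_dep (μ := μ) (s := 0) _ _ _ _ fun p hp => hh p fun hpS => ?_
    have h1 := hSrow p hpS
    have h2 := hTr p (hS ▸ hpS)
    rcases hp.2 with h3 | h3
    · omega
    · omega
  have dP : DependsOn P Sᶜ := by
    intro η η' hh
    rw [hP]
    refine WR_dep (μ := μ) (s := 0) _ _ _ _ fun p hp => hh p fun hpS => ?_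
    have h2 := hTr p (hS ▸ hpS)
    have h3 : p.2 ≤ ln L D p.1 := hp.2
    omega
  have dw : DependsOn w Sᶜ := by
    intro η η' hh
    rw [hw]
    refine W_dep (μ := μ) (s := 0) _ _ _ fun p hp => hh p fun hpS => ?_
    have := hSrow p hpS
    have h2 := hp.2.1
    simp only [zero_add] at h2
    omega
  have dC : ∀ z : ℝ, DependsOn (fun _ : Env => z) Sᶜ := fun z η η' _ => rfl
  have hdisj : Disjoint S Sᶜ := disjoint_compl_right
  -- the bad events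
  obtain ⟨B1, hB1⟩ : ∃ B1 : Set Env, B1 = {η | Real.exp (Vb η + C3 * E) < AV η} := ⟨_, rfl⟩
  obtain ⟨B2, hB2⟩ : ∃ B2 : Set Env, B2 = {η | Real.exp (b1 * Er - th * x) < W0 η} := ⟨_, rfl⟩
  obtain ⟨B3, hB3⟩ : ∃ B3 : Set Env, B3 = {η | Real.exp (b1 * Er - th * x) < RG η} := ⟨_, rfl⟩
  obtain ⟨B4, hB4⟩ : ∃ B4 : Set Env, B4 = {η | P η < Real.exp (-(b3 * Et))} := ⟨_, rfl⟩
  obtain ⟨B5, hB5⟩ : ∃ B5 : Set Env, B5 = {η | w η < Real.exp (-(b2 * Er))} := ⟨_, rfl⟩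
  have i1 : (law μ).real (G ∩ B1) = (law μ).real G * (law μ).real B1 := by
    rw [hB1]
    refine real_inter_indep mG (measurableSet_lt ((mVb.add_const _).exp) mAV) dG (dep_lt ?_ dAV) hdisj
    intro η η' hh
    show Real.exp (Vb η + C3 * E) = Real.exp (Vb η' + C3 * E)
    rw [dVb hh]
  have i2 : (law μ).real (G ∩ B2) = (law μ).real G * (law μ).real B2 := by
    rw [hB2]
    exact real_inter_indep mG (measurableSet_lt measurable_const mW0) dG (dep_lt (dC _) dW0) hdisj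
  have i3 : (law μ).real (G ∩ B3) = (law μ).real G * (law μ).real B3 := by
    rw [hB3]
    exact real_inter_indep mG (measurableSet_lt measurable_const mRG) dG (dep_lt (dC _) dRG) hdisj
  have i4 : (law μ).real (G ∩ B4) = (law μ).real G * (law μ).real B4 := by
    rw [hB4]
    exact real_inter_indep mG (measurableSet_lt mP measurable_const) dG (dep_lt dP (dC _)) hdisj
  have i5 : (law μ).real (G ∩ B5) = (law μ).real G * (law μ).real B5 := by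
    rw [hB5]
    exact real_inter_indep mG (measurableSet_lt mw measurable_const) dG (dep_lt dw (dC _)) hdisj
  -- comparison of the probabilities
  have hx2 : (((ρ : ℤ) + L - 2 * D : ℤ) : ℝ) - 1 / 2 * r = x := by
    rw [hρ, hx]; push_cast; ring
  have hx3 : (((3 * (ρ : ℤ) + L - 2 * D : ℤ)) : ℝ) - 1 / 2 * (3 * r : ℕ) = x := by
    rw [hρ, hx]; push_cast; ring
  have p1 : (law μ).real B1 ≤ (law μ).real {η | Real.exp (V μ 0 η ((m : ℤ), ((m / 2 : ℕ) : ℤ)) (n - m) + C3 * E) <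
          Real.exp (V μ 0 η ((0 : ℤ), (0 : ℤ)) n)} := by
    refine measureReal_mono (fun η hη => ?_) (measure_ne_top _ _)
    rw [hB1, Set.mem_ofPred_eq] at hη
    rw [Set.mem_ofPred_eq]
    rw [hVb, hAV] at hη
    refine hη.trans_le ?_
    rw [exp_V]
    exact Finset.sum_le_sum fun y _ => WR_le_W _ _ _ _ _
  have p2 : (law μ).real B2 = (law μ).real {η | Real.exp (b1 * Er - th * ((((ρ : ℤ) + L - 2 * D : ℤ) : ℝ) - 1 / 2 * r)) <
          W μ 0 η 0 r ((ρ : ℤ) + L - 2 * D)} := by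
    rw [hB2, hx2, hW0]
    rfl
  have p3 : (law μ).real B3 ≤ (law μ).real {η | Real.exp (b1 * Er - th * (((3 * (ρ : ℤ) + L - 2 * D : ℤ) : ℝ) -
      1 / 2 * (3 * r : ℕ))) < W μ 0 η 0 (3 * r) (3 * (ρ : ℤ) + L - 2 * D)} := by
    rw [hx3]
    refine measureReal_mono (fun η hη => ?_) (measure_ne_top _ _)
    rw [hB3, Set.mem_ofPred_eq] at hη
    rw [Set.mem_ofPred_eq]
    rw [hRG] at hη
    exact hη.trans_le (WR_le_W _ _ _ _ _)
  have p4 : (law μ).real B4 = (law μ).real {η | WR μ 0 (Lw (ln L D)) η ((r : ℤ), (ρ : ℤ) + L - 2 * D) (2 * r) r <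
      Real.exp (-(b3 * Et))} := by
    rw [hB4, hP]
  have p5 : (law μ).real B5 = (law μ).real {η | W μ 0 η ((0 : ℤ), L) r ((ρ : ℤ) - 2 * D) < Real.exp (-(b2 * Er))} := by
    rw [hB5, hw]
  -- the inclusion
  obtain ⟨LS, hLS⟩ : ∃ LS : Set Env, LS = {η | VL η < lG η + Vb η - b * E} := ⟨_, rfl⟩
  have hLS' : {η | V μ 0 η ((0 : ℤ), L) n <
        Real.log (∑ y ∈ Finset.Icc (0 : ℤ) τ, WR μ 0 (Tu R r τ L) η (2 * (r : ℤ), (r : ℤ) + L) τ y) +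
          V μ 0 η ((m : ℤ), ((m / 2 : ℕ) : ℤ)) (n - m) - b * E} = LS := by
    rw [hLS, hVL, hlG, hVb, hS]
  have hsub : G ∩ {η | ¬ (V μ 0 η ((0 : ℤ), (0 : ℤ)) n + c5 * E ≤ V μ 0 η ((0 : ℤ), L) n)} ⊆
      (G ∩ LS) ∪ ((G ∩ B1) ∪ ((G ∩ B2) ∪ ((G ∩ B3) ∪ ((G ∩ B4) ∪ (G ∩ B5))))) := by
    rintro η ⟨hηG, hηV⟩
    by_contra hno
    apply hηV
    have hn : ∀ B : Set Env, (η ∈ G ∩ B → False) → η ∉ B := fun B hB hηB => hB ⟨hηG, hηB⟩
    have q0 : η ∉ LS := hn _ fun hh => hno (Or.inl hh)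
    have q1 : η ∉ B1 := hn _ fun hh => hno (Or.inr (Or.inl hh))
    have q2 : η ∉ B2 := hn _ fun hh => hno (Or.inr (Or.inr (Or.inl hh)))
    have q3 : η ∉ B3 := hn _ fun hh => hno (Or.inr (Or.inr (Or.inr (Or.inl hh))))
    have q4 : η ∉ B4 := hn _ fun hh => hno (Or.inr (Or.inr (Or.inr (Or.inr (Or.inl hh)))))
    have q5 : η ∉ B5 := hn _ fun hh => hno (Or.inr (Or.inr (Or.inr (Or.inr (Or.inr hh)))))
    rw [hLS, Set.mem_ofPred_eq, not_lt] at q0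
    rw [hB1, Set.mem_ofPred_eq, not_lt] at q1
    rw [hB2, Set.mem_ofPred_eq, not_lt] at q2
    rw [hB3, Set.mem_ofPred_eq, not_lt] at q3
    rw [hB4, Set.mem_ofPred_eq, not_lt] at q4
    rw [hB5, Set.mem_ofPred_eq, not_lt] at q5
    have hdet := sep_det (μ := μ) hline S η (L := L) (y1 := (ρ : ℤ) + L - 2 * D) (y2 := 3 * (ρ : ℤ) + L - 2 * D) (by omega)
      r (r + τ) (2 * r) n (by omega) (by omega) (by unfold ln; omega) (fun p hp => by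
        have h1 := hSrow p hp
        have h2 := hTr p (hS ▸ hp)
        push_cast
        omega) (by
        have e : (3 * (ρ : ℤ) + L - 2 * D) - ((ρ : ℤ) + L - 2 * D) = r := by rw [hρ]; push_cast; ring
        rw [e]
        exact hpos η) (by
        refine W_pos η _ ?_ ?_
        · omega
        · push_cast; omega)
    have e1 : (3 * (ρ : ℤ) + L - 2 * D) - ((ρ : ℤ) + L - 2 * D) = r := by rw [hρ]; push_cast; ring
    have e2 : (ρ : ℤ) + L - 2 * D - L = (ρ : ℤ) - 2 * D := by ring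
    have e3 : r + 2 * r = 3 * r := by ring
    rw [e1, e2, e3] at hdet
    have key := sep_num (EV0 := Real.exp (V μ 0 η ((0 : ℤ), (0 : ℤ)) n)) (EVL := Real.exp (V μ 0 η ((0 : ℤ), L) n))
      (AV := AV η) (W0 := W0 η) (RG := RG η) (P := P η) (w := w η) (V0 := V0 η) (VL := VL η) (Vb := Vb η) (lG := lG η)
      (E := E) (Er := Er) (Et := Et) (k0 := ((r + τ : ℕ) : ℝ)) (b := b) (b1 := b1) (b2 := b2) (b3 := b3) (C := C4) (C3 := C3)
      (c5 := c5) (th := th) (x := x) (by rw [hAV, hW0, hRG, hP, hw]; exact hdet) (by rw [hV0]) (by rw [hVL]) q4 q5 q2 q3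
      (by rw [hRG]; exact WR_nonneg _ _ _ _ _) q1 q0 (hK.trans (by rw [hGl] at hηG; exact hηG)) hk (Nat.cast_nonneg _) hC hb3
      hEt hEr (by rw [hx]; exact hth) hB hc5 hc5' hE hE0
    rw [hV0, hVL] at key
    exact key
  rw [hLS']
  refine (measureReal_mono hsub (measure_ne_top _ _)).trans ?_
  have u1 := measureReal_union_le (μ := law μ) (G ∩ LS) ((G ∩ B1) ∪ ((G ∩ B2) ∪ ((G ∩ B3) ∪ ((G ∩ B4) ∪ (G ∩ B5)))))
  have u2 := measureReal_union_le (μ := law μ) (G ∩ B1) ((G ∩ B2) ∪ ((G ∩ B3) ∪ ((G ∩ B4) ∪ (G ∩ B5))))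
  have u3 := measureReal_union_le (μ := law μ) (G ∩ B2) ((G ∩ B3) ∪ ((G ∩ B4) ∪ (G ∩ B5)))
  have u4 := measureReal_union_le (μ := law μ) (G ∩ B3) ((G ∩ B4) ∪ (G ∩ B5))
  have u5 := measureReal_union_le (μ := law μ) (G ∩ B4) (G ∩ B5)
  have hG0 : 0 ≤ (law μ).real G := measureReal_nonneg
  have v1 := mul_le_mul_of_nonneg_left p1 hG0
  have v3 := mul_le_mul_of_nonneg_left p3 hG0
  rw [← p2, ← p4, ← p5]
  rw [i1] at u2
  rw [i2] at u3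
  rw [i3] at u4
  rw [i4, i5] at u5
  linarith

end Pool.Agent.W_7d29a1_SL
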