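import Pool.Agent.W_7d29a1_SL.SepLeft
import Pool.Agent.W_7d29a1_SL.SepBad
import Pool.Agent.W_7d29a1_SL.Strip

/-!
THEOREM (SL), proofs row 639, Step 3: the start `(0, L)` beats both `(0, 0)` and `(0, 2 L)` with positive probability. (helper86)
-/

namespace Pool.Agent.W_7d29a1_SL

open MeasureTheory ProbabilityTheory Filter Topology
open Pool.Agent.W_7d29a1_F Pool.Agent.W_7d29a1_G Pool.Agent.W_7d29a1_L Pool.Agent.W_7d29a1_h95g Pool.Agent.W_7d29a1_SR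

variable {μ : Measure ℝ} [IsProbabilityMeasure μ] {c C : ℝ} {n₀ : ℕ}

/-- The oscillation event, summed over `n` (Markov). -/
theorem osc_sum (hEM : Pool.Agent.W_7d29a1_h47.EM μ) {C₂ C3 : ℝ} {n₁ : ℕ} (hC₂ : 0 < C₂) (hC3 : C3 = 16 * C₂)
    (hO : Osc μ c C₂ n₁) (hc : 0 ≤ c) {m N : ℕ} (hm : n₁ ≤ m) (hN : m ≤ N) (hw : 0 ≤ wd μ m) :
    ∑ n ∈ Finset.Ioc N (2 * N), (law μ).real {η | Real.exp (V μ 0 η ((m : ℤ), ((m / 2 : ℕ) : ℤ)) (n - m) + C3 * EE μ m) <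
      Real.exp (V μ 0 η ((0 : ℤ), (0 : ℤ)) n)} ≤ N / 16 := by
  have hE := EE_pos (μ := μ) m
  have h1 := hO m hm N hN 0 (by simpa using mul_nonneg hc hw)
  have h2 : ∀ n ∈ Finset.Ioc N (2 * N), (law μ).real {η | Real.exp (V μ 0 η ((m : ℤ), ((m / 2 : ℕ) : ℤ)) (n - m) + C3 * EE μ m) <
      Real.exp (V μ 0 η ((0 : ℤ), (0 : ℤ)) n)} * (C3 * EE μ m) ≤
      ∫ η, |V μ 0 η ((0 : ℤ), (0 : ℤ)) n - V μ 0 η ((m : ℤ), ((m / 2 : ℕ) : ℤ)) (n - m)| ∂(law μ) := by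
    intro n _
    have hI : Integrable (fun η => |V μ 0 η ((0 : ℤ), (0 : ℤ)) n - V μ 0 η ((m : ℤ), ((m / 2 : ℕ) : ℤ)) (n - m)|) (law μ) :=
      (((Sub_V (μ := μ) (s := 0) _ n).sub (Sub_V _ (n - m))).abs).integrable hEM
    have h3 := mul_meas_ge_le_integral_of_nonneg (μ := law μ)
      (f := fun η => |V μ 0 η ((0 : ℤ), (0 : ℤ)) n - V μ 0 η ((m : ℤ), ((m / 2 : ℕ) : ℤ)) (n - m)|)
      (ae_of_all _ fun η => abs_nonneg _) hI (C3 * EE μ m)
    have h4 : C3 * EE μ m * (law μ).real {η | C3 * EE μ m ≤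
        |V μ 0 η ((0 : ℤ), (0 : ℤ)) n - V μ 0 η ((m : ℤ), ((m / 2 : ℕ) : ℤ)) (n - m)|} ≤
        ∫ η, |V μ 0 η ((0 : ℤ), (0 : ℤ)) n - V μ 0 η ((m : ℤ), ((m / 2 : ℕ) : ℤ)) (n - m)| ∂(law μ) := by
      simpa [Measure.real] using h3
    have h5 : (law μ).real {η | Real.exp (V μ 0 η ((m : ℤ), ((m / 2 : ℕ) : ℤ)) (n - m) + C3 * EE μ m) <
        Real.exp (V μ 0 η ((0 : ℤ), (0 : ℤ)) n)} ≤ (law μ).real {η | C3 * EE μ m ≤
        |V μ 0 η ((0 : ℤ), (0 : ℤ)) n - V μ 0 η ((m : ℤ), ((m / 2 : ℕ) : ℤ)) (n - m)|} := by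
      refine measureReal_mono (fun η hη => ?_) (measure_ne_top _ _)
      rw [Set.mem_ofPred_eq] at hη ⊢
      rw [Real.exp_lt_exp] at hη
      exact le_trans (by linarith) (le_abs_self _)
    have h6 : 0 ≤ C3 * EE μ m := by rw [hC3]; positivity
    have h7 := mul_le_mul_of_nonneg_left h5 h6
    linarith
  have h3 := (Finset.sum_le_sum h2).trans h1
  rw [← Finset.sum_mul] at h3
  have h4 : 0 < C3 * EE μ m := by rw [hC3]; positivity
  have h5 : C₂ * EE μ m * N = N / 16 * (C3 * EE μ m) := by rw [hC3]; ring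
  rw [h5] at h3
  exact le_of_mul_le_mul_right h3 h4

/-- The reflected event has the same probability. -/
theorem refl_real {K κE R : ℝ} {n r τ : ℕ} {L : ℤ} {G : Set Env}
    (hG : G = {η | K ≤ Real.log (cf μ R η (2 * (r : ℤ), (r : ℤ) + L) τ)}) (hGm : MeasurableSet G) :
    (law μ).real (G ∩ {η | ¬ (V μ 0 η ((0 : ℤ), 2 * L) n + κE ≤ V μ 0 η ((0 : ℤ), L) n)}) =
      (law μ).real (G ∩ {η | ¬ (V μ 0 η ((0 : ℤ), (0 : ℤ)) n + κE ≤ V μ 0 η ((0 : ℤ), L) n)}) := by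
  have hm : MeasurableSet (G ∩ {η | ¬ (V μ 0 η ((0 : ℤ), (0 : ℤ)) n + κE ≤ V μ 0 η ((0 : ℤ), L) n)}) :=
    hGm.inter (measurableSet_le ((measurable_V _ _).add_const _) (measurable_V _ _)).compl
  have h1 := (mp_rho (μ := μ) (2 * L)).measureReal_preimage hm.nullMeasurableSet
  rw [← h1]
  congr 1
  ext η
  rw [Set.mem_preimage, Set.mem_inter_iff, Set.mem_inter_iff, Set.mem_ofPred_eq, Set.mem_ofPred_eq, hG, Set.mem_ofPred_eq,
    Set.mem_ofPred_eq, cf_rho R η (2 * L) (2 * (r : ℤ)) ((r : ℤ) + L) τ (by ring), V_rho, V_rho]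
  have e1 : (0 : ℤ) - 0 + 2 * L = 2 * L := by ring
  have e2 : (0 : ℤ) - L + 2 * L = L := by ring
  rw [e1, e2]

/-- **STEP 3.** -/
theorem sep_of (h : In μ c C n₀) {C₂ : ℝ} {nO : ℕ} (hC₂ : 0 < C₂) (hO : Osc μ c C₂ nO) :
    ∃ κ p : ℝ, 0 < κ ∧ 0 < p ∧ ∃ n₁ : ℕ, Sep μ c κ p n₁ := by
  have hc0 := h.c0
  have hc1 := h.c1
  have hC1 := h.C1
  have hC0 : 0 < C := lt_of_lt_of_le one_pos hC1
  obtain ⟨R₁, hR₁, hstrip⟩ := strip h
  obtain ⟨b1, hb1, nA, htilt⟩ := tilt_bd h (ε := 1 / 100) (by norm_num)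
  obtain ⟨R, C', hR, hC', nB, hvert⟩ := vert_bd h
  obtain ⟨nL, hluck⟩ := luck_side h
  obtain ⟨nW, hwg⟩ := wd_growth h
  obtain ⟨B, hB⟩ : ∃ B : ℝ, B = 16 * (R + R₁ + 1) / c := ⟨_, rfl⟩
  have hB0 : 0 < B := by rw [hB]; positivity
  obtain ⟨J3, nC, hJ3⟩ := scale_a h B
  obtain ⟨K3, hK3⟩ : ∃ K3 : ℕ, K3 = 2 ^ J3 := ⟨_, rfl⟩
  have hK31 : 1 ≤ K3 := hK3 ▸ Nat.one_le_two_pow
  obtain ⟨b2, hb2⟩ : ∃ b2 : ℝ, b2 = 100 * C := ⟨_, rfl⟩
  obtain ⟨b3, hb3⟩ : ∃ b3 : ℝ, b3 = 100 * ((4 * K3 : ℕ) * C') := ⟨_, rfl⟩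
  have hK3r : (0 : ℝ) < K3 := by exact_mod_cast hK31
  have hb3p : 0 < b3 := by rw [hb3]; push_cast; positivity
  obtain ⟨c5, hc5⟩ : ∃ c5 : ℝ, c5 = c ^ 2 / 384 := ⟨_, rfl⟩
  have hc5p : 0 < c5 := by rw [hc5]; positivity
  have hc5h : c5 ≤ 1 / 2 := by
    rw [hc5]
    have : c ^ 2 ≤ 1 := by nlinarith
    linarith
  obtain ⟨B0, hB0'⟩ : ∃ B0 : ℝ, B0 = (1 + C + b1 + b2 + b3) / c5 + 64 := ⟨_, rfl⟩
  obtain ⟨J0, nD, hJ0⟩ := scale_a h B0
  obtain ⟨Q, hQ⟩ : ∃ Q : ℕ, Q = 2 ^ (J0 + 3) * (2 * K3) := ⟨_, rfl⟩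
  have hQ1 : 1 ≤ Q := by
    rw [hQ]
    exact Nat.one_le_iff_ne_zero.2 (by positivity)
  have hQr : (0 : ℝ) < Q := by exact_mod_cast hQ1
  obtain ⟨b, hb⟩ : ∃ b : ℝ, b = 400 * C := ⟨_, rfl⟩
  obtain ⟨C3, hC3⟩ : ∃ C3 : ℝ, C3 = 16 * C₂ := ⟨_, rfl⟩
  obtain ⟨K', hK'⟩ : ∃ K' : ℝ, K' = (b + C3 + 1) * (4 * Q) := ⟨_, rfl⟩
  obtain ⟨p, hp, nE, hS⟩ := hstrip K'
  obtain ⟨nF, hwd⟩ := (tendsto_atTop.1 (wd_tendsto h) (40 / c)).exists_forall_of_atTop
  obtain ⟨nG, hEEr⟩ := (tendsto_atTop.1 h.tE 1).exists_forall_of_atTop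
  obtain ⟨nH, hEEm⟩ := (tendsto_atTop.1 h.tE (Real.log 3 / c5)).exists_forall_of_atTop
  obtain ⟨nI, hvA⟩ := eventually_atTop.1 (h.tv.eventually_le_const (show (0 : ℝ) < 1 by norm_num))
  -- the threshold for τ
  obtain ⟨M0, hM0⟩ : ∃ M0 : ℕ, M0 = nA + nB + nC + nE + nF + nG + nI + nW + n₀ + 1 := ⟨_, rfl⟩
  refine ⟨c5, p / 2, hc5p, by positivity, Q * M0 + nL + nD + nO + nH + nW + Q, fun m hm N hN L hL1 hL2 => ?_⟩
  obtain ⟨τ, hτ⟩ : ∃ τ : ℕ, τ = m / Q := ⟨_, rfl⟩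
  have hmQ : Q * M0 ≤ m := by omega
  have hτM : M0 ≤ τ := by
    rw [hτ]
    exact (Nat.le_div_iff_mul_le (by omega)).2 (by rw [mul_comm]; exact hmQ)
  have hτQ : Q * τ ≤ m := by
    rw [hτ]
    exact Nat.mul_div_le m Q
  have hτQ2 : m < Q * (τ + 1) := by
    rw [hτ]
    exact Nat.lt_mul_div_succ m (by omega)
  obtain ⟨ρ, hρ⟩ : ∃ ρ : ℕ, ρ = K3 * τ := ⟨_, rfl⟩
  obtain ⟨r, hr⟩ : ∃ r : ℕ, r = 2 * ρ := ⟨_, rfl⟩
  have hτρ : τ ≤ ρ := by
    rw [hρ]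
    exact Nat.le_mul_of_pos_left τ (by omega)
  have hτr : τ ≤ r := by omega
  have hQr2 : Q * τ = 2 ^ (J0 + 3) * r := by
    rw [hQ, hr, hρ]
    ring
  have hrm8 : 8 * r ≤ m := by
    have h1 : 8 * r ≤ 2 ^ (J0 + 3) * r := by
      refine Nat.mul_le_mul_right r ?_
      rw [pow_add]
      have : 1 ≤ 2 ^ J0 := Nat.one_le_two_pow
      omega
    omega
  have hrmJ : 2 ^ J0 * r ≤ m := by
    have h1 : 2 ^ J0 * r ≤ 2 ^ (J0 + 3) * r := Nat.mul_le_mul_right r (Nat.pow_le_pow_right (by norm_num) (by omega))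
    omega
  have hτ1 : 1 ≤ τ := by omega
  have hrm : r ≤ m := by omega
  have hEm := EE_pos (μ := μ) m
  have hErp := EE_pos (μ := μ) r
  have hEτp := EE_pos (μ := μ) τ
  have hmono := EE_mono (μ := μ)
  -- the scales
  have s1 : B * EE μ τ ≤ EE μ r := hJ3 τ r (by omega) (by
    rw [hr, hρ, ← hK3]
    have : 1 * (K3 * τ) ≤ 2 * (K3 * τ) := Nat.mul_le_mul_right _ (by norm_num)
    omega)
  have s2 : B0 * EE μ r ≤ EE μ m := hJ0 r m (by omega) hrmJ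
  have s3 : wd μ τ * EE μ r ≤ 2 * EE μ τ * wd μ r := hwg τ r (by omega) hτr
  have s4 : wd μ r * EE μ m ≤ 2 * EE μ r * wd μ m := hwg r m (by omega) hrm
  have s5 : EE μ m ≤ 4 * Q * EE μ τ := by
    have h1 := scale_b h hτ1 (show τ ≤ m by omega)
    have h2 : (m : ℝ) ≤ 2 * Q * τ := by
      have h3 : m ≤ 2 * Q * τ := by
        have h4 : Q * (τ + 1) ≤ 2 * Q * τ := by
          have : Q * 1 ≤ Q * τ := Nat.mul_le_mul_left Q hτ1
          calc Q * (τ + 1) = Q * τ + Q * 1 := by ring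
            _ ≤ Q * τ + Q * τ := by omega
            _ = 2 * Q * τ := by ring
        omega
      exact_mod_cast h3
    have hτr0 : (0 : ℝ) < τ := by exact_mod_cast hτ1
    have h3 : (τ : ℝ) * EE μ m ≤ τ * (4 * Q * EE μ τ) := by
      refine h1.trans ?_
      have h4 := mul_le_mul_of_nonneg_right h2 hEτp.le
      calc 2 * ((m : ℝ) * EE μ τ) ≤ 2 * (2 * Q * τ * EE μ τ) := by linarith
        _ = τ * (4 * Q * EE μ τ) := by ring
    exact le_of_mul_le_mul_left h3 hτr0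
  have hwτ : 0 < wd μ τ := lt_of_lt_of_le (by positivity) (hwd τ (by omega))
  have hwr40 : 40 ≤ c * wd μ r := by
    have := hwd r (by omega)
    rw [div_le_iff₀ hc0] at this
    linarith
  have hwr : 0 < wd μ r := by
    by_contra hh
    have : c * wd μ r ≤ 0 := mul_nonpos_of_nonneg_of_nonpos hc0.le (not_lt.1 hh)
    linarith
  have hwm : 0 < wd μ m := lt_of_lt_of_le (by positivity) (hwd m (by omega))
  have s6 : (R + R₁ + 1) * wd μ τ ≤ c * wd μ r / 8 := by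
    have h1 : wd μ τ * (B * EE μ τ) ≤ 2 * EE μ τ * wd μ r := (mul_le_mul_of_nonneg_left s1 hwτ.le).trans s3
    have h2 : (wd μ τ * B) * EE μ τ ≤ (2 * wd μ r) * EE μ τ := by linarith
    have h3 := le_of_mul_le_mul_right h2 hEτp
    rw [hB] at h3
    have h4 : (R + R₁ + 1) * wd μ τ = wd μ τ * (16 * (R + R₁ + 1) / c) * (c / 16) := by
      field_simp
    rw [h4]
    have h5 := mul_le_mul_of_nonneg_right h3 (show (0 : ℝ) ≤ c / 16 by positivity)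
    linarith
  have s7 : wd μ r ≤ wd μ m / 32 := by
    have h1 : 64 * EE μ r ≤ EE μ m := by
      refine le_trans (mul_le_mul_of_nonneg_right ?_ hErp.le) s2
      rw [hB0']
      have : 0 ≤ (1 + C + b1 + b2 + b3) / c5 := by
        have : 0 ≤ 1 + C + b1 + b2 + b3 := by rw [hb2]; linarith
        positivity
      linarith
    have h2 : wd μ r * (64 * EE μ r) ≤ 2 * EE μ r * wd μ m := (mul_le_mul_of_nonneg_left h1 hwr.le).trans s4
    have h3 : (wd μ r * 64) * EE μ r ≤ (2 * wd μ m) * EE μ r := by linarith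
    have h4 := le_of_mul_le_mul_right h3 hErp
    linarith
  obtain ⟨D, hD⟩ : ∃ D : ℤ, D = ⌊c * wd μ r / 4⌋ := ⟨_, rfl⟩
  have hD1 : (D : ℝ) ≤ c * wd μ r / 4 := by rw [hD]; exact Int.floor_le _
  have hD2 : c * wd μ r / 4 < D + 1 := by rw [hD]; exact Int.lt_floor_add_one _
  have hD0 : 0 ≤ D := by
    rw [hD]
    exact Int.floor_nonneg.2 (by positivity)
  have hRτ : 0 ≤ R * wd μ τ := mul_nonneg hR hwτ.le
  have hR₁τ : 0 < R₁ * wd μ τ := mul_pos (by linarith) hwτ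
  have hDa : R * wd μ τ + 3 + R₁ * wd μ τ ≤ D := by
    have : (R + R₁ + 1) * wd μ τ = R * wd μ τ + R₁ * wd μ τ + wd μ τ := by ring
    linarith
  have hDL : 4 * D ≤ L := by
    have h1 : (4 : ℝ) * D ≤ L := by
      have h2 : c * wd μ r ≤ c * wd μ m / 32 := by
        have := mul_le_mul_of_nonneg_left s7 hc0.le
        linarith
      linarith
    exact_mod_cast h1
  have hDρ : 2 * D ≤ ρ := by
    have h1 : (2 : ℝ) * D ≤ ρ := by
      have h2 : wd μ r ≤ r := by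
        unfold wd
        have h3 := hvA r (by omega)
        have h4 : (0 : ℝ) ≤ r := Nat.cast_nonneg r
        calc vA μ 1 r * r ≤ 1 * r := mul_le_mul_of_nonneg_right h3 h4
          _ = r := one_mul _
      have h5 : (r : ℝ) = 2 * ρ := by rw [hr]; push_cast; ring
      have h6 : c * wd μ r ≤ 1 * wd μ r := mul_le_mul_of_nonneg_right hc1 hwr.le
      linarith
    exact_mod_cast h1
  -- the vertical path
  have hq : (4 * K3) * τ = 2 * r := by rw [hr, hρ]; ring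
  have hq2 : ((2 * r : ℕ) : ℤ) / 2 = r := by push_cast; omega
  obtain ⟨hpos, hvb⟩ := hvert τ (by omega) (4 * K3) ((r : ℤ), (ρ : ℤ) + L - 2 * D) (Lw (ln L D)) (by
    intro q hq1 hq2' hq3
    simp only at hq1 hq2' hq3
    show q.2 ≤ ln L D q.1
    unfold ln
    rw [abs_le] at hq3
    have hf : (q.1 : ℝ) - 1 ≤ 2 * ((q.1 / 2 : ℤ) : ℝ) := by
      have : q.1 - 1 ≤ 2 * (q.1 / 2) := by omega
      exact_mod_cast this
    have h5 : ((r : ℤ) : ℝ) = 2 * ρ := by rw [hr]; push_cast; ring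
    have h6 := hq3.2
    push_cast at h6 h5
    have h7 : ((q.2 : ℤ) : ℝ) ≤ (((q.1 / 2 + (L - D) : ℤ)) : ℝ) := by
      push_cast
      linarith
    exact_mod_cast h7) (by omega)
  rw [hq, hq2] at hpos hvb
  -- the event G
  obtain ⟨G, hG⟩ : ∃ G : Set Env, G = {η | K' * EE μ τ ≤ Real.log (cf μ (R₁ * wd μ τ) η (2 * (r : ℤ), (r : ℤ) + L) τ)} := ⟨_, rfl⟩
  have hGm : MeasurableSet G := by
    rw [hG]
    refine measurableSet_le measurable_const (Real.measurable_log.comp ?_)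
    unfold cf
    exact Finset.measurable_sum _ fun y _ => measurable_WR _ _ _ _
  have hpG : p ≤ (law μ).real G := by
    rw [hG]
    exact hS τ (by omega) _
  have hKE : (b + C3 + 1) * EE μ m ≤ K' * EE μ τ := by
    rw [hK']
    have h1 : 0 ≤ b + C3 + 1 := by rw [hb, hC3]; positivity
    have h2 := mul_le_mul_of_nonneg_left s5 h1
    linarith
  have hwR1 : 1 ≤ R₁ * wd μ τ := by
    have h1 := hwd τ (by omega)
    have h2 : (1 : ℝ) ≤ 40 / c := by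
      rw [le_div_iff₀ hc0]
      linarith
    exact one_le_mul_of_one_le_of_one_le hR₁ (h2.trans h1)
  have hGpos : ∀ η ∈ G, 0 < ∑ y ∈ Finset.Icc (0 : ℤ) τ, WR μ 0 (Tu (R₁ * wd μ τ) r τ L) η (2 * (r : ℤ), (r : ℤ) + L) τ y := by
    intro η _
    rw [← cf_eq_Tu]
    exact cf_pos hwR1 η _ τ
  have hGdep : ∀ η η' : Env, (∀ q ∈ Tu (R₁ * wd μ τ) r τ L, η q = η' q) → (η ∈ G ↔ η' ∈ G) := by
    intro η η' hh
    rw [hG, Set.mem_ofPred_eq, Set.mem_ofPred_eq, cf_eq_Tu, cf_eq_Tu]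
    have h1 : ∀ y : ℤ, WR μ 0 (Tu (R₁ * wd μ τ) r τ L) η (2 * (r : ℤ), (r : ℤ) + L) τ y =
        WR μ 0 (Tu (R₁ * wd μ τ) r τ L) η' (2 * (r : ℤ), (r : ℤ) + L) τ y := fun y =>
      WR_dep (μ := μ) (s := 0) _ _ τ y fun q hq => hh q hq.2
    simp only [h1]
  -- the numbers
  obtain ⟨th, hth⟩ : ∃ th : ℝ, th = c * EE μ r / wd μ r := ⟨_, rfl⟩
  have hthx : 3 * c5 * EE μ m ≤ th * ((L : ℝ) - 2 * D) := by
    have h1 : c * wd μ m / 64 ≤ (L : ℝ) - 2 * D := by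
      have h2 : (4 : ℝ) * D ≤ L := by exact_mod_cast hDL
      linarith
    have h3 : 0 < th := by rw [hth]; positivity
    have h4 := mul_le_mul_of_nonneg_left h1 h3.le
    refine le_trans ?_ h4
    rw [hth, hc5, div_mul_eq_mul_div, le_div_iff₀ hwr]
    have h5 := mul_le_mul_of_nonneg_left s4 (show (0 : ℝ) ≤ c ^ 2 / 128 by positivity)
    calc 3 * (c ^ 2 / 384) * EE μ m * wd μ r = c ^ 2 / 128 * (wd μ r * EE μ m) := by ring
      _ ≤ c ^ 2 / 128 * (2 * EE μ r * wd μ m) := h5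
      _ = c * EE μ r * (c * wd μ m / 64) := by ring
  have hBB : (1 + C + b1 + b2 + b3) * EE μ r ≤ c5 * EE μ m := by
    have h1 : (1 + C + b1 + b2 + b3) / c5 * EE μ r ≤ EE μ m := by
      refine le_trans (mul_le_mul_of_nonneg_right ?_ hErp.le) s2
      rw [hB0']
      linarith
    have h2 := mul_le_mul_of_nonneg_left h1 hc5p.le
    have h3 : c5 * ((1 + C + b1 + b2 + b3) / c5 * EE μ r) = (1 + C + b1 + b2 + b3) * EE μ r := by
      field_simp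
    linarith
  have hlog3 : Real.log 3 ≤ c5 * EE μ m := by
    have := hEEm m (by omega)
    rw [div_le_iff₀ hc5p] at this
    linarith
  have hkexp : ((r + τ : ℕ) : ℝ) ≤ Real.exp ((1 + C) * EE μ r) := by
    have h1 : ((r + τ : ℕ) : ℝ) ≤ 2 * r := by
      have : r + τ ≤ 2 * r := by omega
      exact_mod_cast this
    have hr0 : (0 : ℝ) < r := by exact_mod_cast (show 0 < r by omega)
    refine h1.trans ?_
    rw [← Real.log_le_iff_le_exp (by positivity), Real.log_mul (by norm_num) hr0.ne']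
    have h2 := h.lg r (by omega)
    have h3 := hEEr r (by omega)
    have h4 : Real.log 2 ≤ 1 := by linarith [Real.log_two_lt_d9]
    linarith
  have hEττ : EE μ τ ≤ EE μ r := hmono hτr
  -- the left side, for each n
  have hleft : ∀ n ∈ Finset.Ioc N (2 * N),
      (law μ).real (G ∩ {η | ¬ (V μ 0 η ((0 : ℤ), (0 : ℤ)) n + c5 * EE μ m ≤ V μ 0 η ((0 : ℤ), L) n)}) ≤
      (law μ).real G * (1 / 20 + (law μ).real {η | Real.exp (V μ 0 η ((m : ℤ), ((m / 2 : ℕ) : ℤ)) (n - m) + C3 * EE μ m) <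
          Real.exp (V μ 0 η ((0 : ℤ), (0 : ℤ)) n)}) := by
    intro n hn
    rw [Finset.mem_Ioc] at hn
    have h1 := left_n (μ := μ) (R := R₁ * wd μ τ) (b := b) (b1 := b1) (b2 := b2) (b3 := b3) (C3 := C3) (C4 := C) (c5 := c5)
      (th := th) (E := EE μ m) (Er := EE μ r) (Et := EE μ τ) (K := K' * EE μ τ) (m := m) (n := n) (r := r) (τ := τ) (ρ := ρ)
      (L := L) (D := D) hr hτr hrm8 (by omega) hD0 hDL hDρ (by linarith) hpos hkexp hC0.le hb3p.le hEττ hErp.le hthx hBB hc5p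
      hc5h hlog3 hEm.le hKE hG
    have hSS : ∀ q ∈ Tu (R₁ * wd μ τ) r τ L, 2 * (r : ℤ) < q.1 ∧ q.1 ≤ 2 * (r : ℤ) + τ ∧
        |2 * ((q.2 : ℝ) - ((r : ℝ) + L)) - ((q.1 : ℝ) - 2 * r)| ≤ c * wd μ m / 4 := by
      intro q hq
      refine ⟨hq.1, hq.2.1, hq.2.2.trans ?_⟩
      have h3 : c * wd μ r ≤ c * wd μ m / 32 := by
        have := mul_le_mul_of_nonneg_left s7 hc0.le
        linarith
      have h4 : 0 < c * wd μ m := mul_pos hc0 hwm
      linarith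
    have hL0 : |(L : ℝ)| ≤ c * wd μ m / 8 := by
      rw [abs_of_nonneg]
      · exact hL2
      · exact le_trans (by positivity) hL1
    have h2 := hluck m (by omega) r τ L (Tu (R₁ * wd μ τ) r τ L) G hrm8 hτr hL0 hSS hGm hGdep hGpos b
      (by rw [hb]; linarith) n (by omega)
    have h3 : 4 * C / b = 1 / 100 := by
      rw [hb]
      field_simp
      norm_num
    rw [h3] at h2
    have h4 := htilt r (by omega) r (by omega) ((ρ : ℤ) + L - 2 * D)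
    have h5 := htilt r (by omega) (3 * r) (by omega) (3 * (ρ : ℤ) + L - 2 * D)
    rw [← hth] at h4 h5
    have h6 := hvb b3 hb3p
    have h7 : ((4 * K3 : ℕ) : ℝ) * C' / b3 = 1 / 100 := by
      rw [hb3]
      have : ((4 * K3 : ℕ) : ℝ) * C' ≠ 0 := by
        have : (0 : ℝ) < ((4 * K3 : ℕ) : ℝ) * C' := by push_cast; positivity
        exact this.ne'
      field_simp
    rw [h7] at h6
    have h8 : (law μ).real {η | W μ 0 η ((0 : ℤ), L) r ((ρ : ℤ) - 2 * D) < Real.exp (-(b2 * EE μ r))} ≤ 1 / 100 := by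
      have h9 := inn_bd h (r := r) (by omega) (k := r) (y := (ρ : ℤ) - 2 * D) (by omega) (by omega) (by rw [hr]; push_cast; omega) (by
        have e : (((ρ : ℤ) - 2 * D : ℤ) : ℝ) - r / 2 = -(2 * D) := by rw [hr]; push_cast; ring
        rw [e, abs_neg, abs_of_nonneg (by have : (0 : ℝ) ≤ D := by exact_mod_cast hD0
                                          positivity)]
        have e2 : c * vA μ 1 r * r = c * wd μ r := by unfold wd; ring
        rw [e2]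
        have := mul_pos hc0 hwr
        linarith) ((0 : ℤ), L) (b := b2) (by rw [hb2]; positivity)
      have h10 : C / b2 = 1 / 100 := by
        rw [hb2]
        field_simp
      rw [h10] at h9
      refine le_trans (measureReal_mono (fun η hη => ?_) (measure_ne_top _ _)) h9
      rw [Set.mem_ofPred_eq] at hη ⊢
      have hW : 0 < W μ 0 η ((0 : ℤ), L) r ((ρ : ℤ) - 2 * D) := W_pos η _ (by omega) (by rw [hr]; push_cast; omega)
      have h11 := Real.log_lt_log hW hη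
      rw [Real.log_exp] at h11
      unfold X
      linarith
    have hG0 : 0 ≤ (law μ).real G := measureReal_nonneg
    refine h1.trans ?_
    have h9 : (law μ).real G * ((law μ).real {η | Real.exp (V μ 0 η ((m : ℤ), ((m / 2 : ℕ) : ℤ)) (n - m) + C3 * EE μ m) <
          Real.exp (V μ 0 η ((0 : ℤ), (0 : ℤ)) n)} +
        (law μ).real {η | Real.exp (b1 * EE μ r - th * ((((ρ : ℤ) + L - 2 * D : ℤ) : ℝ) - 1 / 2 * r)) <
          W μ 0 η 0 r ((ρ : ℤ) + L - 2 * D)} +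
        (law μ).real {η | Real.exp (b1 * EE μ r - th * (((3 * (ρ : ℤ) + L - 2 * D : ℤ) : ℝ) - 1 / 2 * (3 * r : ℕ))) <
          W μ 0 η 0 (3 * r) (3 * (ρ : ℤ) + L - 2 * D)} +
        (law μ).real {η | WR μ 0 (Lw (ln L D)) η ((r : ℤ), (ρ : ℤ) + L - 2 * D) (2 * r) r < Real.exp (-(b3 * EE μ τ))} +
        (law μ).real {η | W μ 0 η ((0 : ℤ), L) r ((ρ : ℤ) - 2 * D) < Real.exp (-(b2 * EE μ r))}) ≤
        (law μ).real G * ((law μ).real {η | Real.exp (V μ 0 η ((m : ℤ), ((m / 2 : ℕ) : ℤ)) (n - m) + C3 * EE μ m) <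
          Real.exp (V μ 0 η ((0 : ℤ), (0 : ℤ)) n)} + 1 / 100 + 1 / 100 + 1 / 100 + 1 / 100) := by
      refine mul_le_mul_of_nonneg_left ?_ hG0
      linarith
    linarith
  -- both sides
  have hboth : ∀ n ∈ Finset.Ioc N (2 * N), (law μ).real G - 2 * ((law μ).real G * (1 / 20 +
      (law μ).real {η | Real.exp (V μ 0 η ((m : ℤ), ((m / 2 : ℕ) : ℤ)) (n - m) + C3 * EE μ m) <
          Real.exp (V μ 0 η ((0 : ℤ), (0 : ℤ)) n)})) ≤ (law μ).real {η |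
      V μ 0 η ((0 : ℤ), (0 : ℤ)) n + c5 * EE μ m ≤ V μ 0 η ((0 : ℤ), L) n ∧
      V μ 0 η ((0 : ℤ), 2 * L) n + c5 * EE μ m ≤ V μ 0 η ((0 : ℤ), L) n} := by
    intro n hn
    have h1 := hleft n hn
    have h2 := refl_real (μ := μ) (κE := c5 * EE μ m) (n := n) hG hGm
    obtain ⟨A1, hA1⟩ : ∃ A1 : Set Env, A1 = {η | ¬ (V μ 0 η ((0 : ℤ), (0 : ℤ)) n + c5 * EE μ m ≤ V μ 0 η ((0 : ℤ), L) n)} := ⟨_, rfl⟩
    obtain ⟨A2, hA2⟩ : ∃ A2 : Set Env, A2 = {η | ¬ (V μ 0 η ((0 : ℤ), 2 * L) n + c5 * EE μ m ≤ V μ 0 η ((0 : ℤ), L) n)} := ⟨_, rfl⟩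
    rw [← hA1] at h1 h2
    rw [← hA2] at h2
    have hsub : G ⊆ (G ∩ A1) ∪ ((G ∩ A2) ∪ {η |
      V μ 0 η ((0 : ℤ), (0 : ℤ)) n + c5 * EE μ m ≤ V μ 0 η ((0 : ℤ), L) n ∧
      V μ 0 η ((0 : ℤ), 2 * L) n + c5 * EE μ m ≤ V μ 0 η ((0 : ℤ), L) n}) := by
      intro η hη
      by_cases q1 : V μ 0 η ((0 : ℤ), (0 : ℤ)) n + c5 * EE μ m ≤ V μ 0 η ((0 : ℤ), L) n
      · by_cases q2 : V μ 0 η ((0 : ℤ), 2 * L) n + c5 * EE μ m ≤ V μ 0 η ((0 : ℤ), L) n
        · exact Or.inr (Or.inr ⟨q1, q2⟩)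
        · exact Or.inr (Or.inl ⟨hη, by rw [hA2]; exact q2⟩)
      · exact Or.inl ⟨hη, by rw [hA1]; exact q1⟩
    have h3 := (measureReal_mono hsub (measure_ne_top (law μ) _)).trans (measureReal_union_le _ _)
    have h4 := measureReal_union_le (μ := law μ) (G ∩ A2) {η |
      V μ 0 η ((0 : ℤ), (0 : ℤ)) n + c5 * EE μ m ≤ V μ 0 η ((0 : ℤ), L) n ∧
      V μ 0 η ((0 : ℤ), 2 * L) n + c5 * EE μ m ≤ V μ 0 η ((0 : ℤ), L) n}
    rw [h2] at h4
    linarith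
  refine le_trans ?_ (Finset.sum_le_sum hboth)
  have hsum := osc_sum (μ := μ) h.em hC₂ hC3 hO hc0.le (m := m) (N := N) (by omega) hN hwm.le
  have hG0 : 0 ≤ (law μ).real G := measureReal_nonneg
  have e1 : ∑ n ∈ Finset.Ioc N (2 * N), ((law μ).real G - 2 * ((law μ).real G * (1 / 20 +
      (law μ).real {η | Real.exp (V μ 0 η ((m : ℤ), ((m / 2 : ℕ) : ℤ)) (n - m) + C3 * EE μ m) <
          Real.exp (V μ 0 η ((0 : ℤ), (0 : ℤ)) n)}))) =
      (law μ).real G * (9 / 10 * N - 2 * ∑ n ∈ Finset.Ioc N (2 * N),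
        (law μ).real {η | Real.exp (V μ 0 η ((m : ℤ), ((m / 2 : ℕ) : ℤ)) (n - m) + C3 * EE μ m) <
          Real.exp (V μ 0 η ((0 : ℤ), (0 : ℤ)) n)}) := by
    have e2 : ∀ z : ℝ, (law μ).real G - 2 * ((law μ).real G * (1 / 20 + z)) =
        (law μ).real G * (9 / 10) - 2 * (law μ).real G * z := fun z => by ring
    simp only [e2]
    rw [Finset.sum_sub_distrib, Finset.sum_const, Nat.card_Ioc, nsmul_eq_mul, ← Finset.mul_sum]
    have e3 : ((2 * N - N : ℕ) : ℝ) = N := by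
      congr 1
      omega
    rw [e3]
    ring
  rw [e1]
  have hN0 : (0 : ℝ) ≤ N := Nat.cast_nonneg N
  have h5 : (3 / 4 : ℝ) * N ≤ 9 / 10 * N - 2 * ∑ n ∈ Finset.Ioc N (2 * N),
        (law μ).real {η | Real.exp (V μ 0 η ((m : ℤ), ((m / 2 : ℕ) : ℤ)) (n - m) + C3 * EE μ m) <
          Real.exp (V μ 0 η ((0 : ℤ), (0 : ℤ)) n)} := by
    linarith
  have h6 := mul_le_mul hpG h5 (by positivity) hG0
  refine le_trans ?_ h6
  have h7 : 0 ≤ p * N := mul_nonneg hp.le hN0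
  have h8 : p * (3 / 4 * (N : ℝ)) = 3 / 4 * (p * N) := by ring
  have h9 : p / 2 * (N : ℝ) = 1 / 2 * (p * N) := by ring
  rw [h8, h9]
  linarith

end Pool.Agent.W_7d29a1_SL
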