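import Pool.Agent.W_7d29a1_SL.Defs
import Pool.Agent.W_7d29a1_F.LuckA

/-!
THEOREM (SL), MP_7d29a1_pr, proofs row 639, STEP 4: from the oscillation (Step 1) and the separation (Step 3) to the superlinearity.
-/

namespace Pool.Agent.W_7d29a1_SL

open MeasureTheory ProbabilityTheory Filter Topology
open Pool.Agent.W_7d29a1_F Pool.Agent.W_7d29a1_G Pool.Agent.W_7d29a1_SR

variable {μ : Measure ℝ} [IsProbabilityMeasure μ] {c C : ℝ} {n₀ : ℕ}

private theorem V_int (hμ : Pool.Agent.W_7d29a1_h47.EM μ) (a : Pt) (n : ℕ) : Integrable (fun η => V μ 0 η a n) (law μ) :=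
  (Sub_V a n).integrable hμ

private theorem V_sub_int (hμ : Pool.Agent.W_7d29a1_h47.EM μ) (a b : Pt) (n k : ℕ) :
    Integrable (fun η => |V μ 0 η a n - V μ 0 η b k|) (law μ) :=
  ((V_int hμ a n).sub (V_int hμ b k)).abs

/-- The mean oscillation does not depend on the place. -/
theorem osc_shift (L x : ℤ) (n : ℕ) : ∫ η, |V μ 0 η ((0 : ℤ), x) n - V μ 0 η ((0 : ℤ), L + x) n| ∂(law μ) =
    ∫ η, |V μ 0 η ((0 : ℤ), (0 : ℤ)) n - V μ 0 η ((0 : ℤ), L) n| ∂(law μ) := by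
  have h := (mp_sh (μ := μ) ((0 : ℤ), x)).map_eq
  have hm : Measurable fun η : Env => |V μ 0 η ((0 : ℤ), (0 : ℤ)) n - V μ 0 η ((0 : ℤ), L) n| :=
    ((measurable_V _ n).sub (measurable_V _ n)).abs
  conv_rhs => rw [← h]
  rw [integral_map (mp_sh (μ := μ) ((0 : ℤ), x)).measurable.aemeasurable hm.aestronglyMeasurable]
  refine integral_congr_ae (Filter.Eventually.of_forall fun η => ?_)
  simp only [V_sh, Prod.mk_add_mk, add_zero, zero_add]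

omit [IsProbabilityMeasure μ] in
theorem vN_nonneg (N : ℕ) (L : ℤ) : 0 ≤ vN μ N L :=
  Finset.sum_nonneg fun _ _ => integral_nonneg fun _ => abs_nonneg _

/-- (1b). -/
theorem vN_le (h : In μ c C n₀) {C₂ : ℝ} {n₁ : ℕ} (hO : Osc μ c C₂ n₁) {m : ℕ} (hm : n₁ ≤ m) {N : ℕ} (hN : m ≤ N) {L : ℤ}
    (hL : |(L : ℝ)| ≤ c * wd μ m) : vN μ N L ≤ 2 * C₂ * EE μ m * N := by
  have h0 := hO m hm N hN 0 (by
    rw [Int.cast_zero, abs_zero]
    exact (abs_nonneg _).trans hL)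
  have h1 := hO m hm N hN L hL
  have h2 : vN μ N L ≤ ∑ n ∈ Finset.Ioc N (2 * N),
      (∫ η, |V μ 0 η ((0 : ℤ), (0 : ℤ)) n - V μ 0 η ((m : ℤ), ((m / 2 : ℕ) : ℤ)) (n - m)| ∂(law μ) +
        ∫ η, |V μ 0 η ((0 : ℤ), L) n - V μ 0 η ((m : ℤ), ((m / 2 : ℕ) : ℤ)) (n - m)| ∂(law μ)) := by
    refine Finset.sum_le_sum fun n _ => ?_
    rw [← integral_add (V_sub_int h.em _ _ _ _) (V_sub_int h.em _ _ _ _)]
    refine integral_mono (V_sub_int h.em _ _ _ _) ((V_sub_int h.em _ _ _ _).add (V_sub_int h.em _ _ _ _)) fun η => ?_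
    simp only
    rw [abs_sub_comm (V μ 0 η ((0 : ℤ), L) n)]
    exact abs_sub_le _ _ _
  rw [Finset.sum_add_distrib] at h2
  linarith

/-- The separation at one duration. -/
theorem two_step (h : In μ c C n₀) (L : ℤ) (n : ℕ) {k : ℝ} :
    ∫ η, |V μ 0 η ((0 : ℤ), (0 : ℤ)) n - V μ 0 η ((0 : ℤ), 2 * L) n| ∂(law μ) + 2 * (k * (law μ).real {η |
      V μ 0 η ((0 : ℤ), (0 : ℤ)) n + k ≤ V μ 0 η ((0 : ℤ), L) n ∧
      V μ 0 η ((0 : ℤ), 2 * L) n + k ≤ V μ 0 η ((0 : ℤ), L) n}) ≤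
      2 * ∫ η, |V μ 0 η ((0 : ℤ), (0 : ℤ)) n - V μ 0 η ((0 : ℤ), L) n| ∂(law μ) := by
  obtain ⟨S, hS⟩ : ∃ S : Set Env, S = {η | V μ 0 η ((0 : ℤ), (0 : ℤ)) n + k ≤ V μ 0 η ((0 : ℤ), L) n ∧
      V μ 0 η ((0 : ℤ), 2 * L) n + k ≤ V μ 0 η ((0 : ℤ), L) n} := ⟨_, rfl⟩
  have hSm : MeasurableSet S := by
    rw [hS]
    exact (measurableSet_le ((measurable_V _ n).add_const k) (measurable_V _ n)).inter
      (measurableSet_le ((measurable_V _ n).add_const k) (measurable_V _ n))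
  rw [← hS]
  have e1 : 2 * (k * (law μ).real S) = ∫ η, S.indicator (fun _ => 2 * k) η ∂(law μ) := by
    rw [integral_indicator_const _ hSm, smul_eq_mul]
    ring
  have e2 : 2 * ∫ η, |V μ 0 η ((0 : ℤ), (0 : ℤ)) n - V μ 0 η ((0 : ℤ), L) n| ∂(law μ) =
      ∫ η, |V μ 0 η ((0 : ℤ), (0 : ℤ)) n - V μ 0 η ((0 : ℤ), L) n| ∂(law μ) +
        ∫ η, |V μ 0 η ((0 : ℤ), L) n - V μ 0 η ((0 : ℤ), 2 * L) n| ∂(law μ) := by
    have := osc_shift (μ := μ) L L n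
    rw [← two_mul] at this
    rw [this, two_mul]
  have i1 : Integrable (fun η => S.indicator (fun _ => 2 * k) η) (law μ) := (integrable_const _).indicator hSm
  rw [e1, e2, ← integral_add (V_sub_int h.em _ _ _ _) i1, ← integral_add (V_sub_int h.em _ _ _ _) (V_sub_int h.em _ _ _ _)]
  refine integral_mono ((V_sub_int h.em _ _ _ _).add i1) ((V_sub_int h.em _ _ _ _).add (V_sub_int h.em _ _ _ _)) fun η => ?_
  simp only
  by_cases hη : η ∈ S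
  · rw [Set.indicator_of_mem hη]
    rw [hS] at hη
    obtain ⟨h1, h2⟩ := hη
    have h3 := le_abs_self (V μ 0 η ((0 : ℤ), L) n - V μ 0 η ((0 : ℤ), 2 * L) n)
    have h4 := neg_abs_le (V μ 0 η ((0 : ℤ), (0 : ℤ)) n - V μ 0 η ((0 : ℤ), L) n)
    have h5 : |V μ 0 η ((0 : ℤ), (0 : ℤ)) n - V μ 0 η ((0 : ℤ), 2 * L) n| ≤
        2 * V μ 0 η ((0 : ℤ), L) n - V μ 0 η ((0 : ℤ), (0 : ℤ)) n - V μ 0 η ((0 : ℤ), 2 * L) n - 2 * k := by
      rw [abs_le]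
      constructor <;> linarith
    linarith
  · rw [Set.indicator_of_notMem hη, add_zero]
    exact abs_sub_le _ _ _

/-- The lower bound at one duration. -/
theorem one_step (h : In μ c C n₀) (L : ℤ) (n : ℕ) {k : ℝ} :
    k * (law μ).real {η | V μ 0 η ((0 : ℤ), (0 : ℤ)) n + k ≤ V μ 0 η ((0 : ℤ), L) n ∧
      V μ 0 η ((0 : ℤ), 2 * L) n + k ≤ V μ 0 η ((0 : ℤ), L) n} ≤
      ∫ η, |V μ 0 η ((0 : ℤ), (0 : ℤ)) n - V μ 0 η ((0 : ℤ), L) n| ∂(law μ) := by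
  obtain ⟨S, hS⟩ : ∃ S : Set Env, S = {η | V μ 0 η ((0 : ℤ), (0 : ℤ)) n + k ≤ V μ 0 η ((0 : ℤ), L) n ∧
      V μ 0 η ((0 : ℤ), 2 * L) n + k ≤ V μ 0 η ((0 : ℤ), L) n} := ⟨_, rfl⟩
  have hSm : MeasurableSet S := by
    rw [hS]
    exact (measurableSet_le ((measurable_V _ n).add_const k) (measurable_V _ n)).inter
      (measurableSet_le ((measurable_V _ n).add_const k) (measurable_V _ n))
  rw [← hS]
  have e1 : k * (law μ).real S = ∫ η, S.indicator (fun _ => k) η ∂(law μ) := by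
    rw [integral_indicator_const _ hSm, smul_eq_mul]
    ring
  have i1 : Integrable (fun η => S.indicator (fun _ => k) η) (law μ) := (integrable_const _).indicator hSm
  rw [e1]
  refine integral_mono i1 (V_sub_int h.em _ _ _ _) fun η => ?_
  simp only
  by_cases hη : η ∈ S
  · rw [Set.indicator_of_mem hη]
    rw [hS] at hη
    have h4 := neg_abs_le (V μ 0 η ((0 : ℤ), (0 : ℤ)) n - V μ 0 η ((0 : ℤ), L) n)
    have h5 := hη.1
    linarith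
  · rw [Set.indicator_of_notMem hη]
    exact abs_nonneg _

/-- The contraction at one scale. -/
theorem vN_two (h : In μ c C n₀) {κ p : ℝ} {n₁ : ℕ} (hS : Sep μ c κ p n₁) (hκ : 0 ≤ κ) {m : ℕ} (hm : n₁ ≤ m) {N : ℕ} (hN : m ≤ N)
    {L : ℤ} (h1 : c * wd μ m / 32 ≤ L) (h2 : (L : ℝ) ≤ c * wd μ m / 8) :
    vN μ N (2 * L) + 2 * (κ * EE μ m * (p * N)) ≤ 2 * vN μ N L ∧ κ * EE μ m * (p * N) ≤ vN μ N L := by
  have h3 := hS m hm N hN L h1 h2
  have hk : 0 ≤ κ * EE μ m := mul_nonneg hκ (one_pos.le.trans (one_le_EE m))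
  have h4 := mul_le_mul_of_nonneg_left h3 hk
  rw [Finset.mul_sum] at h4
  constructor
  · have h5 : vN μ N (2 * L) + 2 * ∑ n ∈ Finset.Ioc N (2 * N), κ * EE μ m * (law μ).real {η |
      V μ 0 η ((0 : ℤ), (0 : ℤ)) n + κ * EE μ m ≤ V μ 0 η ((0 : ℤ), L) n ∧
      V μ 0 η ((0 : ℤ), 2 * L) n + κ * EE μ m ≤ V μ 0 η ((0 : ℤ), L) n} ≤ 2 * vN μ N L := by
      unfold vN
      rw [Finset.mul_sum, Finset.mul_sum, ← Finset.sum_add_distrib]
      exact Finset.sum_le_sum fun n _ => two_step h L n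
    linarith
  · refine h4.trans ?_
    unfold vN
    exact Finset.sum_le_sum fun n _ => one_step h L n

/-- Every large length is the width of a scale, up to a factor `3`. -/
theorem wd_cover (h : In μ c C n₀) (n₁ : ℕ) : ∃ n₂ : ℕ, n₁ ≤ n₂ ∧ ∀ W : ℝ, wd μ n₂ ≤ W →
    ∃ k, n₂ ≤ k ∧ W ≤ wd μ k ∧ wd μ k ≤ 3 * W := by
  obtain ⟨n₃, h3⟩ := wd_lower h
  refine ⟨max n₁ (max n₃ 2), le_max_left _ _, fun W hW => ?_⟩
  obtain ⟨n₂, hn₂⟩ : ∃ n₂ : ℕ, n₂ = max n₁ (max n₃ 2) := ⟨_, rfl⟩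
  rw [← hn₂] at hW ⊢
  have hn3 : n₃ ≤ n₂ := by omega
  have hn2 : 2 ≤ n₂ := by omega
  have hw0 : 0 ≤ wd μ n₂ := mul_nonneg (vA_nonneg h.em zero_le_one _) (Nat.cast_nonneg _)
  have hW0 : 0 ≤ W := hw0.trans hW
  have hex : ∃ k, n₂ ≤ k ∧ W ≤ wd μ k := by
    obtain ⟨k, hk⟩ := eventually_atTop.1 ((wd_tendsto h).eventually_ge_atTop W)
    exact ⟨max k n₂, le_max_right _ _, hk _ (le_max_left _ _)⟩
  obtain ⟨k, ⟨hk1, hk2⟩, hmin⟩ : ∃ k, (n₂ ≤ k ∧ W ≤ wd μ k) ∧ ∀ j < k, ¬ (n₂ ≤ j ∧ W ≤ wd μ j) :=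
    ⟨Nat.find hex, Nat.find_spec hex, fun j hj => Nat.find_min hex hj⟩
  refine ⟨k, hk1, hk2, ?_⟩
  rcases Nat.eq_or_lt_of_le hk1 with h1 | h1
  · rw [← h1]
    linarith
  · have h4 : ¬ (n₂ ≤ k - 1 ∧ W ≤ wd μ (k - 1)) := hmin (k - 1) (by omega)
    push Not at h4
    have h5 := h4 (by omega)
    have h6 := h3 (k - 1) k (by omega) (by omega)
    obtain ⟨j, hj⟩ : ∃ j : ℕ, k = j + 1 := ⟨k - 1, by omega⟩
    subst hj
    rw [Nat.add_sub_cancel] at h5 h6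
    have hj2 : (2 : ℝ) ≤ j := by
      have : 2 ≤ j := by omega
      exact_mod_cast this
    push_cast at h6
    have hwj : 0 ≤ wd μ j := mul_nonneg (vA_nonneg h.em zero_le_one _) (Nat.cast_nonneg _)
    have h7 : (j : ℝ) * wd μ (j + 1) ≤ j * (3 * W) := by
      have : ((j : ℝ) + 1) * 2 ≤ 3 * j := by linarith
      nlinarith
    exact le_of_mul_le_mul_left h7 (by linarith)

/-- Pure iteration. -/
theorem iter_pow {v : ℕ → ℤ → ℝ} {ρ ℓ : ℝ} (hρ : 0 ≤ ρ) (hℓ : 0 ≤ ℓ)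
    (hv : ∀ L : ℤ, ℓ ≤ L → ∃ K : ℕ, ∀ N, K ≤ N → v N (2 * L) ≤ ρ * v N L) (L : ℤ) (hL : ℓ ≤ L) (i : ℕ) :
    ∃ K : ℕ, ∀ N, K ≤ N → v N (2 ^ i * L) ≤ ρ ^ i * v N L := by
  induction i with
  | zero => exact ⟨0, fun N _ => by simp⟩
  | succ i ih =>
    obtain ⟨K₁, h1⟩ := ih
    have hL0 : (0 : ℝ) ≤ L := hℓ.trans hL
    have h2 : ℓ ≤ ((2 ^ i * L : ℤ) : ℝ) := by
      push_cast
      have : (1 : ℝ) ≤ 2 ^ i := one_le_pow₀ (by norm_num)
      nlinarith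
    obtain ⟨K₂, h3⟩ := hv _ h2
    refine ⟨max K₁ K₂, fun N hN => ?_⟩
    have h4 := h1 N ((le_max_left _ _).trans hN)
    have h5 := h3 N ((le_max_right _ _).trans hN)
    have e1 : (2 : ℤ) ^ (i + 1) * L = 2 * (2 ^ i * L) := by ring
    rw [e1, pow_succ']
    calc v N (2 * (2 ^ i * L)) ≤ ρ * v N (2 ^ i * L) := h5
      _ ≤ ρ * (ρ ^ i * v N L) := mul_le_mul_of_nonneg_left h4 hρ
      _ = ρ * ρ ^ i * v N L := by ring

/-- **THEOREM (SL)** from Steps 1 and 3. -/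
theorem sl_of (h : In μ c C n₀) {C₂ κ p : ℝ} {n₁ n₂ : ℕ} (hκ : 0 < κ) (hp : 0 < p) (hO : Osc μ c C₂ n₁) (hS : Sep μ c κ p n₂) :
    ∃ (C₁ c₁ : ℝ) (n₃ : ℕ), 0 < C₁ ∧ 0 < c₁ ∧ c₁ < 1 ∧ SL μ C₁ c₁ n₃ := by
  have hc0 := h.c0
  have hE : ∀ n, 0 < EE μ n := fun n => lt_of_lt_of_le one_pos (one_le_EE n)
  have hw : ∀ n, 0 ≤ wd μ n := fun n => mul_nonneg (vA_nonneg h.em zero_le_one _) (Nat.cast_nonneg _)
  obtain ⟨nc, hnc, hcov⟩ := wd_cover h (max n₁ n₂)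
  obtain ⟨ng, hgr⟩ := wd_growth h
  -- a scale with `c wd ≥ 32`
  obtain ⟨nb, hnb⟩ := eventually_atTop.1 ((wd_tendsto h).eventually_ge_atTop (max (32 / c) (4 * wd μ nc + 1)))
  obtain ⟨ns, hns⟩ : ∃ ns : ℕ, ns = max (max nc ng) (max nb 1) := ⟨_, rfl⟩
  -- the contraction factor
  obtain ⟨c₆, hc₆⟩ : ∃ c₆ : ℝ, c₆ = min (κ * p / max C₂ 1) (1 / 2) := ⟨_, rfl⟩
  have hC2 : 0 < max C₂ 1 := lt_of_lt_of_le one_pos (le_max_right _ _)
  have hc60 : 0 < c₆ := by rw [hc₆]; exact lt_min (by positivity) (by norm_num)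
  have hc61 : c₆ ≤ 1 / 2 := by rw [hc₆]; exact min_le_right _ _
  have hc62 : c₆ * max C₂ 1 ≤ κ * p := by
    have : c₆ ≤ κ * p / max C₂ 1 := by rw [hc₆]; exact min_le_left _ _
    rwa [le_div_iff₀ hC2] at this
  obtain ⟨ρ, hρ⟩ : ∃ ρ : ℝ, ρ = 2 - c₆ := ⟨_, rfl⟩
  have hρ1 : 1 < ρ := by rw [hρ]; linarith
  have hρ2 : ρ < 2 := by rw [hρ]; linarith
  -- the contraction
  have hstep : ∀ L : ℤ, c * wd μ nc / 8 ≤ L → ∃ K : ℕ, ∀ N, K ≤ N → vN μ N (2 * L) ≤ ρ * vN μ N L := by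
    intro L hL
    have hL0 : (0 : ℝ) ≤ L := le_trans (by have := hw nc; positivity) hL
    obtain ⟨k, hk1, hk2, hk3⟩ := hcov (8 * L / c) (by rw [le_div_iff₀ hc0]; linarith)
    rw [div_le_iff₀ hc0] at hk2
    have hk3' : wd μ k * c ≤ 24 * L := by
      have := mul_le_mul_of_nonneg_right hk3 hc0.le
      have e : 3 * (8 * (L : ℝ) / c) * c = 24 * L := by field_simp; ring
      linarith
    have hkn1 : n₁ ≤ k := by omega
    have hkn2 : n₂ ≤ k := by omega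
    refine ⟨k, fun N hN => ?_⟩
    obtain ⟨h1, -⟩ := vN_two h hS hκ.le hkn2 hN (L := L) (by linarith) (by linarith)
    have h2 := vN_le h hO hkn1 hN (L := L) (by rw [abs_of_nonneg hL0]; have := hw k; nlinarith)
    have h3 : (0 : ℝ) ≤ N := Nat.cast_nonneg N
    have h4 : 2 * C₂ * EE μ k * N ≤ 2 * max C₂ 1 * EE μ k * N :=
      mul_le_mul_of_nonneg_right (mul_le_mul_of_nonneg_right (by linarith [le_max_left C₂ 1]) (hE k).le) h3
    have h5 : c₆ * vN μ N L ≤ 2 * (κ * EE μ k * (p * N)) := by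
      calc c₆ * vN μ N L ≤ c₆ * (2 * max C₂ 1 * EE μ k * N) := mul_le_mul_of_nonneg_left (h2.trans h4) hc60.le
        _ = 2 * (c₆ * max C₂ 1) * (EE μ k * N) := by ring
        _ ≤ 2 * (κ * p) * (EE μ k * N) := by
            refine mul_le_mul_of_nonneg_right (by linarith) (mul_nonneg (hE k).le h3)
        _ = 2 * (κ * EE μ k * (p * N)) := by ring
    rw [hρ]
    linarith
  -- the exponent
  obtain ⟨c₁, hc₁⟩ : ∃ c₁ : ℝ, c₁ = 1 - Real.logb 2 ρ := ⟨_, rfl⟩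
  have hl1 : 0 < Real.logb 2 ρ := Real.logb_pos (by norm_num) hρ1
  have hl2 : Real.logb 2 ρ < 1 := by
    rw [Real.logb_lt_iff_lt_rpow (by norm_num) (by linarith), Real.rpow_one]
    exact hρ2
  have hρp : (2 : ℝ) ^ (1 - c₁) = ρ := by
    rw [hc₁, sub_sub_cancel]
    exact Real.rpow_logb (by norm_num) (by norm_num) (by linarith)
  have hc1a : 0 < 1 - c₁ := by rw [hc₁]; linarith
  refine ⟨2 + 8 * max C₂ 1 / (κ * p), c₁, ns, by positivity, by rw [hc₁]; linarith, by linarith, fun m m' hm hmm => ?_⟩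
  have hmc : nc ≤ m := by omega
  have hmg : ng ≤ m := by omega
  have hmb : nb ≤ m := by omega
  have hm1 : 1 ≤ m := by omega
  have hwm := hnb m hmb
  have hwm1 : 32 / c ≤ wd μ m := (le_max_left _ _).trans hwm
  have hwm2 : 4 * wd μ nc + 1 ≤ wd μ m := (le_max_right _ _).trans hwm
  rw [div_le_iff₀ hc0] at hwm1
  have hwm0 : 0 < wd μ m := by have := hw nc; linarith
  have hwm' := hnb m' (by omega)
  have hwm'2 : 4 * wd μ nc + 1 ≤ wd μ m' := (le_max_right _ _).trans hwm'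
  have hwm'0 : 0 < wd μ m' := by have := hw nc; linarith
  have hg := hgr m m' hmg hmm
  have hr0 : 0 < wd μ m' / wd μ m := div_pos hwm'0 hwm0
  have hCC : 0 ≤ 8 * max C₂ 1 / (κ * p) := by positivity
  rcases lt_or_ge (wd μ m') (wd μ m) with hlt | hge
  · -- the width does not grow
    have h1 : EE μ m' ≤ 2 * (wd μ m' / wd μ m) * EE μ m := by
      rw [mul_div_assoc', div_mul_eq_mul_div, le_div_iff₀ hwm0]
      linarith
    have h2 : wd μ m' / wd μ m ≤ (wd μ m' / wd μ m) ^ (1 - c₁) := by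
      have h3 := Real.rpow_le_rpow_of_exponent_ge hr0 ((div_lt_one hwm0).2 hlt).le (show 1 - c₁ ≤ 1 by linarith)
      rwa [Real.rpow_one] at h3
    have h3 : 0 ≤ (wd μ m' / wd μ m) ^ (1 - c₁) := Real.rpow_nonneg hr0.le _
    calc EE μ m' ≤ 2 * (wd μ m' / wd μ m) * EE μ m := h1
      _ ≤ (2 + 8 * max C₂ 1 / (κ * p)) * (wd μ m' / wd μ m) ^ (1 - c₁) * EE μ m := by
          refine mul_le_mul_of_nonneg_right ?_ (hE m).le
          calc 2 * (wd μ m' / wd μ m) ≤ 2 * (wd μ m' / wd μ m) ^ (1 - c₁) := by linarith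
            _ ≤ (2 + 8 * max C₂ 1 / (κ * p)) * (wd μ m' / wd μ m) ^ (1 - c₁) :=
              mul_le_mul_of_nonneg_right (by linarith) h3
  · -- the chain
    obtain ⟨L₀, hL₀⟩ : ∃ L₀ : ℤ, L₀ = ⌈c * wd μ m / 32⌉ := ⟨_, rfl⟩
    have hL1 : c * wd μ m / 32 ≤ L₀ := by rw [hL₀]; exact Int.le_ceil _
    have hL2 : (L₀ : ℝ) < c * wd μ m / 32 + 1 := by rw [hL₀]; exact Int.ceil_lt_add_one _
    have hL3 : (L₀ : ℝ) ≤ c * wd μ m / 8 := by linarith
    have hL0 : (0 : ℝ) < L₀ := lt_of_lt_of_le (by positivity) hL1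
    have hLc : c * wd μ nc / 8 ≤ L₀ := by nlinarith
    -- the number of steps
    have hex : ∃ i : ℕ, c * wd μ m' / 8 < 2 ^ i * (L₀ : ℝ) := by
      obtain ⟨i, hi⟩ := pow_unbounded_of_one_lt (c * wd μ m' / 8 / L₀) (one_lt_two (α := ℝ))
      exact ⟨i, by rwa [div_lt_iff₀ hL0] at hi⟩
    obtain ⟨i, hi1, hi2⟩ : ∃ i : ℕ, 2 ^ i * (L₀ : ℝ) ≤ c * wd μ m' / 8 ∧ c * wd μ m' / 8 < 2 ^ (i + 1) * (L₀ : ℝ) := by
      obtain ⟨j, hj, hmin⟩ : ∃ j : ℕ, c * wd μ m' / 8 < 2 ^ j * (L₀ : ℝ) ∧ ∀ k < j, ¬ c * wd μ m' / 8 < 2 ^ k * (L₀ : ℝ) :=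
        ⟨Nat.find hex, Nat.find_spec hex, fun k hk => Nat.find_min hex hk⟩
      rcases j with _ | j
      · exfalso
        rw [pow_zero, one_mul] at hj
        have := mul_le_mul_of_nonneg_left hge hc0.le
        linarith
      · exact ⟨j, not_lt.1 (hmin j (Nat.lt_succ_self j)), hj⟩
    have hi3 : c * wd μ m' / 32 ≤ ((2 ^ i * L₀ : ℤ) : ℝ) := by
      push_cast
      rw [pow_succ] at hi2
      nlinarith
    have hi4 : ((2 ^ i * L₀ : ℤ) : ℝ) ≤ c * wd μ m' / 8 := by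
      push_cast
      exact hi1
    obtain ⟨K, hK⟩ := iter_pow (v := vN μ) (by linarith : (0 : ℝ) ≤ ρ) (by have := hw nc; positivity) hstep L₀ hLc i
    obtain ⟨N, hN⟩ : ∃ N : ℕ, N = max K m' := ⟨_, rfl⟩
    have hNK : K ≤ N := by omega
    have hNm' : m' ≤ N := by omega
    have hNm : m ≤ N := by omega
    have hN0 : (0 : ℝ) < N := by
      have : 0 < N := by omega
      exact_mod_cast this
    have h1 := hK N hNK
    obtain ⟨-, h2⟩ := vN_two h hS hκ.le (show n₂ ≤ m' by omega) hNm' hi3 hi4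
    have h3 := vN_le h hO (show n₁ ≤ m by omega) hNm (L := L₀) (by
      rw [abs_of_pos hL0]
      have := mul_pos hc0 hwm0
      linarith)
    have h4 : 2 * C₂ * EE μ m * N ≤ 2 * max C₂ 1 * EE μ m * N :=
      mul_le_mul_of_nonneg_right (mul_le_mul_of_nonneg_right (by linarith [le_max_left C₂ 1]) (hE m).le) hN0.le
    have hρi : 0 ≤ ρ ^ i := pow_nonneg (by linarith) i
    have h5 : κ * p * EE μ m' * N ≤ ρ ^ i * (2 * max C₂ 1 * EE μ m) * N := by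
      calc κ * p * EE μ m' * N = κ * EE μ m' * (p * N) := by ring
        _ ≤ vN μ N (2 ^ i * L₀) := h2
        _ ≤ ρ ^ i * vN μ N L₀ := h1
        _ ≤ ρ ^ i * (2 * max C₂ 1 * EE μ m * N) := mul_le_mul_of_nonneg_left (h3.trans h4) hρi
        _ = ρ ^ i * (2 * max C₂ 1 * EE μ m) * N := by ring
    have h6 : κ * p * EE μ m' ≤ ρ ^ i * (2 * max C₂ 1 * EE μ m) := le_of_mul_le_mul_right h5 hN0
    -- the power
    have h7 : (2 : ℝ) ^ i ≤ 4 * (wd μ m' / wd μ m) := by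
      rw [mul_div_assoc', le_div_iff₀ hwm0]
      have h8 : (2 : ℝ) ^ i * (c * wd μ m / 32) ≤ c * wd μ m' / 8 :=
        (mul_le_mul_of_nonneg_left hL1 (by positivity)).trans hi1
      have h9 : c * ((2 : ℝ) ^ i * wd μ m) ≤ c * (4 * wd μ m') := by linarith
      exact le_of_mul_le_mul_left h9 hc0
    have h8 : ρ ^ i ≤ 4 * (wd μ m' / wd μ m) ^ (1 - c₁) := by
      have e1 : ρ ^ i = ((2 : ℝ) ^ i) ^ (1 - c₁) := by
        rw [← hρp, ← Real.rpow_natCast, ← Real.rpow_natCast, ← Real.rpow_mul (by norm_num), ← Real.rpow_mul (by norm_num),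
          mul_comm]
      rw [e1]
      have h9 := Real.rpow_le_rpow (by positivity) h7 hc1a.le
      rw [Real.mul_rpow (by norm_num) hr0.le] at h9
      have h10 : (4 : ℝ) ^ (1 - c₁) ≤ 4 := by
        have := Real.rpow_le_rpow_of_exponent_le (x := 4) (by norm_num) (show 1 - c₁ ≤ 1 by rw [hc₁]; linarith)
        rwa [Real.rpow_one] at this
      exact h9.trans (mul_le_mul_of_nonneg_right h10 (Real.rpow_nonneg hr0.le _))
    have h9 : 0 ≤ (wd μ m' / wd μ m) ^ (1 - c₁) := Real.rpow_nonneg hr0.le _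
    have hkp : 0 < κ * p := mul_pos hκ hp
    have h10 : κ * p * EE μ m' ≤ κ * p * ((8 * max C₂ 1 / (κ * p)) * (wd μ m' / wd μ m) ^ (1 - c₁) * EE μ m) := by
      calc κ * p * EE μ m' ≤ ρ ^ i * (2 * max C₂ 1 * EE μ m) := h6
        _ ≤ 4 * (wd μ m' / wd μ m) ^ (1 - c₁) * (2 * max C₂ 1 * EE μ m) :=
            mul_le_mul_of_nonneg_right h8 (by have := hE m; positivity)
        _ = κ * p * ((8 * max C₂ 1 / (κ * p)) * (wd μ m' / wd μ m) ^ (1 - c₁) * EE μ m) := by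
            field_simp
            ring
    have h11 := le_of_mul_le_mul_left h10 hkp
    refine h11.trans (mul_le_mul_of_nonneg_right (mul_le_mul_of_nonneg_right (by linarith) h9) (hE m).le)

end Pool.Agent.W_7d29a1_SL
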