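import Pool.Agent.W_7d29a1_SL.Defs
import Pool.Agent.W_7d29a1_SR.Lucky

/-!
THEOREM (SL), proofs row 639, Step 1: the oscillation of the profile at the scale `m` is of the order of the unit.
-/

namespace Pool.Agent.W_7d29a1_SL

open MeasureTheory ProbabilityTheory Filter Topology
open Pool.Agent.W_7d29a1_F Pool.Agent.W_7d29a1_h4g Pool.Agent.W_7d29a1_G Pool.Agent.W_7d29a1_SR
open Pool.Agent.W_7d29a1_L78 Pool.Agent.W_7d29a1_h60

variable {μ : Measure ℝ} [IsProbabilityMeasure μ] {c C : ℝ} {n₀ : ℕ}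

/-- The telescoping sum. -/
private lemma tele {a : ℕ → ℝ} {E : ℝ} {m N : ℕ} (hmN : m ≤ N) (h0 : ∀ n, a n ≤ 0) (h1 : ∀ n, n ≤ N → -E ≤ a n) :
    ∑ n ∈ Finset.Ioc N (2 * N), (a n - a (n - m)) ≤ m * E := by
  rw [Finset.sum_sub_distrib]
  have e1 : ∑ n ∈ Finset.Ioc N (2 * N), a (n - m) = ∑ n ∈ Finset.Ioc (N - m) (2 * N - m), a n := by
    refine Finset.sum_nbij' (fun n => n - m) (fun n => n + m) ?_ ?_ ?_ ?_ ?_
    · intro n hn
      rw [Finset.mem_Ioc] at hn ⊢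
      omega
    · intro n hn
      rw [Finset.mem_Ioc] at hn ⊢
      omega
    · intro n hn
      rw [Finset.mem_Ioc] at hn
      show n - m + m = n
      omega
    · intro n hn
      show n + m - m = n
      omega
    · intro n _
      rfl
  have e2 := Finset.sum_Ioc_consecutive a (show N - m ≤ N by omega) (show N ≤ 2 * N by omega)
  have e3 := Finset.sum_Ioc_consecutive a (show N - m ≤ 2 * N - m by omega) (show 2 * N - m ≤ 2 * N by omega)
  have e4 : ∑ n ∈ Finset.Ioc (2 * N - m) (2 * N), a n ≤ 0 := Finset.sum_nonpos fun n _ => h0 n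
  have e5 : -(m * E) ≤ ∑ n ∈ Finset.Ioc (N - m) N, a n := by
    have h2 : ∑ n ∈ Finset.Ioc (N - m) N, (-E) ≤ ∑ n ∈ Finset.Ioc (N - m) N, a n :=
      Finset.sum_le_sum fun n hn => h1 n (Finset.mem_Ioc.1 hn).2
    rw [Finset.sum_const, Nat.card_Ioc, nsmul_eq_mul] at h2
    have h3 : N - (N - m) = m := by omega
    rw [h3] at h2
    linarith
  rw [e1]
  linarith

/-- STEP 1. -/
theorem osc (h : In μ c C n₀) : ∃ C₂ : ℝ, 0 < C₂ ∧ ∃ n₁ : ℕ, Osc μ c C₂ n₁ := by
  obtain ⟨n1, hn1⟩ := Filter.eventually_atTop.1 (h.tv.eventually (gt_mem_nhds (show (0 : ℝ) < 1 / 4 by norm_num)))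
  have hC1 := h.C1
  refine ⟨2 + 2 * C, by linarith, max n₀ (max n1 8), fun m hm N hN x hx => ?_⟩
  have hm0 : n₀ ≤ m := (le_max_left _ _).trans hm
  have hm1 : n1 ≤ m := (le_max_left _ _).trans ((le_max_right _ _).trans hm)
  have hm8 : 8 ≤ m := (le_max_right _ _).trans ((le_max_right _ _).trans hm)
  have hv := hn1 m hm1
  have hc0 := h.c0
  have hc1 := h.c1
  have hE := EE_pos (μ := μ) m
  have hm8r : (8 : ℝ) ≤ m := by exact_mod_cast hm8
  have hv0 : 0 ≤ vA μ 1 m := by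
    by_contra hcon
    push Not at hcon
    have h1 : 0 ≤ c * wd μ m := (abs_nonneg _).trans hx
    have h2 : wd μ m < 0 := by
      unfold wd
      exact mul_neg_of_neg_of_pos hcon (by linarith)
    nlinarith
  have hx4 : |(x : ℝ)| ≤ m / 4 := by
    refine hx.trans ?_
    unfold wd
    have h1 : c * (vA μ 1 m * m) ≤ 1 * (1 / 4 * m) :=
      mul_le_mul hc1 (mul_le_mul_of_nonneg_right hv.le (by linarith)) (by positivity) (by norm_num)
    linarith
  obtain ⟨y, hy⟩ : ∃ y : ℤ, y = ((m / 2 : ℕ) : ℤ) - x := ⟨_, rfl⟩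
  have hd : (2 : ℝ) * ((m / 2 : ℕ) : ℝ) ≤ m ∧ (m : ℝ) ≤ 2 * ((m / 2 : ℕ) : ℝ) + 1 := by
    constructor
    · have : 2 * (m / 2) ≤ m := by omega
      exact_mod_cast this
    · have : m ≤ 2 * (m / 2) + 1 := by omega
      exact_mod_cast this
  have hyr : (y : ℝ) = ((m / 2 : ℕ) : ℝ) - x := by
    rw [hy, Int.cast_sub, Int.cast_natCast]
  have hax := abs_le.1 hx4
  have hy0 : 0 ≤ y := by
    have : (0 : ℝ) ≤ y := by
      rw [hyr]
      linarith [hd.2, hax.2]
    exact_mod_cast this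
  have hym : y ≤ m := by
    have : (y : ℝ) ≤ m := by
      rw [hyr]
      linarith [hd.1, hax.1]
    exact_mod_cast this
  have hep : ep μ m y ≤ C * EE μ m := by
    refine h.inn m hm0 m y (by omega) hy0 hym ?_
    have h1 : (y : ℝ) - m / 2 = (((m / 2 : ℕ) : ℝ) - m / 2) - x := by rw [hyr]; ring
    have h2 : |((m / 2 : ℕ) : ℝ) - m / 2| ≤ 1 := by
      rw [abs_le]
      constructor
      · linarith [hd.2]
      · linarith [hd.1]
    have h3 := abs_sub (((m / 2 : ℕ) : ℝ) - m / 2) (x : ℝ)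
    rw [h1]
    have h4 : c * wd μ m = c * vA μ 1 m * m := by
      unfold wd
      ring
    rw [h4] at hx
    linarith
  obtain ⟨a, ha⟩ : ∃ a : ℕ → ℝ, a = fun n => ∫ η, V μ 0 η 0 n ∂(law μ) := ⟨_, rfl⟩
  have ha0 : ∀ n, a n ≤ 0 := fun n => by
    rw [ha]
    exact integral_V_nonpos h.em 0 n
  have ha1 : ∀ n, -EE μ n ≤ a n := by
    intro n
    rw [ha]
    have h1 := mean_neg_V (μ := μ) h.em (le_refl n)
    have h2 : ∫ η, -V μ 0 η 0 n ∂(law μ) ≤ ∫ η, max (-V μ 0 η 0 n) 0 ∂(law μ) :=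
      integral_mono ((Sub_V 0 n).neg.integrable h.em) (((Sub_V 0 n).neg.max (Sub.const 0)).integrable h.em)
        fun η => le_max_left _ _
    rw [integral_neg] at h2
    show -EE μ n ≤ ∫ η, V μ 0 η 0 n ∂(law μ)
    linarith
  have key : ∀ n ∈ Finset.Ioc N (2 * N),
      ∫ η, |V μ 0 η ((0 : ℤ), x) n - V μ 0 η ((m : ℤ), ((m / 2 : ℕ) : ℤ)) (n - m)| ∂(law μ) ≤
        (a n - a (n - m)) + 2 * C * EE μ m := by
    intro n hn
    rw [Finset.mem_Ioc] at hn
    have hmn : m ≤ n := by omega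
    have S1 : Sub fun η => V μ 0 η ((0 : ℤ), x) n := Sub_V _ _
    have S2 : Sub fun η => V μ 0 η ((m : ℤ), ((m / 2 : ℕ) : ℤ)) (n - m) := Sub_V _ _
    have S3 : Sub fun η => max (X μ 0 η ((0 : ℤ), x) m y) 0 := (Sub_X _ hy0 hym).max (Sub.const 0)
    have hpt : ∀ η, |V μ 0 η ((0 : ℤ), x) n - V μ 0 η ((m : ℤ), ((m / 2 : ℕ) : ℤ)) (n - m)| ≤
        (V μ 0 η ((0 : ℤ), x) n - V μ 0 η ((m : ℤ), ((m / 2 : ℕ) : ℤ)) (n - m)) +
          2 * max (X μ 0 η ((0 : ℤ), x) m y) 0 := by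
      intro η
      have h1 := V_add_ge (μ := μ) (s := 0) η ((0 : ℤ), x) m (n - m) hy0 hym
      rw [Nat.add_sub_cancel' hmn] at h1
      have h2 : (((0 : ℤ), x).1 + (m : ℤ), ((0 : ℤ), x).2 + y) = ((m : ℤ), ((m / 2 : ℕ) : ℤ)) := by
        rw [hy]
        refine Prod.ext ?_ ?_
        · show (0 : ℤ) + m = m
          ring
        · show x + (((m / 2 : ℕ) : ℤ) - x) = _
          ring
      rw [h2] at h1
      have h3 := le_max_left (X μ 0 η ((0 : ℤ), x) m y) 0
      have h4 := le_max_right (X μ 0 η ((0 : ℤ), x) m y) 0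
      rw [abs_le]
      constructor <;> linarith
    have hI := integral_mono ((S1.sub S2).abs.integrable h.em)
      (((S1.sub S2).integrable h.em).add ((S3.integrable h.em).const_mul 2)) hpt
    refine hI.trans ?_
    have e1 : ∫ η, ((V μ 0 η ((0 : ℤ), x) n - V μ 0 η ((m : ℤ), ((m / 2 : ℕ) : ℤ)) (n - m)) +
        2 * max (X μ 0 η ((0 : ℤ), x) m y) 0) ∂(law μ) = (a n - a (n - m)) + 2 * ep μ m y := by
      rw [integral_add ((S1.sub S2).integrable h.em) ((S3.integrable h.em).const_mul 2), integral_const_mul,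
        integral_sub (S1.integrable h.em) (S2.integrable h.em), integral_V ((0 : ℤ), x),
        integral_V ((m : ℤ), ((m / 2 : ℕ) : ℤ)), ep_sh, ha]
    calc _ = _ := e1
      _ ≤ _ := by linarith
  refine (Finset.sum_le_sum key).trans ?_
  rw [Finset.sum_add_distrib, Finset.sum_const, Nat.card_Ioc, nsmul_eq_mul]
  have hN2 : 2 * N - N = N := by omega
  rw [hN2]
  have ht := tele (E := EE μ N) hN ha0 fun n hn => by
    have h1 := ha1 n
    have h2 := EE_mono (μ := μ) hn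
    linarith
  have hs := scale_b h (show 1 ≤ m by omega) hN
  have : (2 + 2 * C) * EE μ m * N = 2 * (N * EE μ m) + N * (2 * C * EE μ m) := by ring
  linarith

end Pool.Agent.W_7d29a1_SL
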