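import Pool.Agent.W_7d29a1_SL.Sep
import Pool.Agent.W_7d29a1_SL.Osc
import Pool.Agent.W_7d29a1_SL.Iter

/-!
THEOREM (SL), MP_7d29a1_pr, proofs row 639: SUPERLINEARITY of the cost at `0`:
`EE μ m' ≤ C₁ (wd μ m' / wd μ m) ^ (1 - c₁) EE μ m` for all `m ≤ m'` large. (helper86, helper7, helper10, helper75)
-/

namespace Pool.Agent.W_7d29a1_SL

open MeasureTheory Pool.Agent.W_7d29a1_SR

/-- **THEOREM (SL).** -/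
theorem sl {μ : Measure ℝ} [IsProbabilityMeasure μ] {c C : ℝ} {n₀ : ℕ} (h : In μ c C n₀) :
    ∃ (C₁ c₁ : ℝ) (n₃ : ℕ), 0 < C₁ ∧ 0 < c₁ ∧ c₁ < 1 ∧ SL μ C₁ c₁ n₃ := by
  obtain ⟨C₂, hC₂, n₁, hO⟩ := osc h
  obtain ⟨κ, p, hκ, hp, n₂, hS⟩ := sep_of h hC₂ hO
  exact sl_of h hκ hp hO hS

end Pool.Agent.W_7d29a1_SL
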