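import Pool.Agent.W_7d29a1_SL.Defs
import Pool.Agent.W_7d29a1_h95g.TubeDet

/-!
THEOREM (SL), proofs row 639, Step 3, the deterministic part: the paths from `(0, 0)` which visit the strip `T` to the right of a
line are dominated by the paths from `(0, L)`, up to two ratios which do not see `T`. (helper86)
-/

namespace Pool.Agent.W_7d29a1_SL

open MeasureTheory ProbabilityTheory Filter Topology
open Pool.Agent.W_7d29a1_F Pool.Agent.W_7d29a1_h95g

variable {μ : Measure ℝ} [IsProbabilityMeasure μ]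

/-- The sites at the line and to the left of it. -/
def Lw (l : ℤ → ℤ) : Set Pt := {p | p.2 ≤ l p.1}

/-- The same after the row `r`, everything up to the row `r`. -/
def Rg (l : ℤ → ℤ) (r : ℕ) : Set Pt := {p | p.1 ≤ r ∨ p.2 ≤ l p.1}

theorem WR_zero' (R : Set Pt) (η : Env) (a : Pt) (n : ℕ) (y : ℤ) :
    WR μ 0 R η a n y = Real.exp (-(n * lam μ 0)) * Zr R η a n y := by
  rw [WR_def']
  congr 2
  ring

theorem WR_off (R : Set Pt) (η : Env) (a : Pt) {n : ℕ} {y : ℤ} (h : ¬ (0 ≤ y ∧ y ≤ n)) :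
    WR μ 0 R η a n y = 0 := by
  rw [WR_zero', Zr_eq_zero R η a h, mul_zero]

theorem WR_mono' {R R' : Set Pt} (h : R ⊆ R') (η : Env) (a : Pt) (n : ℕ) (y : ℤ) :
    WR μ 0 R η a n y ≤ WR μ 0 R' η a n y := by
  rw [WR_zero', WR_zero']
  exact mul_le_mul_of_nonneg_left (Zr_mono h η a n y) (Real.exp_pos _).le

theorem WR_congr' {R R' : Set Pt} (η : Env) (a : Pt) (n : ℕ) (y : ℤ)
    (h : ∀ p : Pt, a.1 < p.1 → p.1 ≤ a.1 + n → (p ∈ R ↔ p ∈ R')) :
    WR μ 0 R η a n y = WR μ 0 R' η a n y := by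
  rw [WR_zero', WR_zero', Zr_congr_region η a n y h]

theorem WR_last_off {R : Set Pt} (η : Env) (a : Pt) {n : ℕ} (hn : 1 ≤ n) {y : ℤ} (h : ((a.1 + n, a.2 + y) : Pt) ∉ R) :
    WR μ 0 R η a n y = 0 := by
  rw [WR_zero']
  by_contra hne
  have h1 : Zr R η a n y ≠ 0 := fun h0 => hne (by rw [h0, mul_zero])
  rcases mem_of_Zr_ne_zero h1 with ⟨h2, _⟩ | h2
  · omega
  · exact h h2

theorem WR_tp2 (R : Set Pt) (η : Env) (t x x' : ℤ) (n : ℕ) (y y' : ℤ) (hx : x ≤ x') (hy : y ≤ y') :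
    WR μ 0 R η (t, x) n (y' - x) * WR μ 0 R η (t, x') n (y - x') ≤
      WR μ 0 R η (t, x) n (y - x) * WR μ 0 R η (t, x') n (y' - x') := by
  have h := Zr_tp2 R η t x x' n y y' hx hy
  rw [WR_zero', WR_zero', WR_zero', WR_zero']
  have h2 := mul_le_mul_of_nonneg_left h (mul_nonneg (Real.exp_pos (-(n * lam μ 0))).le (Real.exp_pos (-(n * lam μ 0))).le)
  calc _ = _ := by ring
    _ ≤ _ := h2
    _ = _ := by ring

/-- Chapman - Kolmogorov with end positions. -/
theorem WR_add' (R : Set Pt) (η : Env) (t x : ℤ) (m n : ℕ) (y : ℤ) {A B : ℤ} (hA : A ≤ x) (hB : x + m ≤ B) :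
    WR μ 0 R η (t, x) (m + n) (y - x) =
      ∑ u ∈ Finset.Icc A B, WR μ 0 R η (t, x) m (u - x) * WR μ 0 R η (t + m, u) n (y - u) := by
  rw [WR_add R η (t, x) m n (y - x)]
  have h1 : ∑ u ∈ Finset.Icc A B, WR μ 0 R η (t, x) m (u - x) * WR μ 0 R η (t + m, u) n (y - u) =
      ∑ u ∈ Finset.Icc x (x + m), WR μ 0 R η (t, x) m (u - x) * WR μ 0 R η (t + m, u) n (y - u) := by
    symm
    refine Finset.sum_subset (Finset.Icc_subset_Icc hA hB) fun u _ hu => ?_
    rw [WR_off R η (t, x) (n := m) (y := u - x), zero_mul]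
    intro h
    apply hu
    rw [Finset.mem_Icc]
    omega
  rw [h1]
  have h2 : Finset.Icc x (x + m) = (Finset.Icc (0 : ℤ) m).map (addRightEmbedding x) := by
    rw [Finset.map_add_right_Icc, zero_add, add_comm]
  rw [h2, Finset.sum_map]
  refine Finset.sum_congr rfl fun k _ => ?_
  simp only [addRightEmbedding_apply, add_sub_cancel_right]
  congr 2
  · rw [add_comm k x]
  · ring

/-- One step of the switching: `z` on the line at the time `t + k`, the other path goes on to the end `y2`. -/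
theorem WR_switch (R : Set Pt) (η : Env) (t x x' : ℤ) (k k2 : ℕ) (z y2 : ℤ) (hx : x ≤ x') (hk : 1 ≤ k)
    (hR : ∀ u : ℤ, ((t + k, u) : Pt) ∈ R → u ≤ z) :
    WR μ 0 R η (t, x) k (z - x) * WR μ 0 R η (t, x') (k + k2) (y2 - x') ≤
      WR μ 0 R η (t, x) (k + k2) (y2 - x) * WR μ 0 R η (t, x') k (z - x') := by
  rw [WR_add' R η t x' k k2 y2 (A := x) (B := x' + k) hx le_rfl,
    WR_add' R η t x k k2 y2 (A := x) (B := x' + k) le_rfl (by omega), Finset.mul_sum, Finset.sum_mul]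
  refine Finset.sum_le_sum fun u _ => ?_
  have h0 : 0 ≤ WR μ 0 R η (t + k, u) k2 (y2 - u) := WR_nonneg _ _ _ _ _
  by_cases hu : ((t + k, u) : Pt) ∈ R
  · have h1 := WR_tp2 (μ := μ) R η t x x' k u z hx (hR u hu)
    have h2 := mul_le_mul_of_nonneg_right h1 h0
    calc _ = _ := by ring
      _ ≤ _ := h2
      _ = _ := by ring
  · have h1 : WR μ 0 R η (t, x') k (u - x') = 0 := by
      refine WR_last_off η (t, x') hk ?_
      have : x' + (u - x') = u := by ring
      simpa [this] using hu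
    rw [h1, zero_mul, mul_zero]
    exact mul_nonneg (mul_nonneg (WR_nonneg _ _ _ _ _) h0) (WR_nonneg _ _ _ _ _)

/-- The paths from a site on the left of the line: those which avoid `T`, and those which come to the line before the time
`a.1 + k0`. -/
theorem V_exit {l : ℤ → ℤ} (hl : ∀ t, l t ≤ l (t + 1)) (T : Set Pt) (η : Env) (a : Pt) (ha : a.2 < l a.1) (n k0 : ℕ)
    (hk : k0 ≤ n) (hT : ∀ p ∈ T, p.1 ≤ a.1 + k0 ∧ l p.1 < p.2) :
    Real.exp (V μ 0 η a n) ≤ (∑ y ∈ Finset.Icc (0 : ℤ) n, WR μ 0 Tᶜ η a n y) +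
      ∑ k ∈ Finset.range k0, WR μ 0 (Lw l) η a (k + 1) (l (a.1 + (k + 1)) - a.2) *
        Real.exp (V μ 0 η (a.1 + (k + 1), l (a.1 + (k + 1))) (n - (k + 1))) := by
  have hE := exitAt_left hl
  have hset : ∀ k : ℕ, Tᶜ ∩ ({p : Pt | p.2 < l p.1} ∪ {bk l a k}) = Set.univ ∩ ({p : Pt | p.2 < l p.1} ∪ {bk l a k}) := by
    intro k
    rw [Set.univ_inter]
    refine Set.inter_eq_right.2 ?_
    rintro p (hp | hp) hpT
    · have := (hT p hpT).2
      have h5 : p.2 < l p.1 := hp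
      omega
    · rw [Set.mem_singleton_iff] at hp
      have := (hT p hpT).2
      rw [hp] at this
      simp only [bk] at this
      omega
  have hset0 : Tᶜ ∩ {p : Pt | p.2 < l p.1} = Set.univ ∩ {p : Pt | p.2 < l p.1} := by
    rw [Set.univ_inter]
    refine Set.inter_eq_right.2 ?_
    intro p hp hpT
    have := (hT p hpT).2
    have h5 : p.2 < l p.1 := hp
    omega
  have key : ∀ y : ℤ, W μ 0 η a n y ≤ WR μ 0 Tᶜ η a n y +
      ∑ k ∈ Finset.range k0, WR μ 0 (Lw l) η a (k + 1) (l (a.1 + (k + 1)) - a.2) *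
        W μ 0 η (a.1 + (k + 1), l (a.1 + (k + 1))) (n - (k + 1)) (y - (l (a.1 + (k + 1)) - a.2)) := by
    intro y
    have e1 := exit_decomp hE Set.univ η (a := a) ha n y
    have e2 := exit_decomp hE Tᶜ η (a := a) ha n y
    have hF : ∀ k, Fk Tᶜ {p : Pt | p.2 < l p.1} l η a k = Fk Set.univ {p : Pt | p.2 < l p.1} l η a k := by
      intro k
      unfold Fk
      rw [hset k]
    have hFn : ∀ k, 0 ≤ Fk Set.univ {p : Pt | p.2 < l p.1} l η a k := fun k => Zr_nonneg _ _ _ _ _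
    have hs1 : ∑ k ∈ Finset.range n, Fk Set.univ {p : Pt | p.2 < l p.1} l η a k *
        Zr Set.univ η (bk l a k) (n - (k + 1)) (y - dk l a k) =
        ∑ k ∈ Finset.range k0, Fk Set.univ {p : Pt | p.2 < l p.1} l η a k *
          Zr Set.univ η (bk l a k) (n - (k + 1)) (y - dk l a k) +
        ∑ k ∈ Finset.Ico k0 n, Fk Set.univ {p : Pt | p.2 < l p.1} l η a k *
          Zr Set.univ η (bk l a k) (n - (k + 1)) (y - dk l a k) := by
      rw [Finset.range_eq_Ico, Finset.range_eq_Ico, Finset.sum_Ico_consecutive _ (Nat.zero_le _) hk]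
    have hs2 : ∑ k ∈ Finset.Ico k0 n, Fk Set.univ {p : Pt | p.2 < l p.1} l η a k *
          Zr Set.univ η (bk l a k) (n - (k + 1)) (y - dk l a k) ≤
        ∑ k ∈ Finset.range n, Fk Tᶜ {p : Pt | p.2 < l p.1} l η a k *
          Zr Tᶜ η (bk l a k) (n - (k + 1)) (y - dk l a k) := by
      have h1 : ∑ k ∈ Finset.Ico k0 n, Fk Set.univ {p : Pt | p.2 < l p.1} l η a k *
          Zr Set.univ η (bk l a k) (n - (k + 1)) (y - dk l a k) =
          ∑ k ∈ Finset.Ico k0 n, Fk Tᶜ {p : Pt | p.2 < l p.1} l η a k *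
          Zr Tᶜ η (bk l a k) (n - (k + 1)) (y - dk l a k) := by
        refine Finset.sum_congr rfl fun k hk1 => ?_
        rw [Finset.mem_Ico] at hk1
        rw [hF k]
        congr 1
        refine Zr_congr_region η _ _ _ fun p hp1 _ => ?_
        constructor
        · intro _ hpT
          have := (hT p hpT).1
          simp only [bk] at hp1
          omega
        · intro _
          trivial
      rw [h1]
      refine Finset.sum_le_sum_of_subset_of_nonneg ?_ fun k _ _ => ?_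
      · rw [Finset.range_eq_Ico]
        exact Finset.Ico_subset_Ico (Nat.zero_le _) le_rfl
      · rw [hF k]
        exact mul_nonneg (hFn k) (Zr_nonneg _ _ _ _ _)
    have hZ : Zr Set.univ η a n y ≤ Zr Tᶜ η a n y + ∑ k ∈ Finset.range k0,
        Fk Set.univ {p : Pt | p.2 < l p.1} l η a k * Zr Set.univ η (bk l a k) (n - (k + 1)) (y - dk l a k) := by
      rw [hset0] at e2
      linarith
    unfold W
    rw [WR_zero', WR_zero']
    refine (mul_le_mul_of_nonneg_left hZ (Real.exp_pos (-(n * lam μ 0))).le).trans ?_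
    rw [mul_add, Finset.mul_sum]
    refine add_le_add le_rfl (Finset.sum_le_sum fun k hk1 => ?_)
    rw [Finset.mem_range] at hk1
    rw [WR_zero', WR_zero']
    have h1 : Fk Set.univ {p : Pt | p.2 < l p.1} l η a k ≤ Zr (Lw l) η a (k + 1) (l (a.1 + (k + 1)) - a.2) := by
      unfold Fk
      refine Zr_mono ?_ η a (k + 1) _
      rintro p ⟨_, hp | hp⟩
      · have h5 : p.2 < l p.1 := hp
        show p.2 ≤ l p.1
        exact h5.le
      · rw [Set.mem_singleton_iff] at hp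
        rw [hp]
        show l (a.1 + (k + 1)) ≤ l (a.1 + (k + 1))
        exact le_rfl
    have h2 : Real.exp (-((n : ℝ) * lam μ 0)) =
        Real.exp (-(((k + 1 : ℕ) : ℝ) * lam μ 0)) * Real.exp (-(((n - (k + 1) : ℕ) : ℝ) * lam μ 0)) := by
      rw [← Real.exp_add]
      congr 1
      rw [Nat.cast_sub (by omega)]
      push_cast
      ring
    rw [h2]
    have h3 := mul_le_mul_of_nonneg_right h1 (Zr_nonneg Set.univ η (bk l a k) (n - (k + 1)) (y - dk l a k))
    have h4 := mul_le_mul_of_nonneg_left h3 (mul_nonneg (Real.exp_pos (-(((k + 1 : ℕ) : ℝ) * lam μ 0))).le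
      (Real.exp_pos (-(((n - (k + 1) : ℕ) : ℝ) * lam μ 0))).le)
    refine h4.trans (le_of_eq ?_)
    simp only [bk, dk]
    ring
  rw [exp_V]
  unfold WS
  refine (Finset.sum_le_sum fun y _ => key y).trans ?_
  rw [Finset.sum_add_distrib, Finset.sum_comm]
  refine add_le_add le_rfl (Finset.sum_le_sum fun k _ => ?_)
  rw [← Finset.mul_sum]
  refine mul_le_mul_of_nonneg_left ?_ (WR_nonneg _ _ _ _ _)
  have h2 := WS_le_exp_V (μ := μ) (s := 0) η (a.1 + (k + 1), l (a.1 + (k + 1))) (n - (k + 1))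
    ((Finset.Icc (0 : ℤ) n).map (Equiv.subRight (l (a.1 + (k + 1)) - a.2)).toEmbedding)
  unfold WS at h2
  rw [Finset.sum_map] at h2
  simpa using h2

/-- A path followed by the luck. -/
theorem W_expV_le (η : Env) (t x : ℤ) (m n : ℕ) (u : ℤ) :
    W μ 0 η (t, x) m (u - x) * Real.exp (V μ 0 η (t + m, u) n) ≤ Real.exp (V μ 0 η (t, x) (m + n)) := by
  by_cases h : 0 ≤ u - x ∧ u - x ≤ m
  · rw [exp_V_add]
    have h1 := Finset.single_le_sum (f := fun k : ℤ => W μ 0 η (t, x) m k * Real.exp (V μ 0 η (t + m, x + k) n))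
      (s := Finset.Icc (0 : ℤ) m) (fun i _ => mul_nonneg (W_nonneg _ _ _ _) (Real.exp_nonneg _)) (Finset.mem_Icc.2 h)
    simp only [add_sub_cancel] at h1
    exact h1
  · rw [W_eq_zero η (t, x) h, zero_mul]
    exact (Real.exp_pos _).le

/-- STEP 3, deterministic part. -/
theorem sep_det {l : ℤ → ℤ} (hl : ∀ t, l t ≤ l (t + 1)) (T : Set Pt) (η : Env) {L y1 y2 : ℤ} (hL : 0 ≤ L) (r k0 k2 n : ℕ)
    (hn : r + k0 ≤ n) (hk : k0 ≤ k2) (h1 : y1 ≤ l r)
    (hT : ∀ p ∈ T, (r : ℤ) < p.1 ∧ p.1 ≤ r + k0 ∧ l p.1 < p.2)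
    (hp1 : 0 < WR μ 0 (Lw l) η ((r : ℤ), y1) k2 (y2 - y1)) (hp2 : 0 < W μ 0 η ((0 : ℤ), L) r (y1 - L)) :
    Real.exp (V μ 0 η ((0 : ℤ), (0 : ℤ)) n) ≤ (∑ y ∈ Finset.Icc (0 : ℤ) n, WR μ 0 Tᶜ η ((0 : ℤ), (0 : ℤ)) n y) +
      Real.exp (V μ 0 η ((0 : ℤ), L) n) * ((W μ 0 η ((0 : ℤ), (0 : ℤ)) r y1 +
        k0 * (WR μ 0 (Rg l r) η ((0 : ℤ), (0 : ℤ)) (r + k2) y2 / WR μ 0 (Lw l) η ((r : ℤ), y1) k2 (y2 - y1))) /
          W μ 0 η ((0 : ℤ), L) r (y1 - L)) := by
  obtain ⟨q, hq⟩ : ∃ q : ℕ, n = r + q := ⟨n - r, by omega⟩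
  subst hq
  have hkq : k0 ≤ q := by omega
  obtain ⟨P, hP⟩ : ∃ P : ℝ, P = WR μ 0 (Lw l) η ((r : ℤ), y1) k2 (y2 - y1) := ⟨_, rfl⟩
  obtain ⟨w, hw⟩ : ∃ w : ℝ, w = W μ 0 η ((0 : ℤ), L) r (y1 - L) := ⟨_, rfl⟩
  obtain ⟨EL, hEL⟩ : ∃ EL : ℝ, EL = Real.exp (V μ 0 η ((0 : ℤ), L) (r + q)) := ⟨_, rfl⟩
  obtain ⟨RG, hRG⟩ : ∃ RG : ℝ, RG = WR μ 0 (Rg l r) η ((0 : ℤ), (0 : ℤ)) (r + k2) y2 := ⟨_, rfl⟩
  obtain ⟨f, hf⟩ : ∃ f : ℤ → ℝ, f = fun u => Real.exp (V μ 0 η ((r : ℤ), u) q) := ⟨_, rfl⟩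
  obtain ⟨A, hA⟩ : ∃ A : ℤ → ℝ, A = fun u => W μ 0 η ((0 : ℤ), (0 : ℤ)) r u := ⟨_, rfl⟩
  have hf0 : ∀ u, 0 ≤ f u := fun u => by rw [hf]; exact (Real.exp_pos _).le
  have hA0 : ∀ u, 0 ≤ A u := fun u => by rw [hA]; exact W_nonneg _ _ _ _
  rw [← hP, ← hw, ← hEL, ← hRG]
  rw [← hP] at hp1
  rw [← hw] at hp2
  have hRG0 : 0 ≤ RG := hRG ▸ WR_nonneg _ _ _ _ _
  have hEL0 : 0 < EL := hEL ▸ Real.exp_pos _
  -- the decomposition at the row r
  have e0 : Real.exp (V μ 0 η ((0 : ℤ), (0 : ℤ)) (r + q)) = ∑ u ∈ Finset.Icc (0 : ℤ) r, A u * f u := by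
    rw [exp_V_add, hA, hf]
    refine Finset.sum_congr rfl fun u _ => ?_
    simp only [zero_add]
  -- the switching at the row r
  have hLf : ∀ u : ℤ, W μ 0 η ((0 : ℤ), L) r (u - L) * f u ≤ EL := by
    intro u
    have := W_expV_le (μ := μ) η 0 L r q u
    rw [zero_add] at this
    rw [hf, hEL]
    exact this
  have hsA : ∑ u ∈ (Finset.Icc (0 : ℤ) r).filter (fun u => y1 ≤ u), A u * f u ≤ EL * (A y1 / w) := by
    have h2 : ∀ u ∈ (Finset.Icc (0 : ℤ) r).filter (fun u => y1 ≤ u), A u * f u * w ≤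
        A y1 * (W μ 0 η ((0 : ℤ), L) r (u - L) * f u) := by
      intro u hu
      rw [Finset.mem_filter] at hu
      have h3 := W_tp2 (μ := μ) (s := 0) η 0 0 L r y1 u hL hu.2
      rw [sub_zero, sub_zero, ← hw] at h3
      have h4 := mul_le_mul_of_nonneg_right h3 (hf0 u)
      rw [hA]
      calc _ = _ := by ring
        _ ≤ _ := h4
        _ = _ := by ring
    have h5 : ∑ u ∈ (Finset.Icc (0 : ℤ) r).filter (fun u => y1 ≤ u), W μ 0 η ((0 : ℤ), L) r (u - L) * f u ≤ EL := by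
      have h6 : ∑ u ∈ (Finset.Icc (0 : ℤ) r).filter (fun u => y1 ≤ u), W μ 0 η ((0 : ℤ), L) r (u - L) * f u ≤
          ∑ u ∈ Finset.Icc (0 : ℤ) (L + r), W μ 0 η ((0 : ℤ), L) r (u - L) * f u := by
        refine Finset.sum_le_sum_of_subset_of_nonneg ?_ fun u _ _ => mul_nonneg (W_nonneg _ _ _ _) (hf0 u)
        intro u hu
        rw [Finset.mem_filter, Finset.mem_Icc] at hu
        rw [Finset.mem_Icc]
        omega
      refine h6.trans (le_of_eq ?_)
      have h7 : ∑ u ∈ Finset.Icc (0 : ℤ) (L + r), W μ 0 η ((0 : ℤ), L) r (u - L) * f u =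
          ∑ u ∈ Finset.Icc L (L + r), W μ 0 η ((0 : ℤ), L) r (u - L) * f u := by
        symm
        refine Finset.sum_subset (Finset.Icc_subset_Icc hL le_rfl) fun u _ hu => ?_
        rw [W_eq_zero η ((0 : ℤ), L) (n := r) (y := u - L), zero_mul]
        intro h
        apply hu
        rw [Finset.mem_Icc]
        omega
      have h8 : Finset.Icc L (L + r) = (Finset.Icc (0 : ℤ) r).map (addRightEmbedding L) := by
        rw [Finset.map_add_right_Icc, zero_add, add_comm]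
      rw [h7, h8, Finset.sum_map, hEL, exp_V_add, hf]
      refine Finset.sum_congr rfl fun k _ => ?_
      simp only [addRightEmbedding_apply, add_sub_cancel_right, zero_add]
      rw [add_comm k L]
    rw [mul_div_assoc', le_div_iff₀ hp2, Finset.sum_mul]
    refine (Finset.sum_le_sum h2).trans ?_
    rw [← Finset.mul_sum, mul_comm EL]
    exact mul_le_mul_of_nonneg_left h5 (hA0 y1)
  -- the paths on the left at the row r
  have hTr : ∀ p ∈ T, p.1 ≤ (r : ℤ) + k0 ∧ l p.1 < p.2 := fun p hp => (hT p hp).2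
  obtain ⟨z, hz⟩ : ∃ z : ℕ → ℤ, z = fun i : ℕ => l ((r : ℤ) + ((i : ℤ) + 1)) := ⟨_, rfl⟩
  obtain ⟨g, hg⟩ : ∃ g : ℕ → ℝ, g = fun i : ℕ => Real.exp (V μ 0 η ((r : ℤ) + ((i : ℤ) + 1), z i) (q - (i + 1))) := ⟨_, rfl⟩
  have hg0 : ∀ i, 0 ≤ g i := fun i => by rw [hg]; exact (Real.exp_pos _).le
  have hB1 : ∀ u : ℤ, u < y1 → f u ≤ (∑ y ∈ Finset.Icc (0 : ℤ) q, WR μ 0 Tᶜ η ((r : ℤ), u) q y) +
      ∑ i ∈ Finset.range k0, WR μ 0 (Lw l) η ((r : ℤ), u) (i + 1) (z i - u) * g i := by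
    intro u hu
    have := V_exit (μ := μ) hl T η ((r : ℤ), u) (show u < l (r : ℤ) by omega) q k0 hkq hTr
    rw [hf, hz, hg, hz]
    exact this
  have hB2 : ∀ i ∈ Finset.range k0, (∑ u ∈ (Finset.Icc (0 : ℤ) r).filter (fun u => ¬ y1 ≤ u),
      A u * WR μ 0 (Lw l) η ((r : ℤ), u) (i + 1) (z i - u)) * P ≤ RG * WR μ 0 (Lw l) η ((r : ℤ), y1) (i + 1) (z i - y1) := by
    intro i hi
    rw [Finset.mem_range] at hi
    obtain ⟨j, hj⟩ : ∃ j : ℕ, k2 = (i + 1) + j := ⟨k2 - (i + 1), by omega⟩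
    have h2 : ∀ u ∈ (Finset.Icc (0 : ℤ) r).filter (fun u => ¬ y1 ≤ u),
        A u * WR μ 0 (Lw l) η ((r : ℤ), u) (i + 1) (z i - u) * P ≤
        A u * WR μ 0 (Lw l) η ((r : ℤ), u) k2 (y2 - u) * WR μ 0 (Lw l) η ((r : ℤ), y1) (i + 1) (z i - y1) := by
      intro u hu
      rw [Finset.mem_filter] at hu
      have h3 := WR_switch (μ := μ) (Lw l) η (r : ℤ) u y1 (i + 1) j (z i) y2 (by omega) (by omega) (fun v hv => by
        have h4 : v ≤ l ((r : ℤ) + ((i + 1 : ℕ) : ℤ)) := hv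
        rw [hz]
        push_cast at h4
        exact h4)
      rw [← hj, ← hP] at h3
      have h4 := mul_le_mul_of_nonneg_left h3 (hA0 u)
      calc _ = _ := by ring
        _ ≤ _ := h4
        _ = _ := by ring
    rw [Finset.sum_mul]
    refine (Finset.sum_le_sum h2).trans ?_
    rw [← Finset.sum_mul]
    refine mul_le_mul_of_nonneg_right ?_ (WR_nonneg _ _ _ _ _)
    have h5 := WR_add' (μ := μ) (Rg l r) η 0 0 r k2 y2 (A := 0) (B := r) le_rfl (by simp)
    rw [sub_zero] at h5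
    rw [hRG, h5]
    refine (Finset.sum_le_sum_of_subset_of_nonneg (Finset.filter_subset _ _) fun u _ _ =>
      mul_nonneg (hA0 u) (WR_nonneg _ _ _ _ _)).trans ?_
    refine Finset.sum_le_sum fun u _ => ?_
    refine mul_le_mul (le_of_eq ?_) ?_ (WR_nonneg _ _ _ _ _) (WR_nonneg _ _ _ _ _)
    · rw [hA, sub_zero]
      show WR μ 0 Set.univ η ((0 : ℤ), (0 : ℤ)) r u = _
      refine WR_congr' η _ r u fun p _ hp => ⟨fun _ => Or.inl ?_, fun _ => trivial⟩
      simpa using hp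
    · rw [zero_add]
      exact WR_mono' (fun p hp => Or.inr hp) η _ _ _
  have hsB : ∑ u ∈ (Finset.Icc (0 : ℤ) r).filter (fun u => ¬ y1 ≤ u), A u * f u ≤
      (∑ y ∈ Finset.Icc (0 : ℤ) (r + q : ℕ), WR μ 0 Tᶜ η ((0 : ℤ), (0 : ℤ)) (r + q) y) + EL * (k0 * (RG / P) / w) := by
    have h2 : ∑ u ∈ (Finset.Icc (0 : ℤ) r).filter (fun u => ¬ y1 ≤ u), A u * f u ≤
        (∑ u ∈ (Finset.Icc (0 : ℤ) r).filter (fun u => ¬ y1 ≤ u),
          A u * (∑ y ∈ Finset.Icc (0 : ℤ) q, WR μ 0 Tᶜ η ((r : ℤ), u) q y)) +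
        ∑ i ∈ Finset.range k0, (∑ u ∈ (Finset.Icc (0 : ℤ) r).filter (fun u => ¬ y1 ≤ u),
          A u * WR μ 0 (Lw l) η ((r : ℤ), u) (i + 1) (z i - u)) * g i := by
      have h3 : ∀ u ∈ (Finset.Icc (0 : ℤ) r).filter (fun u => ¬ y1 ≤ u), A u * f u ≤
          A u * (∑ y ∈ Finset.Icc (0 : ℤ) q, WR μ 0 Tᶜ η ((r : ℤ), u) q y) +
          ∑ i ∈ Finset.range k0, A u * WR μ 0 (Lw l) η ((r : ℤ), u) (i + 1) (z i - u) * g i := by
        intro u hu
        rw [Finset.mem_filter] at hu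
        have h4 := mul_le_mul_of_nonneg_left (hB1 u (by omega)) (hA0 u)
        refine h4.trans (le_of_eq ?_)
        rw [mul_add, Finset.mul_sum (Finset.range k0)]
        congr 1
        exact Finset.sum_congr rfl fun i _ => by ring
      refine (Finset.sum_le_sum h3).trans (le_of_eq ?_)
      rw [Finset.sum_add_distrib]
      congr 1
      rw [Finset.sum_comm]
      exact Finset.sum_congr rfl fun i _ => by rw [Finset.sum_mul]
    refine h2.trans (add_le_add ?_ ?_)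
    · -- the avoiding paths
      have h3 : ∀ u ∈ (Finset.Icc (0 : ℤ) r).filter (fun u => ¬ y1 ≤ u),
          A u * (∑ y ∈ Finset.Icc (0 : ℤ) q, WR μ 0 Tᶜ η ((r : ℤ), u) q y) =
          ∑ y ∈ Finset.Icc (0 : ℤ) (r + q : ℕ), WR μ 0 Tᶜ η ((0 : ℤ), (0 : ℤ)) r u * WR μ 0 Tᶜ η ((r : ℤ), u) q (y - u) := by
        intro u hu
        rw [Finset.mem_filter, Finset.mem_Icc] at hu
        have h4 : A u = WR μ 0 Tᶜ η ((0 : ℤ), (0 : ℤ)) r u := by
          rw [hA]
          show WR μ 0 Set.univ η ((0 : ℤ), (0 : ℤ)) r u = _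
          refine WR_congr' η _ r u fun p _ hp => ⟨fun _ hpT => ?_, fun _ => trivial⟩
          have := (hT p hpT).1
          simp only [zero_add] at hp
          omega
        rw [← h4, ← Finset.mul_sum]
        congr 1
        have h5 : ∑ y ∈ Finset.Icc (0 : ℤ) (r + q : ℕ), WR μ 0 Tᶜ η ((r : ℤ), u) q (y - u) =
            ∑ y ∈ Finset.Icc u (u + q), WR μ 0 Tᶜ η ((r : ℤ), u) q (y - u) := by
          symm
          refine Finset.sum_subset ?_ fun y _ hy => ?_
          · intro y hy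
            rw [Finset.mem_Icc] at hy ⊢
            push_cast
            omega
          · refine WR_off _ η _ ?_
            intro h
            apply hy
            rw [Finset.mem_Icc]
            omega
        have h6 : Finset.Icc u (u + q) = (Finset.Icc (0 : ℤ) q).map (addRightEmbedding u) := by
          rw [Finset.map_add_right_Icc, zero_add, add_comm]
        rw [h5, h6, Finset.sum_map]
        refine Finset.sum_congr rfl fun y _ => ?_
        simp only [addRightEmbedding_apply, add_sub_cancel_right]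
      rw [Finset.sum_congr rfl h3, Finset.sum_comm]
      refine Finset.sum_le_sum fun y _ => ?_
      have h7 := WR_add' (μ := μ) Tᶜ η 0 0 r q y (A := 0) (B := r) le_rfl (by simp)
      rw [sub_zero] at h7
      rw [h7]
      refine (Finset.sum_le_sum_of_subset_of_nonneg (Finset.filter_subset _ _) fun u _ _ =>
        mul_nonneg (WR_nonneg _ _ _ _ _) (WR_nonneg _ _ _ _ _)).trans (le_of_eq ?_)
      refine Finset.sum_congr rfl fun u _ => ?_
      rw [sub_zero, zero_add]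
    · -- the hitting paths
      have h3 : ∀ i ∈ Finset.range k0, (∑ u ∈ (Finset.Icc (0 : ℤ) r).filter (fun u => ¬ y1 ≤ u),
          A u * WR μ 0 (Lw l) η ((r : ℤ), u) (i + 1) (z i - u)) * g i ≤ EL * (RG / P / w) := by
        intro i hi
        have h4 := hB2 i hi
        rw [Finset.mem_range] at hi
        have h5 : WR μ 0 (Lw l) η ((r : ℤ), y1) (i + 1) (z i - y1) * g i ≤ f y1 := by
          have h6 := W_expV_le (μ := μ) η (r : ℤ) y1 (i + 1) (q - (i + 1)) (z i)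
          have h7 : i + 1 + (q - (i + 1)) = q := by omega
          rw [h7] at h6
          rw [hf]
          refine le_trans (mul_le_mul_of_nonneg_right (WR_le_W _ _ _ _ _) (hg0 i)) ?_
          rw [hg]
          push_cast at h6
          exact h6
        have h6 : f y1 * w ≤ EL := by
          rw [mul_comm, hw]
          exact hLf y1
        have h7 : (∑ u ∈ (Finset.Icc (0 : ℤ) r).filter (fun u => ¬ y1 ≤ u),
          A u * WR μ 0 (Lw l) η ((r : ℤ), u) (i + 1) (z i - u)) * g i * (P * w) ≤ EL * RG := by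
          calc _ = ((∑ u ∈ (Finset.Icc (0 : ℤ) r).filter (fun u => ¬ y1 ≤ u),
                A u * WR μ 0 (Lw l) η ((r : ℤ), u) (i + 1) (z i - u)) * P) * (g i * w) := by ring
            _ ≤ (RG * WR μ 0 (Lw l) η ((r : ℤ), y1) (i + 1) (z i - y1)) * (g i * w) :=
                mul_le_mul_of_nonneg_right h4 (mul_nonneg (hg0 i) hp2.le)
            _ = RG * w * (WR μ 0 (Lw l) η ((r : ℤ), y1) (i + 1) (z i - y1) * g i) := by ring
            _ ≤ RG * w * f y1 := mul_le_mul_of_nonneg_left h5 (mul_nonneg hRG0 hp2.le)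
            _ = RG * (f y1 * w) := by ring
            _ ≤ RG * EL := mul_le_mul_of_nonneg_left h6 hRG0
            _ = EL * RG := by ring
        have h8 : EL * (RG / P / w) = EL * RG / (P * w) := by
          field_simp
        rw [h8, le_div_iff₀ (mul_pos hp1 hp2)]
        exact h7
      refine (Finset.sum_le_sum h3).trans (le_of_eq ?_)
      rw [Finset.sum_const, Finset.card_range, nsmul_eq_mul]
      ring
  rw [e0, ← Finset.sum_filter_add_sum_filter_not (Finset.Icc (0 : ℤ) r) (fun u => y1 ≤ u)]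
  have e1 : EL * ((W μ 0 η ((0 : ℤ), (0 : ℤ)) r y1 + k0 * (RG / P)) / w) = EL * (A y1 / w) + EL * (k0 * (RG / P) / w) := by
    rw [hA]
    ring
  rw [e1]
  linarith

end Pool.Agent.W_7d29a1_SL
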