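import Pool.Agent.W_7d29a1_SL.SepDet

/-!
THEOREM (SL), proofs row 639, Step 3: the pointwise conclusion (numbers). (helper86)
-/

namespace Pool.Agent.W_7d29a1_SL

/-- From the deterministic inequality to `V(0,0) + κ E ≤ V(0,L)`. -/
theorem sep_num {EV0 EVL AV W0 RG P w V0 VL Vb lG E Er Et k0 b b1 b2 b3 C C3 c5 th x : ℝ}
    (hdet : EV0 ≤ AV + EVL * ((W0 + k0 * (RG / P)) / w)) (hEV0 : EV0 = Real.exp V0) (hEVL : EVL = Real.exp VL)
    (hP : Real.exp (-(b3 * Et)) ≤ P) (hw : Real.exp (-(b2 * Er)) ≤ w) (hW0 : W0 ≤ Real.exp (b1 * Er - th * x))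
    (hRG : RG ≤ Real.exp (b1 * Er - th * x)) (hRG0 : 0 ≤ RG)
    (hAV : AV ≤ Real.exp (Vb + C3 * E)) (hLS : lG + Vb - b * E ≤ VL) (hlG : (b + C3 + 1) * E ≤ lG)
    (hk : k0 ≤ Real.exp ((1 + C) * Er)) (hk0 : 0 ≤ k0) (hC : 0 ≤ C)
    (hb3 : 0 ≤ b3) (hEt : Et ≤ Er) (hEr : 0 ≤ Er)
    (hth : 3 * c5 * E ≤ th * x) (hB : (1 + C + b1 + b2 + b3) * Er ≤ c5 * E) (hc5 : 0 < c5) (hc5' : c5 ≤ 1 / 2)
    (hE : Real.log 3 ≤ c5 * E) (hE0 : 0 ≤ E) : V0 + c5 * E ≤ VL := by
  have hP0 : 0 < P := (Real.exp_pos _).trans_le hP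
  have hw0 : 0 < w := (Real.exp_pos _).trans_le hw
  have h1 : AV ≤ Real.exp (VL - E) := by
    refine hAV.trans (Real.exp_le_exp.2 ?_)
    have : (b + C3 + 1) * E = b * E + C3 * E + E := by ring
    linarith
  have h2 : RG / P ≤ Real.exp (b1 * Er - th * x + b3 * Er) := by
    rw [div_le_iff₀ hP0]
    refine hRG.trans ?_
    have h3 : Real.exp (b1 * Er - th * x) = Real.exp (b1 * Er - th * x + b3 * Er) * Real.exp (-(b3 * Er)) := by
      rw [← Real.exp_add]
      congr 1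
      ring
    rw [h3]
    refine mul_le_mul_of_nonneg_left (le_trans (Real.exp_le_exp.2 ?_) hP) (Real.exp_pos _).le
    have := mul_le_mul_of_nonneg_left hEt hb3
    linarith
  have h3 : k0 * (RG / P) ≤ Real.exp ((1 + C + b1 + b3) * Er - th * x) := by
    refine (mul_le_mul hk h2 (div_nonneg hRG0 hP0.le) (Real.exp_pos _).le).trans (le_of_eq ?_)
    rw [← Real.exp_add]
    congr 1
    ring
  have h4 : W0 ≤ Real.exp ((1 + C + b1 + b3) * Er - th * x) := by
    refine hW0.trans (Real.exp_le_exp.2 ?_)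
    have : 0 ≤ (1 + C + b3) * Er := mul_nonneg (by linarith) hEr
    linarith
  have h5 : (W0 + k0 * (RG / P)) / w ≤ 2 * Real.exp (-(2 * c5 * E)) := by
    rw [div_le_iff₀ hw0]
    have h6 : W0 + k0 * (RG / P) ≤ 2 * Real.exp ((1 + C + b1 + b3) * Er - th * x) := by linarith
    refine h6.trans ?_
    have h7 : Real.exp ((1 + C + b1 + b3) * Er - th * x) ≤ Real.exp (-(2 * c5 * E)) * Real.exp (-(b2 * Er)) := by
      rw [← Real.exp_add]
      refine Real.exp_le_exp.2 ?_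
      have : (1 + C + b1 + b2 + b3) * Er = (1 + C + b1 + b3) * Er + b2 * Er := by ring
      linarith
    have h8 : Real.exp (-(2 * c5 * E)) * Real.exp (-(b2 * Er)) ≤ Real.exp (-(2 * c5 * E)) * w :=
      mul_le_mul_of_nonneg_left hw (Real.exp_pos _).le
    linarith
  have h6 : EV0 ≤ Real.exp (VL - E) + Real.exp VL * (2 * Real.exp (-(2 * c5 * E))) := by
    refine hdet.trans (add_le_add h1 ?_)
    rw [hEVL]
    exact mul_le_mul_of_nonneg_left h5 (Real.exp_pos _).le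
  have h7 : Real.exp (VL - E) ≤ Real.exp VL * Real.exp (-(2 * c5 * E)) := by
    rw [← Real.exp_add]
    refine Real.exp_le_exp.2 ?_
    nlinarith
  have h8 : Real.exp V0 ≤ Real.exp (VL - c5 * E) := by
    rw [← hEV0]
    refine h6.trans ?_
    have h9 : 3 ≤ Real.exp (c5 * E) := (Real.log_le_iff_le_exp (by norm_num)).1 hE
    have h10 : Real.exp (VL - c5 * E) = Real.exp VL * Real.exp (-(2 * c5 * E)) * Real.exp (c5 * E) := by
      rw [← Real.exp_add, ← Real.exp_add]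
      congr 1
      ring
    rw [h10]
    have h11 : 0 < Real.exp VL * Real.exp (-(2 * c5 * E)) := mul_pos (Real.exp_pos _) (Real.exp_pos _)
    nlinarith
  have h9 := Real.exp_le_exp.1 h8
  linarith

end Pool.Agent.W_7d29a1_SL
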