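import Pool.Agent.W_7d29a1_h18.PlA
import Pool.Agent.W_7d29a1_h42.LuckEnv

/-!
Luck from variance (MP_7d29a1_pr, scaling law): a function `F` of independent variables which has the properties of a
free energy has `log E exp (θ F) ≥ θ E F + c θ ^ 2 Var F`, `0 ≤ θ ≤ 1`, for all laws and any number of sites. (helper62)
-/

namespace Pool.Agent.W_7d29a1_SL

open MeasureTheory Set Pool.Agent.W_7d29a1_h42 Pool.Agent.W_7d29a1_h18

noncomputable section

variable {ν : Measure ℝ} [IsProbabilityMeasure ν] {M : ℝ}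

lemma exp_sum_int (hEM : Pool.Agent.W_7d29a1_h47.EM ν) (N : ℕ) (C : ℝ) :
    Integrable (fun x : Fin N → ℝ => Real.exp (C * (1 + ∑ i, |x i|))) (PN ν N) := by
  have h : Integrable (fun x : Fin N → ℝ => ∏ i, Real.exp (C * |x i|)) (PN ν N) :=
    Integrable.fintype_prod (f := fun _ t => Real.exp (C * |t|)) fun _ => hEM C
  refine (h.const_mul (Real.exp C)).congr (Filter.Eventually.of_forall fun x => ?_)
  show Real.exp C * ∏ i, Real.exp (C * |x i|) = Real.exp (C * (1 + ∑ i, |x i|))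
  rw [← Real.exp_sum, ← Real.exp_add, mul_add, mul_one, Finset.mul_sum]

lemma LG_exp_int (hEM : Pool.Agent.W_7d29a1_h47.EM ν) {N : ℕ} {h : (Fin N → ℝ) → ℝ} (hh : LG N h) (θ : ℝ) :
    Integrable (fun x => Real.exp (θ * h x)) (PN ν N) := by
  obtain ⟨hm, C, hC, hb⟩ := hh
  refine (exp_sum_int hEM N (|θ| * C)).mono' (Real.measurable_exp.comp (hm.const_mul θ)).aestronglyMeasurable
    (Filter.Eventually.of_forall fun x => ?_)
  rw [Real.norm_eq_abs, Real.abs_exp]
  refine Real.exp_le_exp.2 ?_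
  have h1 := hb x
  calc θ * h x ≤ |θ * h x| := le_abs_self _
    _ = |θ| * |h x| := abs_mul _ _
    _ ≤ |θ| * (C * (1 + ∑ i, |x i|)) := mul_le_mul_of_nonneg_left h1 (abs_nonneg _)
    _ = |θ| * C * (1 + ∑ i, |x i|) := by ring

lemma jen (hEM : Pool.Agent.W_7d29a1_h47.EM ν) {N : ℕ} {h : (Fin N → ℝ) → ℝ} (hh : LG N h) (θ : ℝ) :
    θ * ∫ x, h x ∂(PN ν N) ≤ Real.log (∫ x, Real.exp (θ * h x) ∂(PN ν N)) := by
  have hi := hh.integrable (EM_FM hEM)
  have h1 := gibbs (P := PN ν N) (D := fun _ => (1 : ℝ)) (H := fun x => θ * h x) (fun _ => one_pos)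
    (integrable_const _) (by simp) (by simpa using hi.const_mul θ) (by simp) (LG_exp_int hEM hh θ)
  simp only [one_mul, Real.log_one, mul_zero, integral_zero, sub_zero] at h1
  rw [integral_const_mul] at h1
  exact h1

lemma cn_sum {N : ℕ} (y : ℝ) (z : Fin N → ℝ) : ∑ i, |cn y z i| = |y| + ∑ i, |z i| := by
  rw [Fin.sum_univ_succ]
  simp only [cn_zero, cn_succ]

/-- The log-Laplace transform of a section is integrable. -/
lemma sec_log_int (hEM : Pool.Agent.W_7d29a1_h47.EM ν) {N : ℕ} {h : (Fin (N + 1) → ℝ) → ℝ} (hh : LG (N + 1) h) (θ : ℝ) :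
    Integrable (fun y => Real.log (∫ z, Real.exp (θ * h (cn y z)) ∂(PN ν N))) ν := by
  obtain ⟨hm, C, hC, hb⟩ := hh
  obtain ⟨K, hK⟩ : ∃ K, K = ∫ z, Real.exp ((|θ| * C) * (1 + ∑ i, |z i|)) ∂(PN ν N) := ⟨_, rfl⟩
  have hK0 : 0 < K := by
    rw [hK]
    exact integral_exp_pos (exp_sum_int hEM N _)
  have hmeas : Measurable fun y => Real.log (∫ z, Real.exp (θ * h (cn y z)) ∂(PN ν N)) := by
    refine Real.measurable_log.comp ?_
    exact measurable_int_cn (h := fun x => Real.exp (θ * h x)) (Real.measurable_exp.comp (hm.const_mul θ))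
  have hLG : LG (N + 1) h := ⟨hm, C, hC, hb⟩
  have i1 : Integrable (fun y => |θ * ∫ z, h (cn y z) ∂(PN ν N)|) ν :=
    ((int_cn' (hLG.integrable (EM_FM hEM))).const_mul θ).abs
  have i2 : Integrable (fun y : ℝ => |θ| * C * |y|) ν := (Integrable.abs (EM_FM hEM)).const_mul _
  refine ((i1.add i2).add (integrable_const (|Real.log K|))).mono' hmeas.aestronglyMeasurable
    (Filter.Eventually.of_forall fun y => ?_)
  have hs : LG N fun z => h (cn y z) := hLG.sec y
  have h1 := jen hEM hs θ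
  have h2 : ∫ z, Real.exp (θ * h (cn y z)) ∂(PN ν N) ≤ Real.exp (|θ| * C * |y|) * K := by
    rw [hK, ← integral_const_mul]
    refine integral_mono (LG_exp_int hEM hs θ) ((exp_sum_int hEM N _).const_mul _) fun z => ?_
    show Real.exp (θ * h (cn y z)) ≤ Real.exp (|θ| * C * |y|) * Real.exp ((|θ| * C) * (1 + ∑ i, |z i|))
    rw [← Real.exp_add]
    refine Real.exp_le_exp.2 ?_
    have h3 := hb (cn y z)
    rw [cn_sum] at h3
    calc θ * h (cn y z) ≤ |θ * h (cn y z)| := le_abs_self _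
      _ = |θ| * |h (cn y z)| := abs_mul _ _
      _ ≤ |θ| * (C * (1 + (|y| + ∑ i, |z i|))) := mul_le_mul_of_nonneg_left h3 (abs_nonneg _)
      _ = |θ| * C * |y| + |θ| * C * (1 + ∑ i, |z i|) := by ring
  have h4 : 0 < ∫ z, Real.exp (θ * h (cn y z)) ∂(PN ν N) := integral_exp_pos (LG_exp_int hEM hs θ)
  have h5 := Real.log_le_log h4 h2
  rw [Real.log_mul (Real.exp_pos _).ne' hK0.ne', Real.log_exp] at h5
  rw [Real.norm_eq_abs, abs_le]
  have h6 := neg_abs_le (θ * ∫ z, h (cn y z) ∂(PN ν N))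
  have h7 := le_abs_self (Real.log K)
  have h8 : 0 ≤ |θ| * C * |y| := by positivity
  have h9 := abs_nonneg (Real.log K)
  have h10 := abs_nonneg (θ * ∫ z, h (cn y z) ∂(PN ν N))
  show -(|θ * ∫ z, h (cn y z) ∂(PN ν N)| + |θ| * C * |y| + |Real.log K|) ≤ _ ∧
    _ ≤ |θ * ∫ z, h (cn y z) ∂(PN ν N)| + |θ| * C * |y| + |Real.log K|
  constructor <;> linarith

/-- The induction. -/
theorem t1_key (hEM : Pool.Agent.W_7d29a1_h47.EM ν) {xm xp c2 ρ m q κ θ : ℝ} (hx : xm < xp)
    (hm : m = ν.real (Iic xm)) (hq : q = ν.real (Ici xp)) (hq0 : 0 < q) (hρ : ρ = m / q) (hc2 : 0 ≤ c2)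
    (hκ0 : 0 ≤ κ) (hκ1 : κ ≤ 1 / 2) (hκ2 : κ * (m * (1 + ρ)) ≤ (xp - xm) * c2 / 2)
    (hθ0 : 0 ≤ θ) (hθ1 : θ ≤ 1) (N : ℕ) :
    ∀ (Go Fp : (Fin N → ℝ) → ℝ) (g : Fin N → (Fin N → ℝ) → ℝ) (A : ℝ), LG N Go → LG N Fp →
      GD ν xm 1 c2 N g → A ≤ M → (∀ x y, Go x + ∑ i, g i x * (y i - x i) ≤ Fp y) →
      θ * ∫ x, Go x ∂(PN ν N) + (κ * ((xp - xm) * c2) / 2) * θ ^ 2 * IS ν M N g A ≤
        Real.log (∫ x, Real.exp (θ * Fp x) ∂(PN ν N)) := by
  have hν : FM ν := EM_FM hEM
  have hm0 : 0 ≤ m := by rw [hm]; exact measureReal_nonneg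
  have hρ0 : 0 ≤ ρ := by rw [hρ]; positivity
  have triv : ∀ (N : ℕ) (Go Fp : (Fin N → ℝ) → ℝ), LG N Go → LG N Fp → (∀ x, Go x ≤ Fp x) →
      θ * ∫ x, Go x ∂(PN ν N) ≤ Real.log (∫ x, Real.exp (θ * Fp x) ∂(PN ν N)) := by
    intro N Go Fp hGo hFp h
    refine le_trans ?_ (jen hEM hFp θ)
    exact mul_le_mul_of_nonneg_left (integral_mono (hGo.integrable hν) (hFp.integrable hν) h) hθ0
  induction N with
  | zero =>
    intro Go Fp g A hGo hFp hg hA h
    have h1 : ∀ x, Go x ≤ Fp x := fun x => by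
      have := h x x
      simpa using this
    simp only [IS, mul_zero, add_zero]
    exact triv 0 Go Fp hGo hFp h1
  | succ N ih =>
    intro Go Fp g A hGo hFp hg hA h
    have h1 : ∀ x, Go x ≤ Fp x := fun x => by
      have := h x x
      simpa using this
    by_cases hcase : A + am ν g ^ 2 ≤ M
    swap
    · have hIS : IS ν M (N + 1) g A = 0 := by
        simp only [IS]
        rw [if_neg hcase]
      rw [hIS, mul_zero, add_zero]
      exact triv (N + 1) Go Fp hGo hFp h1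
    have hIS : IS ν M (N + 1) g A = am ν g ^ 2 + ∫ x, IS ν M N (sg g x) (A + am ν g ^ 2) ∂ν := by
      simp only [IS]
      rw [if_pos hcase]
    obtain ⟨a, ha⟩ : ∃ a, a = am ν g := ⟨_, rfl⟩
    have ha0 : 0 ≤ a := by rw [ha]; exact am_nonneg hg
    have ha1 : a ≤ 1 := by rw [ha]; exact am_le hg
    obtain ⟨u, hu⟩ : ∃ u, u = κ * θ * a := ⟨_, rfl⟩
    have hu0 : 0 ≤ u := by rw [hu]; positivity
    have hu1 : u ≤ 1 / 2 := by
      rw [hu]
      have e1 : κ * θ ≤ 1 / 2 := by nlinarith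
      have e2 : 0 ≤ κ * θ := mul_nonneg hκ0 hθ0
      nlinarith
    obtain ⟨c, hc⟩ : ∃ c, c = κ * ((xp - xm) * c2) / 2 := ⟨_, rfl⟩
    -- the functions
    obtain ⟨G0, hG0⟩ : ∃ G0 : ℝ → ℝ, G0 = fun x => ∫ z, Go (cn x z) ∂(PN ν N) := ⟨_, rfl⟩
    obtain ⟨G1, hG1⟩ : ∃ G1 : ℝ → ℝ, G1 = fun x => IS ν M N (sg g x) (A + am ν g ^ 2) := ⟨_, rfl⟩
    obtain ⟨G, hG⟩ : ∃ G : ℝ → ℝ, G = fun x => θ * G0 x + c * θ ^ 2 * G1 x := ⟨_, rfl⟩
    obtain ⟨γ0, hγ0⟩ : ∃ γ0 : ℝ → ℝ, γ0 = fun x => ∫ z, g 0 (cn x z) ∂(PN ν N) := ⟨_, rfl⟩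
    obtain ⟨γ, hγ⟩ : ∃ γ : ℝ → ℝ, γ = fun x => θ * γ0 x := ⟨_, rfl⟩
    obtain ⟨k, hk⟩ : ∃ k : ℝ → ℝ, k = fun y => Real.log (∫ z, Real.exp (θ * Fp (cn y z)) ∂(PN ν N)) := ⟨_, rfl⟩
    have hG0int : Integrable G0 ν := by rw [hG0]; exact int_cn' (hGo.integrable hν)
    have hG1int : Integrable G1 ν := by rw [hG1]; exact IS_sec_int hg.meas hcase
    have hGint : Integrable G ν := by rw [hG]; exact (hG0int.const_mul θ).add (hG1int.const_mul _)
    have hγ0int : Integrable γ0 ν := by rw [hγ0]; exact int_cn' (hg.int 0)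
    have hγint : Integrable γ ν := by rw [hγ]; exact hγ0int.const_mul θ
    have hkint : Integrable k ν := by rw [hk]; exact sec_log_int hEM hFp θ
    have hγpos : ∀ x, 0 ≤ γ x := fun x => by
      rw [hγ, hγ0]
      exact mul_nonneg hθ0 (integral_nonneg fun z => hg.nonneg _ _)
    have hmain : ∀ x y, G x + γ x * (y - x) + 0 * ((0 : ℝ) - 0 * rr xm xp u ρ y) ≤ k y := by
      intro x y
      have hLG : LG N fun z => Go (cn x z) + g 0 (cn x z) * (y - x) := by
        refine (hGo.sec x).add ?_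
        have h2 : LG N fun z => g 0 (cn x z) * (fun _ => y - x) z :=
          LG.mul_bdd (LG.const N (y - x)) ((hg.meas 0).comp (measurable_cn_right x)) (B := 1)
            (fun z => by
              rw [abs_of_nonneg (hg.nonneg _ _)]
              exact hg.le _ _)
        exact h2
      have h2 := ih (fun z => Go (cn x z) + g 0 (cn x z) * (y - x)) (fun z => Fp (cn y z)) (sg g x)
        (A + am ν g ^ 2) hLG (hFp.sec y) (hg.sec x) hcase (fun z z' => by
          have h3 := h (cn x z) (cn y z')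
          rw [Fin.sum_univ_succ] at h3
          simp only [cn_zero, cn_succ] at h3
          simp only [sg]
          linarith)
      have h3 : ∫ z, (Go (cn x z) + g 0 (cn x z) * (y - x)) ∂(PN ν N) = G0 x + γ0 x * (y - x) := by
        rw [integral_add ((hGo.sec x).integrable hν), integral_mul_const, hG0, hγ0]
        refine Integrable.mul_const ?_ _
        refine (integrable_const (1 : ℝ)).mono' ((hg.meas 0).comp (measurable_cn_right x)).aestronglyMeasurable
          (Filter.Eventually.of_forall fun z => ?_)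
        rw [Real.norm_eq_abs, abs_of_nonneg (hg.nonneg _ _)]
        exact hg.le _ _
      rw [h3, ← hc] at h2
      rw [hG, hγ, hk, hG1]
      show θ * G0 x + c * θ ^ 2 * IS ν M N (sg g x) (A + am ν g ^ 2) + θ * γ0 x * (y - x) +
        0 * (0 - 0 * rr xm xp u ρ y) ≤ _
      linarith
    have hh : c2 * (θ * a) ≤ ∫ x in Iic xm, γ x ∂ν := by
      have hmeas : Measurable fun p : ℝ × (Fin N → ℝ) => g 0 (cn p.1 p.2) :=
        (hg.meas 0).comp measurable_cn
      have hint2 : Integrable (fun p : ℝ × (Fin N → ℝ) => g 0 (cn p.1 p.2))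
          ((ν.restrict (Iic xm)).prod (PN ν N)) := by
        refine (integrable_const (1 : ℝ)).mono' hmeas.aestronglyMeasurable
          (Filter.Eventually.of_forall fun p => ?_)
        rw [Real.norm_eq_abs, abs_of_nonneg (hg.nonneg _ _)]
        exact hg.le _ _
      obtain ⟨s1, s2⟩ := am_swap hg
      have h2 : c2 * a ≤ ∫ x in Iic xm, γ0 x ∂ν := by
        have h3 : ∫ x in Iic xm, γ0 x ∂ν = ∫ z, ∫ x in Iic xm, g 0 (cn x z) ∂ν ∂(PN ν N) := by
          rw [hγ0]
          exact integral_integral_swap hint2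
        rw [ha, s2, h3, ← integral_const_mul]
        refine integral_mono (s1.const_mul c2) hint2.integral_prod_right fun z => ?_
        have h4 := hg.har 0 (cn 0 z)
        simp only [update_cn_zero] at h4
        exact h4
      have h5 : ∫ x in Iic xm, γ x ∂ν = θ * ∫ x in Iic xm, γ0 x ∂ν := by
        rw [hγ, integral_const_mul]
      rw [h5]
      have h6 := mul_le_mul_of_nonneg_left h2 hθ0
      linarith
    have hstep := one_step (ν := ν) (c2 := c2) (a := θ * a) (cc := 0) (P := 0) (S := fun _ => (0 : ℝ)) hx hm hq hq0 hρ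
      hu0 hu1 hGint hγint (integrable_const (0 : ℝ)) hkint hγpos hmain hh
    -- the variational inequality in one coordinate
    obtain ⟨r1, r2⟩ := rr_int (ν := ν) (xm := xm) (xp := xp) (u := u) hm hq hq0 hρ
    obtain ⟨s1, s2⟩ := rr_sq (ν := ν) (u := u) hx hm hq hq0 hρ
    have hrpos : ∀ y, 0 < rr xm xp u ρ y := fun y =>
      lt_of_lt_of_le (by norm_num) (rr_ge hx hρ0 hu0 hu1 y)
    have hrle : ∀ y, rr xm xp u ρ y ≤ 1 + ρ := fun y => rr_le hx hρ0 hu0 hu1 y
    have hrk : Integrable (fun y => rr xm xp u ρ y * k y) ν := by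
      refine hkint.bdd_mul (c := 1 + ρ) (rr_meas xm xp u ρ).aestronglyMeasurable
        (Filter.Eventually.of_forall fun y => ?_)
      rw [Real.norm_eq_abs, abs_of_pos (hrpos y)]
      exact hrle y
    have hrl : Integrable (fun y => rr xm xp u ρ y * Real.log (rr xm xp u ρ y)) ν := by
      refine Integrable.of_bound (C := 1 + (1 + ρ) ^ 2)
        ((rr_meas xm xp u ρ).mul (Real.measurable_log.comp (rr_meas xm xp u ρ))).aestronglyMeasurable
        (Filter.Eventually.of_forall fun y => ?_)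
      have h4 := hrpos y
      have h5 := hrle y
      have h6 : Real.log (rr xm xp u ρ y) ≤ rr xm xp u ρ y - 1 := Real.log_le_sub_one_of_pos h4
      have h7 : 1 - (rr xm xp u ρ y)⁻¹ ≤ Real.log (rr xm xp u ρ y) := Real.one_sub_inv_le_log_of_pos h4
      have h8 : rr xm xp u ρ y * (1 - (rr xm xp u ρ y)⁻¹) = rr xm xp u ρ y - 1 := by
        rw [mul_sub, mul_one, mul_inv_cancel₀ h4.ne']
      have h9 := mul_le_mul_of_nonneg_left h7 h4.le
      have h10 := mul_le_mul_of_nonneg_left h6 h4.le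
      rw [h8] at h9
      have h11 : rr xm xp u ρ y ^ 2 ≤ (1 + ρ) ^ 2 := pow_le_pow_left₀ h4.le h5 2
      rw [Real.norm_eq_abs, abs_le]
      constructor
      · nlinarith
      · nlinarith
    have hek : Integrable (fun y => Real.exp (k y)) ν := by
      have e1 : (fun y => Real.exp (k y)) = fun y => ∫ z, Real.exp (θ * Fp (cn y z)) ∂(PN ν N) := by
        funext y
        rw [hk]
        exact Real.exp_log (integral_exp_pos (LG_exp_int hEM (hFp.sec y) θ))
      rw [e1]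
      exact int_cn' (h := fun x => Real.exp (θ * Fp x)) (LG_exp_int hEM hFp θ)
    have hgib := gibbs (P := ν) (D := rr xm xp u ρ) (H := k) hrpos r1 r2 hrk hrl hek
    have hlog : ∫ y, rr xm xp u ρ y * Real.log (rr xm xp u ρ y) ∂ν ≤ u ^ 2 * (m * (1 + ρ)) := by
      rw [← s2]
      refine integral_mono hrl s1 fun y => ?_
      exact mul_le_mul_of_nonneg_left (Real.log_le_sub_one_of_pos (hrpos y)) (hrpos y).le
    have htot : ∫ y, Real.exp (k y) ∂ν = ∫ x, Real.exp (θ * Fp x) ∂(PN ν (N + 1)) := by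
      rw [int_cn (LG_exp_int hEM hFp θ)]
      refine integral_congr_ae (Filter.Eventually.of_forall fun y => ?_)
      show Real.exp (k y) = _
      rw [hk]
      exact Real.exp_log (integral_exp_pos (LG_exp_int hEM (hFp.sec y) θ))
    rw [htot] at hgib
    have hGG : ∫ x, (G x + 0 * (0 : ℝ)) ∂ν = θ * ∫ x, Go x ∂(PN ν (N + 1)) +
        c * θ ^ 2 * ∫ x, IS ν M N (sg g x) (A + am ν g ^ 2) ∂ν := by
      simp only [mul_zero, add_zero]
      rw [hG, integral_add (hG0int.const_mul θ) (hG1int.const_mul _), integral_const_mul, integral_const_mul,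
        int_cn (hGo.integrable hν), hG0, hG1]
    rw [hGG] at hstep
    rw [hIS, ← hc]
    obtain ⟨I, hI⟩ : ∃ I, I = ∫ x, IS ν M N (sg g x) (A + am ν g ^ 2) ∂ν := ⟨_, rfl⟩
    rw [← hI] at hstep ⊢
    rw [← ha]
    have hent : u ^ 2 * (m * (1 + ρ)) ≤ κ * ((xp - xm) * c2) / 2 * (θ ^ 2 * a ^ 2) := by
      rw [hu]
      have h3 : 0 ≤ κ * (θ ^ 2 * a ^ 2) := by positivity
      have h4 := mul_le_mul_of_nonneg_left hκ2 h3
      nlinarith
    have hgain : u * (xp - xm) * (c2 * (θ * a)) = κ * ((xp - xm) * c2) * (θ ^ 2 * a ^ 2) := by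
      rw [hu]
      ring
    rw [hgain] at hstep
    rw [← hc] at hent
    have hcc : κ * ((xp - xm) * c2) = 2 * c := by rw [hc]; ring
    rw [hcc] at hstep
    nlinarith

end

end Pool.Agent.W_7d29a1_SL
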